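import Mathlib
import Pool.Agent.H438R2.BR.JDef
import Pool.Agent.H789R2.FR.Sph
set_option autoImplicit false

/-! # Bipolar coordinates on the sphere -/

namespace Pool.Agent.H438R2.BR

open MeasureTheory Set Complex
open scoped ENNReal RealInnerProductSpace
open Pool.Agent.H789R2.FR (E sg sg_finite sg_ae polar)

theorem J_inner {k m : ℕ} (x x' : E k) (y y' : E m) :
    (⟪J x y, J x' y'⟫ : ℝ) = ⟪x, x'⟫ + ⟪y, y'⟫ := by
  simp only [PiLp.inner_apply, J]
  rw [Fin.sum_univ_add]
  simp [Fin.append_left, Fin.append_right]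

theorem bn_J {k m : ℕ} (x : E k) (y : E m) : bn k m (J x y) = ‖x‖ := by
  rw [bn, EuclideanSpace.norm_eq]
  simp [J, Fin.append_left]

private theorem Jcomp (k m : ℕ) : (fun p : E k × E m => J p.1 p.2) =
    (WithLp.toLp 2 : (Fin (k + m) → ℝ) → E (k + m)) ∘
      (MeasurableEquiv.piCongrLeft (fun _ : Fin (k + m) => ℝ) finSumFinEquiv) ∘
      (MeasurableEquiv.sumPiEquivProdPi (fun _ : Fin k ⊕ Fin m => ℝ)).symm ∘
      (Prod.map WithLp.ofLp WithLp.ofLp) := by
  funext p
  apply PiLp.ext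
  intro i
  refine Fin.addCases (fun j => ?_) (fun j => ?_) i
  · have e : (Fin.castAdd m j) = finSumFinEquiv (Sum.inl j) := by simp
    simp only [J, Function.comp_apply]
    rw [e, MeasurableEquiv.piCongrLeft_apply_apply]
    simp only [finSumFinEquiv_apply_left, finSumFinEquiv_apply_right, Fin.append_left,
      Fin.append_right]
    rfl
  · have e : (Fin.natAdd k j) = finSumFinEquiv (Sum.inr j) := by simp
    simp only [J, Function.comp_apply]
    rw [e, MeasurableEquiv.piCongrLeft_apply_apply]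
    simp only [finSumFinEquiv_apply_left, finSumFinEquiv_apply_right, Fin.append_left,
      Fin.append_right]
    rfl

theorem J_mp (k m : ℕ) : MeasurePreserving (fun p : E k × E m => J p.1 p.2)
    ((volume : Measure (E k)).prod (volume : Measure (E m))) (volume : Measure (E (k + m))) := by
  have h1 := (PiLp.volume_preserving_ofLp (Fin k)).prod (PiLp.volume_preserving_ofLp (Fin m))
  have h2 := volume_measurePreserving_sumPiEquivProdPi_symm (fun _ : Fin k ⊕ Fin m => ℝ)
  have h3 := volume_measurePreserving_piCongrLeft (fun _ : Fin (k + m) => ℝ) finSumFinEquiv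
  have h4 := PiLp.volume_preserving_toLp (Fin (k + m))
  have h := h4.comp (h3.comp (h2.comp h1))
  rw [Jcomp k m]
  exact h

private theorem J_norm_sq {k m : ℕ} (x : E k) (y : E m) : ‖J x y‖ ^ 2 = ‖x‖ ^ 2 + ‖y‖ ^ 2 := by
  rw [← real_inner_self_eq_norm_sq, J_inner, real_inner_self_eq_norm_sq,
    real_inner_self_eq_norm_sq]

private theorem J_smul {k m : ℕ} (c : ℝ) (x : E k) (y : E m) : J (c • x) (c • y) = c • J x y := by
  apply PiLp.ext
  intro i
  refine Fin.addCases (fun j => ?_) (fun j => ?_) i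
  · simp [J, Fin.append_left]
  · simp [J, Fin.append_right]

/-- the weight `∫_0^1 r^{n-1} dr` -/
private noncomputable def cw (n : ℕ) : ℝ≥0∞ :=
  ∫⁻ r in Ioi (0 : ℝ), ENNReal.ofReal (r ^ (n - 1)) * (Iio (1 : ℝ)).indicator 1 r

private theorem cw_ne_top (n : ℕ) : cw n ≠ ∞ := by
  apply ne_of_lt
  calc cw n ≤ ∫⁻ r in Ioi (0 : ℝ), (Iio (1 : ℝ)).indicator 1 r := by
        apply setLIntegral_mono' measurableSet_Ioi
        intro r hr
        by_cases h1 : r ∈ Iio (1 : ℝ)
        · rw [indicator_of_mem h1, Pi.one_apply, mul_one]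
          have : r ^ (n - 1) ≤ 1 := pow_le_one₀ (le_of_lt hr) (le_of_lt h1)
          calc ENNReal.ofReal (r ^ (n - 1)) ≤ ENNReal.ofReal 1 := ENNReal.ofReal_le_ofReal this
            _ = 1 := by simp
        · rw [indicator_of_notMem h1, mul_zero]
    _ = volume (Iio (1 : ℝ) ∩ Ioi 0) := by
        rw [lintegral_indicator_one measurableSet_Iio, Measure.restrict_apply measurableSet_Iio]
    _ ≤ volume (Ioo (0 : ℝ) 1) := by
        apply measure_mono
        rintro r ⟨h1, h2⟩
        exact ⟨h2, h1⟩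
    _ < ∞ := by simp

private theorem cw_ne_zero (n : ℕ) : cw n ≠ 0 := by
  apply ne_of_gt
  calc (0 : ℝ≥0∞) < ENNReal.ofReal ((1 / 2) ^ (n - 1)) * volume (Ioo (1 / 2 : ℝ) 1) := by
        rw [Real.volume_Ioo, ← ENNReal.ofReal_mul (by positivity)]
        rw [ENNReal.ofReal_pos]
        positivity
    _ = ∫⁻ r in Ioo (1 / 2 : ℝ) 1, ENNReal.ofReal ((1 / 2) ^ (n - 1)) := by
        rw [setLIntegral_const]
    _ ≤ ∫⁻ r in Ioo (1 / 2 : ℝ) 1, ENNReal.ofReal (r ^ (n - 1)) * (Iio (1 : ℝ)).indicator 1 r := by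
        apply setLIntegral_mono' measurableSet_Ioo
        intro r hr
        rw [indicator_of_mem (show r ∈ Iio (1 : ℝ) from hr.2), Pi.one_apply, mul_one]
        exact ENNReal.ofReal_le_ofReal (pow_le_pow_left₀ (by norm_num) hr.1.le _)
    _ ≤ _ := by
        apply lintegral_mono_set
        intro r hr
        exact lt_trans (by norm_num) hr.1

private theorem cw_meas (n : ℕ) : Measurable fun r : ℝ =>
    ENNReal.ofReal (r ^ (n - 1)) * (Iio (1 : ℝ)).indicator (1 : ℝ → ℝ≥0∞) r :=
  ((measurable_id.pow_const _).ennreal_ofReal).mul (measurable_one.indicator measurableSet_Iio)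

private theorem cw_eq (n : ℕ) (k m : ℕ) (hk : 1 ≤ k) (hm : 1 ≤ m) (hn : n = k + m) (θ : ℝ)
    (h1 : 0 ≤ Real.cos θ) (h2 : 0 ≤ Real.sin θ) (r : ℝ) (hr : 0 < r) :
    ENNReal.ofReal r * (ENNReal.ofReal ((r * Real.cos θ) ^ (k - 1)) *
      ENNReal.ofReal ((r * Real.sin θ) ^ (m - 1))) =
    ENNReal.ofReal (r ^ (n - 1)) * ENNReal.ofReal (Real.cos θ ^ (k - 1) * Real.sin θ ^ (m - 1)) := by
  rw [← ENNReal.ofReal_mul (by positivity), ← ENNReal.ofReal_mul (by positivity),
    ← ENNReal.ofReal_mul (by positivity)]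
  congr 1
  have : n - 1 = 1 + (k - 1) + (m - 1) := by omega
  rw [this, pow_add, pow_add, pow_one, mul_pow, mul_pow]
  ring

/-- polar coordinates in the open first quadrant -/
private theorem quad (h : ℝ × ℝ → ℝ≥0∞) (hh : Measurable h) :
    ∫⁻ s in Ioi (0 : ℝ), ∫⁻ t in Ioi (0 : ℝ), h (s, t) =
      ∫⁻ r in Ioi (0 : ℝ), ∫⁻ θ in Q, ENNReal.ofReal r * h (r * Real.cos θ, r * Real.sin θ) := by
  have hpi := Real.pi_pos
  set S : Set (ℝ × ℝ) := Ioi (0 : ℝ) ×ˢ Ioi (0 : ℝ) with hS
  have hSm : MeasurableSet S := measurableSet_Ioi.prod measurableSet_Ioi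
  have e1 : ∫⁻ s in Ioi (0 : ℝ), ∫⁻ t in Ioi (0 : ℝ), h (s, t) = ∫⁻ p, S.indicator h p := by
    rw [lintegral_indicator hSm, hS]
    have : (volume : Measure (ℝ × ℝ)).restrict (Ioi (0 : ℝ) ×ˢ Ioi (0 : ℝ)) =
        ((volume : Measure ℝ).restrict (Ioi 0)).prod ((volume : Measure ℝ).restrict (Ioi 0)) := by
      rw [Measure.prod_restrict]; rfl
    rw [this, lintegral_prod _ hh.aemeasurable]
  have hQsub : Q ⊆ Ioo (-Real.pi) Real.pi := by
    intro θ hθ
    exact ⟨by linarith [hθ.1], by linarith [hθ.2]⟩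
  rw [e1, ← lintegral_comp_polarCoord_symm]
  have hm : Measurable fun p : ℝ × ℝ => ENNReal.ofReal p.1 • S.indicator h (polarCoord.symm p) := by
    have : Measurable fun p : ℝ × ℝ => polarCoord.symm p := by
      simp only [polarCoord_symm_apply]
      fun_prop
    exact (measurable_fst.ennreal_ofReal).smul ((hh.indicator hSm).comp this)
  have e2 : (volume : Measure (ℝ × ℝ)).restrict polarCoord.target =
      ((volume : Measure ℝ).restrict (Ioi 0)).prod
        ((volume : Measure ℝ).restrict (Ioo (-Real.pi) Real.pi)) := by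
    rw [Measure.prod_restrict, polarCoord_target]; rfl
  rw [e2, lintegral_prod _ hm.aemeasurable]
  apply setLIntegral_congr_fun measurableSet_Ioi
  intro r hr
  have hr0 : (0 : ℝ) < r := hr
  have e3 : ∫⁻ θ in Q, ENNReal.ofReal r * h (r * Real.cos θ, r * Real.sin θ) =
      ∫⁻ θ in Ioo (-Real.pi) Real.pi, Q.indicator
        (fun θ => ENNReal.ofReal r * h (r * Real.cos θ, r * Real.sin θ)) θ := by
    rw [lintegral_indicator (by unfold Q; exact measurableSet_Ioo),
      Measure.restrict_restrict (by unfold Q; exact measurableSet_Ioo),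
      inter_eq_left.2 hQsub]
  simp only
  rw [e3]
  apply setLIntegral_congr_fun measurableSet_Ioo
  intro θ hθ
  simp only [smul_eq_mul, polarCoord_symm_apply]
  by_cases hq : θ ∈ Q
  · rw [indicator_of_mem hq, indicator_of_mem]
    refine ⟨mul_pos hr0 (Real.cos_pos_of_mem_Ioo ⟨by linarith [hq.1], hq.2⟩),
      mul_pos hr0 (Real.sin_pos_of_pos_of_lt_pi hq.1 (hQsub hq).2)⟩
  · rw [indicator_of_notMem hq, indicator_of_notMem, mul_zero]
    rintro ⟨h1, h2⟩
    apply hq
    simp only [mem_Ioi] at h1 h2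
    have hc : 0 < Real.cos θ := (mul_pos_iff_of_pos_left hr0).1 h1
    have hs : 0 < Real.sin θ := (mul_pos_iff_of_pos_left hr0).1 h2
    constructor
    · by_contra hneg
      push Not at hneg
      have : Real.sin θ ≤ 0 := by
        have := Real.sin_nonneg_of_nonneg_of_le_pi (x := -θ) (by linarith) (by linarith [hθ.1])
        rw [Real.sin_neg] at this; linarith
      linarith
    · by_contra hneg
      push Not at hneg
      have : Real.cos θ ≤ 0 :=
        Real.cos_nonpos_of_pi_div_two_le_of_le hneg (by linarith [hθ.2])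
      linarith

private theorem swap4 {α β : Type*} [MeasurableSpace α] [MeasurableSpace β] (μ : Measure α)
    (ν : Measure β) [SFinite μ] [SFinite ν] (ρ σ : Measure ℝ) [SFinite ρ] [SFinite σ]
    (Φ : α → ℝ → β → ℝ → ℝ≥0∞)
    (hΦ : Measurable fun q : (α × ℝ) × (β × ℝ) => Φ q.1.1 q.1.2 q.2.1 q.2.2)
    (A B : ℝ → ℝ≥0∞) (hA : Measurable A) (hB : Measurable B) :
    ∫⁻ u, ∫⁻ s, A s * ∫⁻ v, ∫⁻ t, B t * Φ u s v t ∂σ ∂ν ∂ρ ∂μ =
      ∫⁻ s, ∫⁻ t, A s * B t * ∫⁻ u, ∫⁻ v, Φ u s v t ∂ν ∂μ ∂σ ∂ρ := by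
  -- measurability facts
  have mA : Measurable fun q : ((α × ℝ) × β) × ℝ => B q.2 * Φ q.1.1.1 q.1.1.2 q.1.2 q.2 :=
    (hB.comp measurable_snd).mul (hΦ.comp ((measurable_fst.comp measurable_fst).prodMk
      ((measurable_snd.comp measurable_fst).prodMk measurable_snd)))
  have mB : Measurable fun q : (α × ℝ) × β => ∫⁻ t, B t * Φ q.1.1 q.1.2 q.2 t ∂σ :=
    Measurable.lintegral_prod_right' mA
  have mC : Measurable fun q : α × ℝ => A q.2 * ∫⁻ v, ∫⁻ t, B t * Φ q.1 q.2 v t ∂σ ∂ν :=
    (hA.comp measurable_snd).mul (Measurable.lintegral_prod_right' mB)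
  rw [lintegral_lintegral_swap mC.aemeasurable]
  apply lintegral_congr
  intro s
  have mD : ∀ u : α, Measurable fun q : β × ℝ => B q.2 * Φ u s q.1 q.2 := fun u =>
    mA.comp (((measurable_const (a := (u, s))).prodMk measurable_fst).prodMk measurable_snd)
  have mE : Measurable fun q : (α × ℝ) × β => Φ q.1.1 s q.2 q.1.2 :=
    hΦ.comp (((measurable_fst.comp measurable_fst).prodMk measurable_const).prodMk
      (measurable_snd.prodMk (measurable_snd.comp measurable_fst)))
  have mF : Measurable fun q : α × ℝ => ∫⁻ v, Φ q.1 s v q.2 ∂ν :=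
    Measurable.lintegral_prod_right' mE
  have h1 : ∀ u : α, A s * ∫⁻ v, ∫⁻ t, B t * Φ u s v t ∂σ ∂ν =
      ∫⁻ t, A s * B t * ∫⁻ v, Φ u s v t ∂ν ∂σ := by
    intro u
    rw [lintegral_lintegral_swap (mD u).aemeasurable]
    have h2 : ∀ t, ∫⁻ v, B t * Φ u s v t ∂ν = B t * ∫⁻ v, Φ u s v t ∂ν := by
      intro t
      rw [lintegral_const_mul]
      exact mE.comp ((measurable_const (a := (u, t))).prodMk measurable_id)
    simp only [h2]
    rw [← lintegral_const_mul]
    · simp only [mul_assoc]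
    · exact hB.mul (mF.comp ((measurable_const (a := u)).prodMk measurable_id))
  simp only [h1]
  have mG : Measurable fun q : α × ℝ => A s * B q.2 * ∫⁻ v, Φ q.1 s v q.2 ∂ν :=
    (measurable_const.mul (hB.comp measurable_snd)).mul mF
  rw [lintegral_lintegral_swap mG.aemeasurable]
  apply lintegral_congr
  intro t
  rw [lintegral_const_mul]
  exact mF.comp (measurable_id.prodMk measurable_const)

theorem bipolar (k m : ℕ) (hk : 1 ≤ k) (hm : 1 ≤ m) (f : E (k + m) → ℝ≥0∞) (hf : Measurable f) :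
    ∫⁻ z, f z ∂(sg (k + m)) = ∫⁻ θ in Q, ENNReal.ofReal ((Real.cos θ) ^ (k - 1) *
      (Real.sin θ) ^ (m - 1)) * ∫⁻ u, ∫⁻ v, f (J (Real.cos θ • u) (Real.sin θ • v))
        ∂(sg m) ∂(sg k) := by
  haveI := sg_finite k
  haveI := sg_finite m
  haveI := sg_finite (k + m)
  set G : E (k + m) → ℝ≥0∞ := fun x => (Iio (1 : ℝ)).indicator 1 ‖x‖ * f (‖x‖⁻¹ • x) with hG
  have hind : Measurable ((Iio (1 : ℝ)).indicator (1 : ℝ → ℝ≥0∞)) :=
    measurable_one.indicator measurableSet_Iio
  have hGm : Measurable G :=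
    (hind.comp measurable_norm).mul (hf.comp (measurable_norm.inv.smul measurable_id))
  -- first computation
  have hA : ∫⁻ x, G x = cw (k + m) * ∫⁻ z, f z ∂(sg (k + m)) := by
    rw [polar (by omega) G hGm, ← lintegral_const_mul _ hf]
    apply lintegral_congr_ae
    filter_upwards [sg_ae (k + m)] with w hw
    rw [cw, ← lintegral_mul_const _ (cw_meas (k + m))]
    apply setLIntegral_congr_fun measurableSet_Ioi
    intro r hr
    have hr0 : (0 : ℝ) < r := hr
    simp only [hG]
    rw [norm_smul, hw, mul_one, Real.norm_eq_abs, abs_of_pos hr0, smul_smul,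
      inv_mul_cancel₀ hr0.ne', one_smul, mul_assoc]
  -- second computation
  have hJc : Measurable fun p : E k × E m => J p.1 p.2 := (J_mp k m).measurable
  have hΦ : Measurable fun q : (E k × ℝ) × (E m × ℝ) => G (J (q.1.2 • q.1.1) (q.2.2 • q.2.1)) :=
    hGm.comp (hJc.comp (((measurable_snd.comp measurable_fst).smul
      (measurable_fst.comp measurable_fst)).prodMk ((measurable_snd.comp measurable_snd).smul
      (measurable_fst.comp measurable_snd))))
  have hB : ∫⁻ x, G x = ∫⁻ s in Ioi (0 : ℝ), ∫⁻ t in Ioi (0 : ℝ),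
      ENNReal.ofReal (s ^ (k - 1)) * ENNReal.ofReal (t ^ (m - 1)) *
        ∫⁻ u, ∫⁻ v, G (J (s • u) (t • v)) ∂(sg m) ∂(sg k) := by
    have s0 : Measurable fun p : E k × E m => G (J p.1 p.2) := hGm.comp hJc
    rw [← (J_mp k m).lintegral_comp hGm, lintegral_prod _ s0.aemeasurable]
    have s1 : Measurable fun x : E k => ∫⁻ y : E m, G (J x y) :=
      Measurable.lintegral_prod_right' (hGm.comp hJc)
    simp only
    rw [polar (by omega) _ s1]
    have s2 : ∀ x : E k, ∫⁻ y : E m, G (J x y) =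
        ∫⁻ v, (∫⁻ t in Ioi (0 : ℝ), ENNReal.ofReal (t ^ (m - 1)) * G (J x (t • v))) ∂(sg m) := by
      intro x
      exact polar (by omega) _ (hGm.comp (hJc.comp measurable_prodMk_left))
    simp only [s2]
    exact swap4 (sg k) (sg m) (volume.restrict (Ioi 0)) (volume.restrict (Ioi 0))
      (fun u s v t => G (J (s • u) (t • v))) hΦ (fun s => ENNReal.ofReal (s ^ (k - 1)))
      (fun t => ENNReal.ofReal (t ^ (m - 1))) ((measurable_id.pow_const _).ennreal_ofReal)
      ((measurable_id.pow_const _).ennreal_ofReal)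
  have m4 : Measurable fun p : ℝ × ℝ =>
      ∫⁻ u, ∫⁻ v, G (J (p.1 • u) (p.2 • v)) ∂(sg m) ∂(sg k) := by
    apply Measurable.lintegral_prod_right'
      (f := fun q : (ℝ × ℝ) × E k => ∫⁻ v, G (J (q.1.1 • q.2) (q.1.2 • v)) ∂(sg m))
    apply Measurable.lintegral_prod_right'
      (f := fun q : ((ℝ × ℝ) × E k) × E m => G (J (q.1.1.1 • q.1.2) (q.1.1.2 • q.2)))
    have n1 : Measurable fun q : ((ℝ × ℝ) × E k) × E m => q.1.1.1 • q.1.2 :=
      (measurable_fst.comp (measurable_fst.comp measurable_fst)).smul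
        (measurable_snd.comp measurable_fst)
    have n2 : Measurable fun q : ((ℝ × ℝ) × E k) × E m => q.1.1.2 • q.2 :=
      (measurable_snd.comp (measurable_fst.comp measurable_fst)).smul measurable_snd
    exact hGm.comp (hJc.comp (n1.prodMk n2))
  have m5 : Measurable fun θ : ℝ => ENNReal.ofReal ((Real.cos θ) ^ (k - 1) *
      (Real.sin θ) ^ (m - 1)) * ∫⁻ u, ∫⁻ v, f (J (Real.cos θ • u) (Real.sin θ • v))
        ∂(sg m) ∂(sg k) := by
    apply Measurable.mul
    · exact Measurable.ennreal_ofReal (by fun_prop)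
    · apply Measurable.lintegral_prod_right'
        (f := fun q : ℝ × E k => ∫⁻ v, f (J (Real.cos q.1 • q.2) (Real.sin q.1 • v)) ∂(sg m))
      apply Measurable.lintegral_prod_right'
        (f := fun q : (ℝ × E k) × E m => f (J (Real.cos q.1.1 • q.1.2) (Real.sin q.1.1 • q.2)))
      exact hf.comp (hJc.comp (((Real.measurable_cos.comp
        (measurable_fst.comp measurable_fst)).smul (measurable_snd.comp measurable_fst)).prodMk
        ((Real.measurable_sin.comp (measurable_fst.comp measurable_fst)).smul measurable_snd)))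
  have hC : ∫⁻ x, G x = cw (k + m) * ∫⁻ θ in Q, ENNReal.ofReal ((Real.cos θ) ^ (k - 1) *
      (Real.sin θ) ^ (m - 1)) * ∫⁻ u, ∫⁻ v, f (J (Real.cos θ • u) (Real.sin θ • v))
        ∂(sg m) ∂(sg k) := by
    rw [hB, quad (fun p => ENNReal.ofReal (p.1 ^ (k - 1)) * ENNReal.ofReal (p.2 ^ (m - 1)) *
        ∫⁻ u, ∫⁻ v, G (J (p.1 • u) (p.2 • v)) ∂(sg m) ∂(sg k))
      ((((measurable_fst.pow_const _).ennreal_ofReal).mul
        ((measurable_snd.pow_const _).ennreal_ofReal)).mul m4)]
    rw [cw, ← lintegral_mul_const _ (cw_meas (k + m))]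
    apply setLIntegral_congr_fun measurableSet_Ioi
    intro r hr
    have hr0 : (0 : ℝ) < r := hr
    simp only
    rw [← lintegral_const_mul _ m5]
    apply setLIntegral_congr_fun (by unfold Q; exact measurableSet_Ioo)
    intro θ hθ
    simp only
    have hc : 0 < Real.cos θ :=
      Real.cos_pos_of_mem_Ioo ⟨by linarith [hθ.1, Real.pi_pos], hθ.2⟩
    have hs : 0 < Real.sin θ :=
      Real.sin_pos_of_pos_of_lt_pi hθ.1 (by linarith [hθ.2, Real.pi_pos])
    have hH : ∫⁻ u, ∫⁻ v, G (J ((r * Real.cos θ) • u) ((r * Real.sin θ) • v)) ∂(sg m) ∂(sg k) =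
        (Iio (1 : ℝ)).indicator 1 r *
          ∫⁻ u, ∫⁻ v, f (J (Real.cos θ • u) (Real.sin θ • v)) ∂(sg m) ∂(sg k) := by
      have m6 : Measurable fun q : E k × E m => f (J (Real.cos θ • q.1) (Real.sin θ • q.2)) :=
        hf.comp (hJc.comp ((measurable_fst.const_smul (Real.cos θ)).prodMk
          (measurable_snd.const_smul (Real.sin θ))))
      have m7 : ∀ u : E k, Measurable fun v : E m => f (J (Real.cos θ • u) (Real.sin θ • v)) :=
        fun u => m6.comp (measurable_prodMk_left (x := u))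
      rw [← lintegral_const_mul _ (Measurable.lintegral_prod_right' m6)]
      apply lintegral_congr_ae
      filter_upwards [sg_ae k] with u hu
      rw [← lintegral_const_mul _ (m7 u)]
      apply lintegral_congr_ae
      filter_upwards [sg_ae m] with v hv
      simp only [hG]
      rw [mul_smul, mul_smul, J_smul]
      have hn : ‖J (Real.cos θ • u) (Real.sin θ • v)‖ = 1 := by
        have h2 := J_norm_sq (Real.cos θ • u) (Real.sin θ • v)
        rw [norm_smul, norm_smul, hu, hv, mul_one, mul_one, Real.norm_eq_abs, Real.norm_eq_abs,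
          sq_abs, sq_abs, Real.cos_sq_add_sin_sq] at h2
        have h3 := norm_nonneg (J (Real.cos θ • u) (Real.sin θ • v))
        nlinarith
      rw [norm_smul, hn, mul_one, Real.norm_eq_abs, abs_of_pos hr0, smul_smul,
        inv_mul_cancel₀ hr0.ne', one_smul]
    have hcw := cw_eq (k + m) k m hk hm rfl θ hc.le hs.le r hr0
    rw [hH]
    calc _ = (ENNReal.ofReal r * (ENNReal.ofReal ((r * Real.cos θ) ^ (k - 1)) *
          ENNReal.ofReal ((r * Real.sin θ) ^ (m - 1)))) * ((Iio (1 : ℝ)).indicator 1 r *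
          ∫⁻ u, ∫⁻ v, f (J (Real.cos θ • u) (Real.sin θ • v)) ∂(sg m) ∂(sg k)) := by ring
      _ = _ := by rw [hcw]; ring
  have := hA.symm.trans hC
  exact (ENNReal.mul_right_inj (cw_ne_zero _) (cw_ne_top _)).1 this

end Pool.Agent.H438R2.BR
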