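import Pool.Agent.H438R2.BR.Defs
import Pool.Agent.H438R2.BR.T9
import Pool.Agent.H438R2.BR.T10
import Pool.Agent.H789R2.FR.Sph
set_option autoImplicit false

/-! T11: reduction to the planar profile -/

namespace Pool.Agent.H438R2.BR

open MeasureTheory Set Complex
open scoped ENNReal RealInnerProductSpace
open Pool.Agent.H789R2.FR (E sg)


namespace T11

instance sg_fin (n : ℕ) : IsFiniteMeasure (sg n) := by
  unfold sg
  infer_instance

/-- the weight -/
noncomputable def wt (k m : ℕ) (θ : ℝ) : ℝ≥0∞ :=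
  ENNReal.ofReal ((Real.cos θ) ^ (k - 1) * (Real.sin θ) ^ (m - 1))

theorem wt_meas (k m : ℕ) : Measurable (wt k m) := by
  unfold wt
  exact ((Real.measurable_cos.pow_const _).mul (Real.measurable_sin.pow_const _)).ennreal_ofReal

theorem wt_le (k m : ℕ) (θ : ℝ) : wt k m θ ≤ 1 := by
  unfold wt
  rw [ENNReal.ofReal_le_one]
  refine (le_abs_self _).trans ?_
  rw [abs_mul, abs_pow, abs_pow]
  exact mul_le_one₀ (pow_le_one₀ (abs_nonneg _) (Real.abs_cos_le_one θ))
    (pow_nonneg (abs_nonneg _) _) (pow_le_one₀ (abs_nonneg _) (Real.abs_sin_le_one θ))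

/-- the measure of the angle -/
noncomputable def nu (k m : ℕ) : Measure ℝ := (volume.restrict Q).withDensity (wt k m)

instance nu_fin (k m : ℕ) : IsFiniteMeasure (nu k m) := by
  refine ⟨?_⟩
  unfold nu
  rw [withDensity_apply _ MeasurableSet.univ, Measure.restrict_univ]
  calc ∫⁻ θ in Q, wt k m θ ≤ ∫⁻ _ in Q, 1 := lintegral_mono fun θ => wt_le k m θ
    _ = volume Q := by rw [setLIntegral_one]
    _ < ⊤ := by unfold Q; rw [Real.volume_Ioo]; exact ENNReal.ofReal_lt_top

/-- the parametrisation -/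
noncomputable def par (k m : ℕ) (p : ℝ × (E k × E m)) : E (k + m) :=
  J (Real.cos p.1 • p.2.1) (Real.sin p.1 • p.2.2)

theorem par_meas (k m : ℕ) : Measurable (par k m) := by
  have h1 := (J_mp k m).measurable
  have h2 : Measurable (fun p : ℝ × (E k × E m) =>
      ((Real.cos p.1 • p.2.1, Real.sin p.1 • p.2.2) : E k × E m)) := by
    apply Measurable.prodMk
    · exact (Real.measurable_cos.comp measurable_fst).smul
        (measurable_fst.comp measurable_snd)
    · exact (Real.measurable_sin.comp measurable_fst).smul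
        (measurable_snd.comp measurable_snd)
  exact h1.comp h2

theorem sg_eq (k m : ℕ) (hk : 1 ≤ k) (hm : 1 ≤ m) :
    sg (k + m) = ((nu k m).prod ((sg k).prod (sg m))).map (par k m) := by
  ext S hS
  rw [Measure.map_apply (par_meas k m) hS, ← lintegral_indicator_one hS,
    bipolar k m hk hm _ (measurable_one.indicator hS),
    ← lintegral_indicator_one (par_meas k m hS),
    lintegral_prod _ ((measurable_one.indicator (par_meas k m hS)).aemeasurable)]
  have hmeas : Measurable fun θ : ℝ => ∫⁻ y : E k × E m,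
      (par k m ⁻¹' S).indicator (1 : ℝ × (E k × E m) → ℝ≥0∞) (θ, y) ∂((sg k).prod (sg m)) :=
    (measurable_one.indicator (par_meas k m hS)).lintegral_prod_right'
  unfold nu
  rw [lintegral_withDensity_eq_lintegral_mul _ (wt_meas k m) hmeas]
  refine lintegral_congr fun θ => ?_
  rw [Pi.mul_apply]
  unfold wt
  congr 1
  rw [lintegral_prod]
  · rfl
  · exact ((measurable_one.indicator (par_meas k m hS)).comp measurable_prodMk_left).aemeasurable

theorem bn_meas (k m : ℕ) : Measurable (bn k m) := by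
  unfold bn
  refine Real.continuous_sqrt.measurable.comp ?_
  refine Finset.measurable_fun_sum _ fun i _ => ?_
  have : Continuous fun z : E (k + m) => z (Fin.castAdd m i) := by fun_prop
  exact this.measurable.pow_const 2

end T11

open T11 in
/-- T11: reduction to the planar profile -/
theorem reduction (k m : ℕ) (hk : 2 ≤ k) (hm : 2 ≤ m) (γ : ℝ → ℂ) (hγ : Measurable γ)
    (M : ℝ) (hM : ∀ s, ‖γ s‖ ≤ M) (x : E k) (y : E m) :
    ∫ z, Complex.exp (-((⟪J x y, z⟫ : ℝ) : ℂ) * I) * γ (bn k m z) ∂(sg (k + m)) =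
      ((sg (k - 1)).real univ : ℂ) * ((sg (m - 1)).real univ : ℂ) *
        F k m (fun θ => γ (Real.cos θ)) ‖x‖ ‖y‖ := by
  set f : E (k + m) → ℂ := fun z => Complex.exp (-((⟪J x y, z⟫ : ℝ) : ℂ) * I) * γ (bn k m z)
    with hf
  have hfm : Measurable f := by
    apply Measurable.mul
    · have h1 : Continuous fun z : E (k + m) =>
          Complex.exp (-((⟪J x y, z⟫ : ℝ) : ℂ) * I) := by fun_prop
      exact h1.measurable
    · exact hγ.comp (bn_meas k m)
  have hfb : ∀ z, ‖f z‖ ≤ M := by
    intro z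
    simp only [hf]
    rw [norm_mul]
    have h1 : ‖Complex.exp (-((⟪J x y, z⟫ : ℝ) : ℂ) * I)‖ = 1 := by
      have h2 : -((⟪J x y, z⟫ : ℝ) : ℂ) * I = ((-⟪J x y, z⟫ : ℝ) : ℂ) * I := by push_cast; ring
      rw [h2]
      exact Complex.norm_exp_ofReal_mul_I _
    rw [h1, one_mul]
    exact hM _
  rw [sg_eq k m (by omega) (by omega),
    integral_map (par_meas k m).aemeasurable hfm.aestronglyMeasurable]
  have hint : Integrable (fun p => f (par k m p)) ((nu k m).prod ((sg k).prod (sg m))) := by
    refine Integrable.mono' (integrable_const M) (hfm.comp (par_meas k m)).aestronglyMeasurable ?_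
    exact Filter.Eventually.of_forall fun p => hfb _
  rw [integral_prod _ hint]
  unfold nu
  rw [integral_withDensity_eq_integral_toReal_smul (wt_meas k m)
    (Filter.Eventually.of_forall fun θ => (wt_le k m θ).trans_lt ENNReal.one_lt_top)]
  unfold F
  rw [← integral_const_mul]
  refine setIntegral_congr_fun (by unfold Q; exact measurableSet_Ioo) ?_
  intro θ hθ
  have hcos : 0 < Real.cos θ := by
    unfold Q at hθ
    exact Real.cos_pos_of_mem_Ioo ⟨by linarith [hθ.1, Real.pi_pos], hθ.2⟩
  have hsin : 0 < Real.sin θ := by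
    unfold Q at hθ
    exact Real.sin_pos_of_pos_of_lt_pi hθ.1 (by linarith [hθ.2, Real.pi_pos])
  have hw : (wt k m θ).toReal = (Real.cos θ) ^ (k - 1) * (Real.sin θ) ^ (m - 1) := by
    unfold wt
    rw [ENNReal.toReal_ofReal (by positivity)]
  -- the inner integral
  have inner : ∫ p : E k × E m, f (par k m (θ, p)) ∂((sg k).prod (sg m)) =
      γ (Real.cos θ) * ((((sg (k - 1)).real univ : ℂ) * Phi k (‖x‖ * Real.cos θ)) *
        (((sg (m - 1)).real univ : ℂ) * Phi m (‖y‖ * Real.sin θ))) := by
    have h1 : ∀ᵐ p : E k × E m ∂((sg k).prod (sg m)), f (par k m (θ, p)) =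
        γ (Real.cos θ) * (Complex.exp (-((⟪Real.cos θ • x, p.1⟫ : ℝ) : ℂ) * I) *
          Complex.exp (-((⟪Real.sin θ • y, p.2⟫ : ℝ) : ℂ) * I)) := by
      have h2 : ∀ᵐ p : E k × E m ∂((sg k).prod (sg m)), ‖p.1‖ = 1 :=
        Measure.quasiMeasurePreserving_fst.ae (Pool.Agent.H789R2.FR.sg_ae k)
      filter_upwards [h2] with p hp
      simp only [hf, par]
      rw [bn_J, norm_smul, hp, mul_one, Real.norm_eq_abs, abs_of_pos hcos, J_inner,
        ← Complex.exp_add, mul_comm]
      congr 2
      rw [inner_smul_right, inner_smul_right, real_inner_smul_left, real_inner_smul_left]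
      push_cast
      ring
    rw [integral_congr_ae h1, integral_const_mul]
    congr 1
    rw [integral_prod_mul (fun u : E k => Complex.exp (-((⟪Real.cos θ • x, u⟫ : ℝ) : ℂ) * I))
      (fun v : E m => Complex.exp (-((⟪Real.sin θ • y, v⟫ : ℝ) : ℂ) * I)),
      sphere_ft k hk, sphere_ft m hm, norm_smul, norm_smul, Real.norm_eq_abs, Real.norm_eq_abs,
      abs_of_pos hcos, abs_of_pos hsin, mul_comm (Real.cos θ), mul_comm (Real.sin θ)]
  simp only
  rw [inner, hw, Complex.real_smul]
  ring

end Pool.Agent.H438R2.BR
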