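import Mathlib
import Pool.Agent.H438R2.BR.Defs
import Pool.Agent.H789R2.FR.Sph
set_option autoImplicit false

/-! # T12: the integral over the whole space -/

namespace Pool.Agent.H438R2.BR

open MeasureTheory Set Complex
open scoped ENNReal RealInnerProductSpace
open Pool.Agent.H789R2.FR (E sg)

theorem T12_measurable_Phi (k : ℕ) : Measurable (Phi k) := by
  have h : Measurable fun p : ℝ × ℝ => Complex.exp (((p.1 * p.2 : ℝ) : ℂ) * I) *
      (((1 - p.2 ^ 2) ^ (((k : ℝ) - 3) / 2) : ℝ) : ℂ) := by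
    refine Measurable.mul ?_ ?_
    · exact (Complex.measurable_exp.comp
        ((Complex.measurable_ofReal.comp (measurable_fst.mul measurable_snd)).mul_const I))
    · exact Complex.measurable_ofReal.comp
        (((measurable_const.sub (measurable_snd.pow_const 2)).pow_const _))
  have h2 := h.stronglyMeasurable.integral_prod_right'
    (ν := (volume : Measure ℝ).restrict (Ioo (-1 : ℝ) 1))
  exact h2.measurable

theorem T12_measurable_F (k m : ℕ) (G : ℝ → ℂ) (hG : Measurable G) :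
    Measurable fun q : ℝ × ℝ => F k m G q.1 q.2 := by
  have hk := T12_measurable_Phi k
  have hm := T12_measurable_Phi m
  have h : Measurable fun p : (ℝ × ℝ) × ℝ =>
      G p.2 * (((Real.cos p.2) ^ (k - 1) * (Real.sin p.2) ^ (m - 1) : ℝ) : ℂ) *
        (Phi k (p.1.1 * Real.cos p.2) * Phi m (p.1.2 * Real.sin p.2)) := by
    refine Measurable.mul (Measurable.mul (hG.comp measurable_snd) ?_) (Measurable.mul ?_ ?_)
    · refine Complex.measurable_ofReal.comp (Measurable.mul ?_ ?_)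
      · exact (Real.measurable_cos.comp measurable_snd).pow_const _
      · exact (Real.measurable_sin.comp measurable_snd).pow_const _
    · exact hk.comp ((measurable_fst.comp measurable_fst).mul
        (Real.measurable_cos.comp measurable_snd))
    · exact hm.comp ((measurable_snd.comp measurable_fst).mul
        (Real.measurable_sin.comp measurable_snd))
  have h2 := h.stronglyMeasurable.integral_prod_right'
    (ν := (volume : Measure ℝ).restrict Q)
  exact h2.measurable

/-- integral of a radial function -/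
theorem T12_radial {n : ℕ} (hn : 0 < n) (h : ℝ → ℝ≥0∞) (hh : Measurable h) :
    ∫⁻ x : E n, h ‖x‖ = sg n univ * ∫⁻ r in Ioi (0 : ℝ), ENNReal.ofReal (r ^ (n - 1)) * h r := by
  rw [Pool.Agent.H789R2.FR.polar hn (fun x => h ‖x‖) (hh.comp measurable_norm)]
  have h1 : ∫⁻ w, (∫⁻ r in Ioi (0 : ℝ), ENNReal.ofReal (r ^ (n - 1)) * h ‖r • w‖) ∂(sg n) =
      ∫⁻ _w, (∫⁻ r in Ioi (0 : ℝ), ENNReal.ofReal (r ^ (n - 1)) * h r) ∂(sg n) := by
    refine lintegral_congr_ae ?_
    filter_upwards [Pool.Agent.H789R2.FR.sg_ae n] with w hw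
    refine setLIntegral_congr_fun measurableSet_Ioi ?_
    intro r hr
    have hr0 : 0 < r := hr
    simp only [norm_smul, hw, mul_one, Real.norm_eq_abs, abs_of_pos hr0]
  rw [h1, lintegral_const, mul_comm]

theorem space_int (k m : ℕ) (hk : 2 ≤ k) (hm : 2 ≤ m) (p : ℝ) (hp : 0 < p) (G : ℝ → ℂ)
    (hG : Measurable G) (M : ℝ) (hM : ∀ s, ‖G s‖ ≤ M) :
    ∫⁻ p' : E k × E m, ENNReal.ofReal (‖F k m G ‖p'.1‖ ‖p'.2‖‖ ^ p)
      ∂((volume : Measure (E k)).prod (volume : Measure (E m))) =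
    sg k univ * sg m univ * ∫⁻ r in Ioi (0 : ℝ), ∫⁻ t in Ioi (0 : ℝ),
      ENNReal.ofReal (‖F k m G r t‖ ^ p * (r ^ (k - 1) * t ^ (m - 1))) := by
  have hF := T12_measurable_F k m G hG
  set H : ℝ × ℝ → ℝ≥0∞ := fun q => ENNReal.ofReal (‖F k m G q.1 q.2‖ ^ p) with hH
  have hHm : Measurable H := by
    rw [hH]
    exact ((hF.norm.pow_const p).ennreal_ofReal)
  have hin : Measurable fun z : ℝ × ℝ => ENNReal.ofReal (z.2 ^ (m - 1)) * H z :=
    ((measurable_snd.pow_const _).ennreal_ofReal).mul hHm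
  have h1 : Measurable fun r : ℝ => ∫⁻ t in Ioi (0 : ℝ), ENNReal.ofReal (t ^ (m - 1)) * H (r, t) :=
    Measurable.lintegral_prod_right hin
  have hL : ∫⁻ p' : E k × E m, ENNReal.ofReal (‖F k m G ‖p'.1‖ ‖p'.2‖‖ ^ p)
      ∂((volume : Measure (E k)).prod (volume : Measure (E m))) =
      ∫⁻ x : E k, ∫⁻ y : E m, H (‖x‖, ‖y‖) := by
    have hn1 : Measurable fun q : E k × E m => ‖q.1‖ := measurable_fst.norm
    have hn2 : Measurable fun q : E k × E m => ‖q.2‖ := measurable_snd.norm
    have hn3 : Measurable fun q : E k × E m => H (‖q.1‖, ‖q.2‖) := hHm.comp (hn1.prodMk hn2)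
    exact lintegral_prod (μ := (volume : Measure (E k))) (ν := (volume : Measure (E m)))
      (fun q : E k × E m => H (‖q.1‖, ‖q.2‖)) hn3.aemeasurable
  rw [hL]
  have h2 : ∀ x : E k, ∫⁻ y : E m, H (‖x‖, ‖y‖) =
      sg m univ * ∫⁻ t in Ioi (0 : ℝ), ENNReal.ofReal (t ^ (m - 1)) * H (‖x‖, t) := by
    intro x
    exact T12_radial (by omega) (fun t => H (‖x‖, t)) (hHm.comp measurable_prodMk_left)
  simp_rw [h2]
  have h1n : Measurable fun x : E k =>
      ∫⁻ t in Ioi (0 : ℝ), ENNReal.ofReal (t ^ (m - 1)) * H (‖x‖, t) :=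
    h1.comp (measurable_norm (α := E k))
  rw [lintegral_const_mul _ h1n,
    T12_radial (by omega : 0 < k)
      (fun r => ∫⁻ t in Ioi (0 : ℝ), ENNReal.ofReal (t ^ (m - 1)) * H (r, t)) h1,
    ← mul_assoc, mul_comm (sg m univ) (sg k univ)]
  congr 1
  refine setLIntegral_congr_fun measurableSet_Ioi ?_
  intro r hr
  have hr0 : 0 ≤ r := le_of_lt hr
  have hin2 : Measurable fun t : ℝ => ENNReal.ofReal (t ^ (m - 1)) * H (r, t) :=
    hin.comp measurable_prodMk_left
  change ENNReal.ofReal (r ^ (k - 1)) * ∫⁻ (t : ℝ) in Ioi 0,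
    ENNReal.ofReal (t ^ (m - 1)) * H (r, t) = _
  rw [← lintegral_const_mul _ hin2]
  refine setLIntegral_congr_fun measurableSet_Ioi ?_
  intro t ht
  have ht0 : 0 ≤ t := le_of_lt ht
  simp only [hH]
  rw [← ENNReal.ofReal_mul (by positivity), ← ENNReal.ofReal_mul (by positivity)]
  congr 1
  ring

end Pool.Agent.H438R2.BR
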