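import Mathlib
import Pool.Agent.H438R2.BR.Defs
set_option autoImplicit false

/-! Measurability and trivial bounds of `Phi` and `F`. -/

namespace Pool.Agent.H438R2.BR

open MeasureTheory Set Complex

theorem Phi_meas (k : ℕ) : Measurable (Phi k) := by
  unfold Phi
  apply StronglyMeasurable.measurable
  apply StronglyMeasurable.integral_prod_right (f := fun (u s : ℝ) =>
    Complex.exp (((u * s : ℝ) : ℂ) * I) * (((1 - s ^ 2) ^ (((k : ℝ) - 3) / 2) : ℝ) : ℂ))
  apply Measurable.stronglyMeasurable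
  change Measurable fun p : ℝ × ℝ => Complex.exp (((p.1 * p.2 : ℝ) : ℂ) * I) *
    (((1 - p.2 ^ 2) ^ (((k : ℝ) - 3) / 2) : ℝ) : ℂ)
  have h1 : Measurable fun p : ℝ × ℝ => Complex.exp (((p.1 * p.2 : ℝ) : ℂ) * I) := by fun_prop
  have h2 : Measurable fun p : ℝ × ℝ => (1 - p.2 ^ 2) ^ (((k : ℝ) - 3) / 2) :=
    Measurable.pow_const (by fun_prop) _
  exact h1.mul (Complex.measurable_ofReal.comp h2)

theorem F_meas (k m : ℕ) (G : ℝ → ℂ) (hG : Measurable G) :
    Measurable fun p : ℝ × ℝ => F k m G p.1 p.2 := by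
  unfold F
  apply StronglyMeasurable.measurable
  apply StronglyMeasurable.integral_prod_right (f := fun (p : ℝ × ℝ) (θ : ℝ) =>
    G θ * (((Real.cos θ) ^ (k - 1) * (Real.sin θ) ^ (m - 1) : ℝ) : ℂ) *
    (Phi k (p.1 * Real.cos θ) * Phi m (p.2 * Real.sin θ)))
  apply Measurable.stronglyMeasurable
  change Measurable fun p : (ℝ × ℝ) × ℝ =>
    G p.2 * (((Real.cos p.2) ^ (k - 1) * (Real.sin p.2) ^ (m - 1) : ℝ) : ℂ) *
    (Phi k (p.1.1 * Real.cos p.2) * Phi m (p.1.2 * Real.sin p.2))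
  have h1 : Measurable fun p : (ℝ × ℝ) × ℝ => G p.2 := hG.comp measurable_snd
  have h2 : Measurable fun p : (ℝ × ℝ) × ℝ =>
      (((Real.cos p.2) ^ (k - 1) * (Real.sin p.2) ^ (m - 1) : ℝ) : ℂ) := by fun_prop
  have h3 : Measurable fun p : (ℝ × ℝ) × ℝ => Phi k (p.1.1 * Real.cos p.2) :=
    (Phi_meas k).comp (by fun_prop)
  have h4 : Measurable fun p : (ℝ × ℝ) × ℝ => Phi m (p.1.2 * Real.sin p.2) :=
    (Phi_meas m).comp (by fun_prop)
  exact (h1.mul h2).mul (h3.mul h4)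

/-- `(1-s^2)^((k-3)/2) ≤ (1-s^2)^(-1/2)` on `(-1,1)` -/
theorem weight_le (k : ℕ) (hk : 2 ≤ k) (s : ℝ) (hs : s ∈ Ioo (-1 : ℝ) 1) :
    (1 - s ^ 2) ^ (((k : ℝ) - 3) / 2) ≤ (1 - s ^ 2) ^ (-(1 / 2) : ℝ) := by
  have h1 : 0 < 1 - s ^ 2 := by nlinarith [hs.1, hs.2]
  have h2 : 1 - s ^ 2 ≤ 1 := by nlinarith [sq_nonneg s]
  apply Real.rpow_le_rpow_of_exponent_ge h1 h2
  have : (2 : ℝ) ≤ k := by exact_mod_cast hk
  linarith

/-- the integral of `(1-s^2)^(-1/2)` via arcsin -/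
theorem arcsin_int : IntegrableOn (fun s : ℝ => (1 - s ^ 2) ^ (-(1 / 2) : ℝ)) (Ioo (-1 : ℝ) 1) ∧
    ∫ s in Ioo (-1 : ℝ) 1, (1 - s ^ 2) ^ (-(1 / 2) : ℝ) = Real.pi := by
  have himg : Real.sin '' (Ioo (-(Real.pi / 2)) (Real.pi / 2)) = Ioo (-1 : ℝ) 1 := by
    ext s
    constructor
    · rintro ⟨x, hx, rfl⟩
      constructor
      · have := Real.sin_lt_sin_of_lt_of_le_pi_div_two (le_refl (-(Real.pi / 2))) hx.2.le hx.1
        rwa [Real.sin_neg, Real.sin_pi_div_two] at this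
      · rw [← Real.sin_pi_div_two]
        exact Real.sin_lt_sin_of_lt_of_le_pi_div_two hx.1.le le_rfl hx.2
    · intro hs
      exact ⟨Real.arcsin s, ⟨Real.neg_pi_div_two_lt_arcsin.2 hs.1,
        Real.arcsin_lt_pi_div_two.2 hs.2⟩, Real.sin_arcsin hs.1.le hs.2.le⟩
  have hinj : InjOn Real.sin (Ioo (-(Real.pi / 2)) (Real.pi / 2)) :=
    Real.injOn_sin.mono Ioo_subset_Icc_self
  have hder : ∀ x ∈ Ioo (-(Real.pi / 2)) (Real.pi / 2),
      HasDerivWithinAt Real.sin (Real.cos x) (Ioo (-(Real.pi / 2)) (Real.pi / 2)) x :=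
    fun x _ => (Real.hasDerivAt_sin x).hasDerivWithinAt
  have hone : ∀ x ∈ Ioo (-(Real.pi / 2)) (Real.pi / 2),
      |Real.cos x| • (1 - (Real.sin x) ^ 2) ^ (-(1 / 2) : ℝ) = 1 := by
    intro x hx
    have hc : 0 < Real.cos x := Real.cos_pos_of_mem_Ioo hx
    have h1 : 1 - Real.sin x ^ 2 = Real.cos x ^ 2 := by
      have := Real.sin_sq_add_cos_sq x; linarith
    rw [h1, abs_of_pos hc, ← Real.rpow_natCast (Real.cos x) 2, ← Real.rpow_mul hc.le]
    norm_num
    rw [Real.rpow_neg_one]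
    exact mul_inv_cancel₀ hc.ne'
  constructor
  · rw [← himg, integrableOn_image_iff_integrableOn_abs_deriv_smul measurableSet_Ioo hder hinj]
    rw [integrableOn_congr_fun hone measurableSet_Ioo]
    exact integrableOn_const (by simp) (by simp)
  · rw [← himg, integral_image_eq_integral_abs_deriv_smul measurableSet_Ioo hder hinj]
    rw [setIntegral_congr_fun measurableSet_Ioo hone]
    simp only [integral_const, MeasurableSet.univ, measureReal_restrict_apply, univ_inter,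
      Real.volume_real_Ioo, smul_eq_mul, mul_one]
    rw [max_eq_left (by linarith [Real.pi_pos])]
    ring

theorem Phi_le (k : ℕ) (hk : 2 ≤ k) (u : ℝ) : ‖Phi k u‖ ≤ Real.pi := by
  unfold Phi
  refine (norm_integral_le_integral_norm _).trans ?_
  rw [← arcsin_int.2]
  apply integral_mono_of_nonneg
  · exact Filter.Eventually.of_forall fun _ => norm_nonneg _
  · exact arcsin_int.1
  · filter_upwards [ae_restrict_mem measurableSet_Ioo] with s hs
    have h1 : 0 < 1 - s ^ 2 := by nlinarith [hs.1, hs.2]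
    rw [norm_mul, Complex.norm_exp_ofReal_mul_I, one_mul, Complex.norm_real, Real.norm_eq_abs,
      abs_of_nonneg (Real.rpow_nonneg h1.le _)]
    exact weight_le k hk s hs

theorem F_le (k m : ℕ) (hk : 2 ≤ k) (hm : 2 ≤ m) (G : ℝ → ℂ) (M : ℝ) (hM : ∀ θ, ‖G θ‖ ≤ M)
    (r t : ℝ) : ‖F k m G r t‖ ≤ M * Real.pi ^ 3 := by
  have hM0 : 0 ≤ M := (norm_nonneg _).trans (hM 0)
  unfold F
  have h1 : ∀ θ ∈ Q, ‖G θ * (((Real.cos θ) ^ (k - 1) * (Real.sin θ) ^ (m - 1) : ℝ) : ℂ) *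
      (Phi k (r * Real.cos θ) * Phi m (t * Real.sin θ))‖ ≤ M * Real.pi ^ 2 := by
    intro θ hθ
    rw [norm_mul, norm_mul, norm_mul, Complex.norm_real, Real.norm_eq_abs, abs_mul, abs_pow, abs_pow]
    have a1 : |Real.cos θ| ^ (k - 1) ≤ 1 := pow_le_one₀ (abs_nonneg _) (Real.abs_cos_le_one θ)
    have a2 : |Real.sin θ| ^ (m - 1) ≤ 1 := pow_le_one₀ (abs_nonneg _) (Real.abs_sin_le_one θ)
    have a3 : |Real.cos θ| ^ (k - 1) * |Real.sin θ| ^ (m - 1) ≤ 1 :=
      mul_le_one₀ a1 (by positivity) a2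
    have a4 := Phi_le k hk (r * Real.cos θ)
    have a5 := Phi_le m hm (t * Real.sin θ)
    calc ‖G θ‖ * (|Real.cos θ| ^ (k - 1) * |Real.sin θ| ^ (m - 1)) *
          (‖Phi k (r * Real.cos θ)‖ * ‖Phi m (t * Real.sin θ)‖)
        ≤ M * 1 * (Real.pi * Real.pi) := by
          apply mul_le_mul
          · exact mul_le_mul (hM θ) a3 (by positivity) hM0
          · exact mul_le_mul a4 a5 (norm_nonneg _) Real.pi_pos.le
          · positivity
          · positivity
      _ = M * Real.pi ^ 2 := by ring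
  have h2 := norm_setIntegral_le_of_norm_le_const (μ := volume) (s := Q) (C := M * Real.pi ^ 2)
    (by unfold Q; simp) h1
  refine h2.trans ?_
  have h3 : (volume : Measure ℝ).real Q ≤ Real.pi := by
    unfold Q
    rw [Real.volume_real_Ioo, sub_zero, max_eq_left (by linarith [Real.pi_pos])]
    linarith [Real.pi_pos]
  calc M * Real.pi ^ 2 * (volume : Measure ℝ).real Q ≤ M * Real.pi ^ 2 * Real.pi := by
        apply mul_le_mul_of_nonneg_left h3; positivity
    _ = _ := by ring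

end Pool.Agent.H438R2.BR
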