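import Mathlib
import Pool.Agent.H438R2.BR.Defs
set_option autoImplicit false

/-! # The quadrilinear bound (helper412) -/

namespace Pool.Agent.H438R2.BR

open MeasureTheory Set
open scoped ENNReal

namespace T5

/-- the map `Ψ(x,y) = e^{ix} + e^{iy}` -/
noncomputable def psi (p : ℝ × ℝ) : ℝ × ℝ :=
  (Real.cos p.1 + Real.cos p.2, Real.sin p.1 + Real.sin p.2)

/-- its derivative -/
noncomputable def dpsi (p : ℝ × ℝ) : ℝ × ℝ →L[ℝ] ℝ × ℝ :=
  (Matrix.toLin (.finTwoProd ℝ) (.finTwoProd ℝ)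
    !![-Real.sin p.1, -Real.sin p.2; Real.cos p.1, Real.cos p.2]).toContinuousLinearMap

theorem hasFDerivAt_psi (p : ℝ × ℝ) : HasFDerivAt psi (dpsi p) p := by
  unfold dpsi
  rw [Matrix.toLin_finTwoProd_toContinuousLinearMap]
  convert!
    HasFDerivAt.prodMk (𝕜 := ℝ)
      (((Real.hasDerivAt_cos p.1).comp_hasFDerivAt p hasFDerivAt_fst).add
        ((Real.hasDerivAt_cos p.2).comp_hasFDerivAt p hasFDerivAt_snd))
      (((Real.hasDerivAt_sin p.1).comp_hasFDerivAt p hasFDerivAt_fst).add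
        ((Real.hasDerivAt_sin p.2).comp_hasFDerivAt p hasFDerivAt_snd)) using
    2

theorem det_dpsi (p : ℝ × ℝ) : (dpsi p).det = Real.sin (p.2 - p.1) * (-1) * (-1) := by
  unfold dpsi
  simp only [neg_mul, LinearMap.det_toContinuousLinearMap, LinearMap.det_toLin,
    Matrix.det_fin_two_of, sub_neg_eq_add]
  rw [Real.sin_sub]
  ring

/-- the weight -/
noncomputable def gg (A B : ℝ) (u : ℝ × ℝ) : ℝ≥0∞ :=
  ENNReal.ofReal (K A u.1 * K B u.2)

theorem K_nonneg {A : ℝ} (hA : 0 ≤ A) (x : ℝ) : 0 ≤ K A x := by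
  unfold K; positivity

theorem K_le {A : ℝ} (hA : 0 ≤ A) (x : ℝ) : K A x ≤ A := by
  unfold K
  apply div_le_self hA
  nlinarith [mul_nonneg (sq_nonneg A) (sq_nonneg x)]

theorem K_neg (A x : ℝ) : K A (-x) = K A x := by unfold K; ring_nf

theorem K_cont (A : ℝ) : Continuous (K A) := by
  unfold K
  refine continuous_const.div (by fun_prop) (fun x => ?_)
  positivity

theorem gg_meas (A B : ℝ) : Measurable (gg A B) := by
  unfold gg
  have h1 := K_cont A
  have h2 := K_cont B
  exact (Continuous.mul (h1.comp continuous_fst) (h2.comp continuous_snd)).measurable.ennreal_ofReal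

theorem psi_meas : Measurable psi := by
  unfold psi
  fun_prop

theorem lint_K {A : ℝ} (hA : 0 < A) : ∫⁻ x, ENNReal.ofReal (K A x) = ENNReal.ofReal Real.pi := by
  have h1 : ∀ x, K A x = A * (1 + (A * x) ^ 2)⁻¹ := by
    intro x; unfold K; rw [mul_pow]; rfl
  have hi : Integrable (fun x : ℝ => (1 + (A * x) ^ 2)⁻¹) := by
    have := integrable_inv_one_add_sq
    exact this.comp_mul_left' hA.ne'
  have h2 : ∫ x, K A x = Real.pi := by
    simp_rw [h1]
    rw [integral_const_mul]
    have := MeasureTheory.Measure.integral_comp_mul_left (fun x : ℝ => (1 + x ^ 2)⁻¹) A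
    rw [this, integral_univ_inv_one_add_sq, abs_of_pos (inv_pos.mpr hA)]
    simp only [smul_eq_mul]
    field_simp
  rw [← h2, ofReal_integral_eq_lintegral_ofReal]
  · have : K A = fun x => A * (1 + (A * x) ^ 2)⁻¹ := funext h1
    rw [this]
    exact hi.const_mul A
  · exact Filter.Eventually.of_forall (fun x => K_nonneg hA.le x)

theorem lint_gg {A B : ℝ} (hA : 0 < A) (hB : 0 < B) (u : ℝ × ℝ) :
    ∫⁻ p, gg A B (p - u) = ENNReal.ofReal (Real.pi ^ 2) := by
  rw [lintegral_sub_right_eq_self (gg A B) u]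
  have h0 : (volume : Measure (ℝ × ℝ)) = (volume : Measure ℝ).prod volume := rfl
  rw [h0]
  have h1 : ∀ p : ℝ × ℝ, gg A B p = ENNReal.ofReal (K A p.1) * ENNReal.ofReal (K B p.2) := by
    intro p; unfold gg
    rw [ENNReal.ofReal_mul (K_nonneg hA.le _)]
  simp_rw [h1]
  rw [lintegral_prod_mul (K_cont A).measurable.ennreal_ofReal.aemeasurable
    (K_cont B).measurable.ennreal_ofReal.aemeasurable, lint_K hA, lint_K hB,
    ← ENNReal.ofReal_mul Real.pi_pos.le, sq]

/-- change of variables on a set where `Ψ` is injective -/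
theorem cov {A B : ℝ} (hA : 0 < A) (hB : 0 < B) (u : ℝ × ℝ) (s : Set (ℝ × ℝ))
    (hs : MeasurableSet s) (hinj : InjOn psi s) (c : ℝ) (hc : 0 < c)
    (hdet : ∀ p ∈ s, c ≤ |Real.sin (p.2 - p.1)|) :
    ∫⁻ p in s, gg A B (psi p - u) ≤ ENNReal.ofReal (Real.pi ^ 2 / c) := by
  have h1 : ∫⁻ p in s, ENNReal.ofReal |(dpsi p).det| * gg A B (psi p - u) =
      ∫⁻ x in psi '' s, gg A B (x - u) :=
    (lintegral_image_eq_lintegral_abs_det_fderiv_mul volume hs
      (fun x _ => (hasFDerivAt_psi x).hasFDerivWithinAt) hinj (fun x => gg A B (x - u))).symm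
  have h2 : ∫⁻ p in s, ENNReal.ofReal c * gg A B (psi p - u) ≤ ENNReal.ofReal (Real.pi ^ 2) := by
    calc ∫⁻ p in s, ENNReal.ofReal c * gg A B (psi p - u)
        ≤ ∫⁻ p in s, ENNReal.ofReal |(dpsi p).det| * gg A B (psi p - u) := by
          refine setLIntegral_mono' hs (fun p hp => ?_)
          gcongr
          rw [det_dpsi]
          have := hdet p hp
          simpa using this
      _ = ∫⁻ x in psi '' s, gg A B (x - u) := h1
      _ ≤ ∫⁻ x, gg A B (x - u) := setLIntegral_le_lintegral _ _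
      _ = _ := lint_gg hA hB u
  have hmeas : Measurable (fun p => gg A B (psi p - u)) := (gg_meas A B).comp (psi_meas.sub_const u)
  rw [lintegral_const_mul _ hmeas] at h2
  rw [ENNReal.ofReal_div_of_pos hc, ENNReal.le_div_iff_mul_le]
  · rw [mul_comm]; exact h2
  · left; simpa using hc
  · left; exact ENNReal.ofReal_ne_top

/-- lower half -/
def Sd (δ : ℝ) : Set (ℝ × ℝ) := {p | p.1 ∈ Q ∧ p.2 ∈ Q ∧ δ ≤ p.2 - p.1}

theorem psi_swap (p : ℝ × ℝ) : psi p.swap = psi p := by
  unfold psi; simp only [Prod.fst_swap, Prod.snd_swap]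
  rw [add_comm, add_comm (Real.sin p.2)]

theorem psi_form (p : ℝ × ℝ) : psi p =
    (2 * Real.cos ((p.2 - p.1) / 2) * Real.cos ((p.1 + p.2) / 2),
      2 * Real.cos ((p.2 - p.1) / 2) * Real.sin ((p.1 + p.2) / 2)) := by
  have e : Real.cos ((p.1 - p.2) / 2) = Real.cos ((p.2 - p.1) / 2) := by
    rw [← Real.cos_neg]; congr 1; ring
  unfold psi
  rw [Real.cos_add_cos, Real.sin_add_sin, e]
  refine Prod.ext ?_ ?_ <;> simp only <;> ring

theorem inj_Sd (δ : ℝ) (hδ : 0 < δ) : InjOn psi (Sd δ) := by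
  rintro p ⟨⟨h1, h2⟩, ⟨h3, h4⟩, h5⟩ p' ⟨⟨h1', h2'⟩, ⟨h3', h4'⟩, h5'⟩ h
  rw [psi_form, psi_form, Prod.mk.injEq] at h
  obtain ⟨ha, hb⟩ := h
  have hpi := Real.pi_pos
  have c1 : 0 < Real.cos ((p.2 - p.1) / 2) :=
    Real.cos_pos_of_mem_Ioo ⟨by linarith, by linarith⟩
  have c2 : 0 < Real.cos ((p'.2 - p'.1) / 2) :=
    Real.cos_pos_of_mem_Ioo ⟨by linarith, by linarith⟩
  have e1 := Real.sin_sq_add_cos_sq ((p.1 + p.2) / 2)
  have e2 := Real.sin_sq_add_cos_sq ((p'.1 + p'.2) / 2)
  have hsq : (2 * Real.cos ((p.2 - p.1) / 2)) ^ 2 = (2 * Real.cos ((p'.2 - p'.1) / 2)) ^ 2 := by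
    calc (2 * Real.cos ((p.2 - p.1) / 2)) ^ 2
        = (2 * Real.cos ((p.2 - p.1) / 2) * Real.cos ((p.1 + p.2) / 2)) ^ 2 +
          (2 * Real.cos ((p.2 - p.1) / 2) * Real.sin ((p.1 + p.2) / 2)) ^ 2 := by
          linear_combination (-(2 * Real.cos ((p.2 - p.1) / 2)) ^ 2) * e1
      _ = (2 * Real.cos ((p'.2 - p'.1) / 2) * Real.cos ((p'.1 + p'.2) / 2)) ^ 2 +
          (2 * Real.cos ((p'.2 - p'.1) / 2) * Real.sin ((p'.1 + p'.2) / 2)) ^ 2 := by
          rw [ha, hb]
      _ = _ := by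
          linear_combination ((2 * Real.cos ((p'.2 - p'.1) / 2)) ^ 2) * e2
  have hc : 2 * Real.cos ((p.2 - p.1) / 2) = 2 * Real.cos ((p'.2 - p'.1) / 2) :=
    (sq_eq_sq₀ (by positivity) (by positivity)).mp hsq
  have hd : (p.2 - p.1) / 2 = (p'.2 - p'.1) / 2 := by
    apply Real.injOn_cos ⟨by linarith, by linarith⟩ ⟨by linarith, by linarith⟩
    linarith
  have hs : (p.1 + p.2) / 2 = (p'.1 + p'.2) / 2 := by
    apply Real.injOn_cos ⟨by linarith, by linarith⟩ ⟨by linarith, by linarith⟩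
    rw [hc] at ha
    exact mul_left_cancel₀ (by positivity) ha
  refine Prod.ext ?_ ?_ <;> linarith

theorem inj_Sd' (δ : ℝ) (hδ : 0 < δ) : InjOn psi (Prod.swap ⁻¹' Sd δ) := by
  intro p hp p' hp' h
  have := inj_Sd δ hδ hp hp' (by rw [psi_swap, psi_swap, h])
  exact Prod.swap_injective this

theorem meas_Sd (δ : ℝ) : MeasurableSet (Sd δ) := by
  have hQ : MeasurableSet Q := measurableSet_Ioo
  have h1 : MeasurableSet {p : ℝ × ℝ | p.1 ∈ Q} := measurable_fst hQ
  have h2 : MeasurableSet {p : ℝ × ℝ | p.2 ∈ Q} := measurable_snd hQ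
  have h3 : MeasurableSet {p : ℝ × ℝ | δ ≤ p.2 - p.1} :=
    measurableSet_le measurable_const (by fun_prop)
  exact h1.inter (h2.inter h3)

theorem det_Sd (δ : ℝ) (hδ : 0 < δ) (p : ℝ × ℝ) (hp : p ∈ Sd δ) :
    2 / Real.pi * δ ≤ |Real.sin (p.2 - p.1)| := by
  obtain ⟨⟨h1, h2⟩, ⟨h3, h4⟩, h5⟩ := hp
  have hpi := Real.pi_pos
  have h6 := Real.mul_le_sin (x := p.2 - p.1) (by linarith) (by linarith)
  have h7 : 2 / Real.pi * δ ≤ 2 / Real.pi * (p.2 - p.1) := by
    apply mul_le_mul_of_nonneg_left h5 (by positivity)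
  exact (h7.trans h6).trans (le_abs_self _)

/-- the set of pairs in `Q × Q` at distance at least `δ` -/
def Td (δ : ℝ) : Set (ℝ × ℝ) := {p | δ ≤ |p.1 - p.2|}

theorem meas_Td (δ : ℝ) : MeasurableSet (Td δ) :=
  measurableSet_le measurable_const (by fun_prop)

/-- Lemma J -/
theorem lemJ {A B : ℝ} (hA : 0 < A) (hB : 0 < B) (u : ℝ × ℝ) (δ : ℝ) (hδ : 0 < δ) :
    ∫⁻ p in Td δ, gg A B (psi p - u) ∂((volume.restrict Q).prod (volume.restrict Q)) ≤
      ENNReal.ofReal (Real.pi ^ 3 / δ) := by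
  have hpi := Real.pi_pos
  rw [Measure.prod_restrict, Measure.restrict_restrict (meas_Td δ)]
  have hsub : Td δ ∩ Q ×ˢ Q ⊆ Sd δ ∪ Prod.swap ⁻¹' Sd δ := by
    rintro p ⟨h1, h2, h3⟩
    rcases le_total p.1 p.2 with h | h
    · left
      refine ⟨h2, h3, ?_⟩
      have h1' : δ ≤ |p.1 - p.2| := h1
      rw [abs_of_nonpos (by linarith)] at h1'
      linarith
    · right
      refine ⟨h3, h2, ?_⟩
      have h1' : δ ≤ |p.1 - p.2| := h1
      rw [abs_of_nonneg (by linarith)] at h1'
      simpa using h1'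
  have hc : 0 < 2 / Real.pi * δ := by positivity
  calc ∫⁻ p in Td δ ∩ Q ×ˢ Q, gg A B (psi p - u) ∂((volume : Measure ℝ).prod volume)
      ≤ ∫⁻ p in Sd δ ∪ Prod.swap ⁻¹' Sd δ, gg A B (psi p - u) ∂((volume : Measure ℝ).prod volume) :=
        lintegral_mono_set hsub
    _ ≤ ∫⁻ p in Sd δ, gg A B (psi p - u) ∂((volume : Measure ℝ).prod volume) +
        ∫⁻ p in Prod.swap ⁻¹' Sd δ, gg A B (psi p - u) ∂((volume : Measure ℝ).prod volume) :=
        lintegral_union_le _ _ _
    _ ≤ ENNReal.ofReal (Real.pi ^ 2 / (2 / Real.pi * δ)) +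
        ENNReal.ofReal (Real.pi ^ 2 / (2 / Real.pi * δ)) := by
        refine add_le_add ?_ ?_
        · exact cov hA hB u (Sd δ) (meas_Sd δ) (inj_Sd δ hδ) _ hc (det_Sd δ hδ)
        · refine cov hA hB u (Prod.swap ⁻¹' Sd δ) (measurable_swap (meas_Sd δ)) (inj_Sd' δ hδ) _ hc ?_
          intro p hp
          have := det_Sd δ hδ p.swap hp
          rw [← abs_neg, ← Real.sin_neg]
          simpa using this
    _ = ENNReal.ofReal (Real.pi ^ 3 / δ) := by
        rw [← ENNReal.ofReal_add (by positivity) (by positivity)]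
        congr 1
        field_simp
        ring

/-- the logarithmic integral -/
theorem logint (R : ℝ) (hR : 1 ≤ R) (z : ℝ) (hz : z ∈ Q) :
    ∫⁻ v in Q, ENNReal.ofReal (1 / max |z - v| (1 / R)) ≤ ENNReal.ofReal (4 * (1 + Real.log R)) := by
  have hRpos : 0 < R := by linarith
  set ε := 1 / R with hε
  have hεpos : 0 < ε := by positivity
  have hε1 : ε ≤ 1 := by rw [hε, div_le_one hRpos]; exact hR
  set h : ℝ → ℝ≥0∞ := fun t => ENNReal.ofReal (1 / max |t| ε) with hh
  have hmeas : Measurable h := by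
    refine Measurable.ennreal_ofReal ?_
    fun_prop
  have hpos : ∫⁻ t in Ioc 0 2, h t ≤ ENNReal.ofReal (1 + Real.log (2 / ε)) := by
    have hsplit : Ioc (0 : ℝ) 2 ⊆ Ioc 0 ε ∪ Ioc ε 2 := by
      intro t ht
      rcases le_or_gt t ε with h' | h'
      · left; exact ⟨ht.1, h'⟩
      · right; exact ⟨h', ht.2⟩
    calc ∫⁻ t in Ioc 0 2, h t ≤ ∫⁻ t in Ioc 0 ε ∪ Ioc ε 2, h t := lintegral_mono_set hsplit
      _ ≤ (∫⁻ t in Ioc 0 ε, h t) + (∫⁻ t in Ioc ε 2, h t) := lintegral_union_le _ _ _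
      _ ≤ ENNReal.ofReal 1 + ENNReal.ofReal (Real.log (2 / ε)) := by
        refine add_le_add ?_ ?_
        · calc ∫⁻ t in Ioc 0 ε, h t ≤ ∫⁻ t in Ioc 0 ε, ENNReal.ofReal (1 / ε) := by
                refine lintegral_mono (fun t => ?_)
                apply ENNReal.ofReal_le_ofReal
                apply one_div_le_one_div_of_le hεpos (le_max_right _ _)
            _ = ENNReal.ofReal 1 := by
                rw [setLIntegral_const, Real.volume_Ioc, ← ENNReal.ofReal_mul (by positivity)]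
                congr 1
                field_simp
                ring
        · have hint : IntegrableOn (fun t : ℝ => t⁻¹) (Ioc ε 2) := by
            have : IntervalIntegrable (fun t : ℝ => t⁻¹) volume ε 2 := by
              apply intervalIntegral.intervalIntegrable_inv
              · intro x hx
                rw [uIcc_of_le (by linarith)] at hx
                linarith [hx.1]
              · exact continuousOn_id
            exact (intervalIntegrable_iff_integrableOn_Ioc_of_le (by linarith)).mp this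
          calc ∫⁻ t in Ioc ε 2, h t ≤ ∫⁻ t in Ioc ε 2, ENNReal.ofReal (t⁻¹) := by
                refine setLIntegral_mono' measurableSet_Ioc (fun t ht => ?_)
                apply ENNReal.ofReal_le_ofReal
                have ht0 : 0 < t := lt_trans hεpos ht.1
                rw [← one_div]
                apply one_div_le_one_div_of_le ht0
                rw [abs_of_pos ht0]
                exact le_max_left _ _
            _ = ENNReal.ofReal (∫ t in Ioc ε 2, t⁻¹) := by
                rw [ofReal_integral_eq_lintegral_ofReal hint]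
                refine (ae_restrict_iff' measurableSet_Ioc).mpr (Filter.Eventually.of_forall ?_)
                intro t ht
                have ht0 : 0 < t := lt_trans hεpos ht.1
                simp only [Pi.zero_apply]
                positivity
            _ = ENNReal.ofReal (Real.log (2 / ε)) := by
                rw [← intervalIntegral.integral_of_le (by linarith), integral_inv_of_pos hεpos (by norm_num)]
            _ ≤ _ := le_refl _
      _ = ENNReal.ofReal (1 + Real.log (2 / ε)) := by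
        rw [ENNReal.ofReal_add (by norm_num)]
        apply Real.log_nonneg
        rw [le_div_iff₀ hεpos]; linarith
  have heven : ∀ t, h (-t) = h t := by intro t; simp only [hh, abs_neg]
  have hneg : ∫⁻ t in Ico (-2) 0, h t = ∫⁻ t in Ioc 0 2, h t := by
    rw [← lintegral_indicator measurableSet_Ico, ← lintegral_indicator measurableSet_Ioc]
    rw [← lintegral_sub_left_eq_self ((Ico (-2 : ℝ) 0).indicator h) 0]
    congr 1
    ext t
    by_cases ht : t ∈ Ioc (0 : ℝ) 2
    · rw [indicator_of_mem ht, indicator_of_mem (by constructor <;> linarith [ht.1, ht.2]), zero_sub,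
        heven]
    · rw [indicator_of_notMem ht, indicator_of_notMem]
      intro ht'
      apply ht
      constructor <;> linarith [ht'.1, ht'.2]
  have hpi2 : Real.pi / 2 < 2 := by linarith [Real.pi_lt_four]
  have hmain : ∫⁻ v in Q, h (z - v) ≤ ∫⁻ t in Ico (-2) 0 ∪ (Ioc 0 2 ∪ {0}), h t := by
    have hQm : MeasurableSet Q := measurableSet_Ioo
    rw [← lintegral_indicator hQm, ← lintegral_indicator (by measurability)]
    rw [← lintegral_sub_left_eq_self ((Ico (-2 : ℝ) 0 ∪ (Ioc 0 2 ∪ {0})).indicator h) z]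
    refine lintegral_mono (fun v => ?_)
    simp only
    by_cases hv : v ∈ Q
    · rw [indicator_of_mem hv, indicator_of_mem]
      have h1 := hv.1
      have h2 := hv.2
      have h3 := hz.1
      have h4 := hz.2
      rcases lt_trichotomy (z - v) 0 with h' | h' | h'
      · left; exact ⟨by linarith, h'⟩
      · right; right; exact h'
      · right; left; exact ⟨h', by linarith⟩
    · rw [indicator_of_notMem hv]
      exact zero_le
  have hfin : ∫⁻ t in Ico (-2) 0 ∪ (Ioc 0 2 ∪ {0}), h t ≤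
      ENNReal.ofReal (1 + Real.log (2 / ε)) + ENNReal.ofReal (1 + Real.log (2 / ε)) := by
    calc ∫⁻ t in Ico (-2) 0 ∪ (Ioc 0 2 ∪ {0}), h t
        ≤ (∫⁻ t in Ico (-2) 0, h t) + (∫⁻ t in Ioc 0 2 ∪ {0}, h t) := lintegral_union_le _ _ _
      _ ≤ (∫⁻ t in Ico (-2) 0, h t) + ((∫⁻ t in Ioc 0 2, h t) + (∫⁻ t in {0}, h t)) :=
          add_le_add (le_refl _) (lintegral_union_le _ _ _)
      _ = (∫⁻ t in Ioc 0 2, h t) + (∫⁻ t in Ioc 0 2, h t) := by
          rw [hneg]
          simp
      _ ≤ _ := add_le_add hpos hpos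
  refine (hmain.trans hfin).trans ?_
  have hl1 : Real.log (2 / ε) = Real.log 2 + Real.log R := by
    rw [hε, div_div_eq_mul_div, div_one, Real.log_mul (by norm_num) hRpos.ne']
  have hl2 : Real.log 2 < 1 := by
    have := Real.log_two_lt_d9; linarith
  have hl3 : 0 ≤ Real.log R := Real.log_nonneg hR
  have hl4 : 0 < Real.log 2 := Real.log_pos (by norm_num)
  rw [hl1, ← ENNReal.ofReal_add (by positivity) (by positivity)]
  apply ENNReal.ofReal_le_ofReal
  linarith

/-- the double logarithmic integral -/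
theorem logint2 (R : ℝ) (hR : 1 ≤ R) :
    ∫⁻ q, ENNReal.ofReal (1 / max |q.1 - q.2| (1 / R))
      ∂((volume.restrict Q).prod (volume.restrict Q)) ≤
      ENNReal.ofReal (8 * (1 + Real.log R)) := by
  have hmeas : Measurable (fun q : ℝ × ℝ => ENNReal.ofReal (1 / max |q.1 - q.2| (1 / R))) := by
    refine Measurable.ennreal_ofReal ?_
    fun_prop
  rw [lintegral_prod _ hmeas.aemeasurable]
  have hQm : MeasurableSet Q := measurableSet_Ioo
  have hl : 0 ≤ Real.log R := Real.log_nonneg hR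
  calc ∫⁻ x in Q, ∫⁻ y in Q, ENNReal.ofReal (1 / max |x - y| (1 / R))
      ≤ ∫⁻ x in Q, ENNReal.ofReal (4 * (1 + Real.log R)) :=
        setLIntegral_mono' hQm (fun x hx => logint R hR x hx)
    _ = ENNReal.ofReal (4 * (1 + Real.log R) * (Real.pi / 2)) := by
        rw [setLIntegral_const, Q, Real.volume_Ioo, ← ENNReal.ofReal_mul (by positivity), sub_zero]
    _ ≤ _ := by
        apply ENNReal.ofReal_le_ofReal
        have := Real.pi_lt_four
        nlinarith

/-- the near-diagonal strip has small measure -/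
theorem strip (ε : ℝ) (hε : 0 < ε) :
    ((volume.restrict Q).prod (volume.restrict Q)) {p : ℝ × ℝ | |p.1 - p.2| ≤ ε} ≤
      ENNReal.ofReal (4 * ε) := by
  have hm : MeasurableSet {p : ℝ × ℝ | |p.1 - p.2| ≤ ε} :=
    measurableSet_le (by fun_prop) measurable_const
  rw [Measure.prod_apply hm]
  calc ∫⁻ x in Q, (volume.restrict Q) (Prod.mk x ⁻¹' {p : ℝ × ℝ | |p.1 - p.2| ≤ ε})
      ≤ ∫⁻ x in Q, ENNReal.ofReal (2 * ε) := by
        refine lintegral_mono (fun x => ?_)
        calc (volume.restrict Q) (Prod.mk x ⁻¹' {p : ℝ × ℝ | |p.1 - p.2| ≤ ε})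
            ≤ volume (Prod.mk x ⁻¹' {p : ℝ × ℝ | |p.1 - p.2| ≤ ε}) := Measure.restrict_apply_le _ _
          _ ≤ volume (Icc (x - ε) (x + ε)) := by
            refine measure_mono (fun y hy => ?_)
            have hy' : |x - y| ≤ ε := hy
            rw [abs_le] at hy'
            exact ⟨by linarith, by linarith⟩
          _ = ENNReal.ofReal (2 * ε) := by rw [Real.volume_Icc]; congr 1; ring
    _ = ENNReal.ofReal (2 * ε * (Real.pi / 2)) := by
        rw [setLIntegral_const, Q, Real.volume_Ioo, ← ENNReal.ofReal_mul (by positivity), sub_zero]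
    _ ≤ _ := by
        apply ENNReal.ofReal_le_ofReal
        have := Real.pi_lt_four
        nlinarith

theorem gg_neg (A B : ℝ) (u : ℝ × ℝ) : gg A B (-u) = gg A B u := by
  unfold gg; simp only [Prod.fst_neg, Prod.snd_neg, K_neg]

/-- the far region -/
theorem far {A B : ℝ} (hA : 0 < A) (hB : 0 < B) (R : ℝ) (hR : 1 ≤ R) :
    ∫⁻ q, ∫⁻ p, (Td (max |q.1 - q.2| (1 / R))).indicator (fun p => gg A B (psi p - psi q)) p
      ∂((volume.restrict Q).prod (volume.restrict Q))
      ∂((volume.restrict Q).prod (volume.restrict Q)) ≤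
      ENNReal.ofReal (Real.pi ^ 3 * (8 * (1 + Real.log R))) := by
  have hpi := Real.pi_pos
  have hmeas : Measurable (fun q : ℝ × ℝ => ENNReal.ofReal (1 / max |q.1 - q.2| (1 / R))) := by
    refine Measurable.ennreal_ofReal ?_
    fun_prop
  calc ∫⁻ q, ∫⁻ p, (Td (max |q.1 - q.2| (1 / R))).indicator (fun p => gg A B (psi p - psi q)) p
      ∂((volume.restrict Q).prod (volume.restrict Q))
      ∂((volume.restrict Q).prod (volume.restrict Q))
      ≤ ∫⁻ q, ENNReal.ofReal (Real.pi ^ 3) * ENNReal.ofReal (1 / max |q.1 - q.2| (1 / R))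
        ∂((volume.restrict Q).prod (volume.restrict Q)) := by
        refine lintegral_mono (fun q => ?_)
        simp only
        rw [lintegral_indicator (meas_Td _)]
        have hδ : 0 < max |q.1 - q.2| (1 / R) := lt_max_of_lt_right (by positivity)
        refine (lemJ hA hB (psi q) _ hδ).trans (le_of_eq ?_)
        rw [← ENNReal.ofReal_mul (by positivity)]
        congr 1
        ring
    _ = ENNReal.ofReal (Real.pi ^ 3) * ∫⁻ q, ENNReal.ofReal (1 / max |q.1 - q.2| (1 / R))
        ∂((volume.restrict Q).prod (volume.restrict Q)) := lintegral_const_mul _ hmeas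
    _ ≤ ENNReal.ofReal (Real.pi ^ 3) * ENNReal.ofReal (8 * (1 + Real.log R)) := by
        gcongr
        exact logint2 R hR
    _ = _ := by rw [← ENNReal.ofReal_mul (by positivity)]

theorem main4 {A B : ℝ} (hA : 1 ≤ A) (hB : 1 ≤ B) :
    ∫⁻ p, ∫⁻ q, gg A B (psi p - psi q)
      ∂((volume.restrict Q).prod (volume.restrict Q))
      ∂((volume.restrict Q).prod (volume.restrict Q)) ≤
      ENNReal.ofReal ((16 * Real.pi ^ 3 + 16) * (1 + Real.log (A * B))) := by
  have hpi := Real.pi_pos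
  have hA0 : 0 < A := by linarith
  have hB0 : 0 < B := by linarith
  set R := max A B with hR
  have hR1 : 1 ≤ R := hA.trans (le_max_left _ _)
  have hR0 : 0 < R := by linarith
  have hlR : Real.log R ≤ Real.log (A * B) := by
    apply Real.log_le_log hR0
    rw [hR]
    apply max_le <;> nlinarith
  have hlR0 : 0 ≤ Real.log R := Real.log_nonneg hR1
  set ν := (volume.restrict Q).prod (volume.restrict Q) with hν
  set ε := 1 / R with hε
  have hε0 : 0 < ε := by positivity
  set E0 : Set (ℝ × ℝ) := {p : ℝ × ℝ | |p.1 - p.2| ≤ ε} with hE0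
  have hE0m : MeasurableSet E0 := measurableSet_le (by fun_prop) measurable_const
  -- measurability
  have hF : Measurable (fun z : (ℝ × ℝ) × (ℝ × ℝ) => gg A B (psi z.1 - psi z.2)) :=
    (gg_meas A B).comp ((psi_meas.comp measurable_fst).sub (psi_meas.comp measurable_snd))
  have hS2 : MeasurableSet {z : (ℝ × ℝ) × (ℝ × ℝ) | max |z.2.1 - z.2.2| ε ≤ |z.1.1 - z.1.2|} :=
    measurableSet_le (by fun_prop) (by fun_prop)
  have hS3 : MeasurableSet {z : (ℝ × ℝ) × (ℝ × ℝ) | max |z.1.1 - z.1.2| ε ≤ |z.2.1 - z.2.2|} :=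
    measurableSet_le (by fun_prop) (by fun_prop)
  have hm2 : Measurable (fun z : (ℝ × ℝ) × (ℝ × ℝ) => (Td (max |z.2.1 - z.2.2| ε)).indicator
      (fun p => gg A B (psi p - psi z.2)) z.1) := by
    exact hF.indicator hS2
  have hm3 : Measurable (fun z : (ℝ × ℝ) × (ℝ × ℝ) => (Td (max |z.1.1 - z.1.2| ε)).indicator
      (fun q => gg A B (psi q - psi z.1)) z.2) := by
    have h' : Measurable (fun z : (ℝ × ℝ) × (ℝ × ℝ) => gg A B (psi z.2 - psi z.1)) :=
      (gg_meas A B).comp ((psi_meas.comp measurable_snd).sub (psi_meas.comp measurable_fst))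
    exact h'.indicator hS3
  have hm1 : Measurable (fun z : (ℝ × ℝ) × (ℝ × ℝ) => E0.indicator (fun _ => ENNReal.ofReal (R ^ 2)) z.1 *
      E0.indicator (fun _ => (1 : ℝ≥0∞)) z.2) := by
    have a1 : Measurable (E0.indicator (fun _ => ENNReal.ofReal (R ^ 2))) :=
      measurable_const.indicator hE0m
    have a2 : Measurable (E0.indicator (fun _ => (1 : ℝ≥0∞))) := measurable_const.indicator hE0m
    exact (a1.comp measurable_fst).mul (a2.comp measurable_snd)
  have hpt : ∀ p q : ℝ × ℝ, gg A B (psi p - psi q) ≤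
      E0.indicator (fun _ => ENNReal.ofReal (R ^ 2)) p * E0.indicator (fun _ => (1 : ℝ≥0∞)) q +
      ((Td (max |q.1 - q.2| ε)).indicator (fun p => gg A B (psi p - psi q)) p +
      (Td (max |p.1 - p.2| ε)).indicator (fun q => gg A B (psi q - psi p)) q) := by
    intro p q
    have hsym : gg A B (psi q - psi p) = gg A B (psi p - psi q) := by
      rw [← gg_neg, neg_sub]
    by_cases h2 : p ∈ Td (max |q.1 - q.2| ε)
    · rw [indicator_of_mem h2]
      exact le_add_left (le_add_right (le_refl _))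
    by_cases h3 : q ∈ Td (max |p.1 - p.2| ε)
    · rw [indicator_of_mem h3, hsym]
      exact le_add_left (le_add_left (le_refl _))
    have h2' : |p.1 - p.2| < max |q.1 - q.2| ε := not_le.mp h2
    have h3' : |q.1 - q.2| < max |p.1 - p.2| ε := not_le.mp h3
    have hp : p ∈ E0 := by
      show |p.1 - p.2| ≤ ε
      by_contra hcon
      push Not at hcon
      rcases lt_max_iff.mp h2' with h | h
      · rcases lt_max_iff.mp h3' with h' | h' <;> linarith
      · linarith
    have hq : q ∈ E0 := by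
      show |q.1 - q.2| ≤ ε
      by_contra hcon
      push Not at hcon
      rcases lt_max_iff.mp h3' with h | h
      · rcases lt_max_iff.mp h2' with h' | h' <;> linarith
      · linarith
    rw [indicator_of_mem hp, indicator_of_mem hq, mul_one]
    refine le_add_right ?_
    unfold gg
    apply ENNReal.ofReal_le_ofReal
    rw [sq]
    exact mul_le_mul ((K_le hA0.le _).trans (le_max_left _ _)) ((K_le hB0.le _).trans (le_max_right _ _))
      (K_nonneg hB0.le _) hR0.le
  have hI1 : ∫⁻ p, ∫⁻ q, E0.indicator (fun _ => ENNReal.ofReal (R ^ 2)) p *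
      E0.indicator (fun _ => (1 : ℝ≥0∞)) q ∂ν ∂ν ≤ ENNReal.ofReal 16 := by
    have a1 : Measurable (E0.indicator (fun _ => ENNReal.ofReal (R ^ 2))) :=
      measurable_const.indicator hE0m
    have a2 : Measurable (E0.indicator (fun _ => (1 : ℝ≥0∞))) := measurable_const.indicator hE0m
    simp_rw [lintegral_const_mul _ a2]
    rw [lintegral_mul_const _ a1, lintegral_indicator hE0m, lintegral_indicator hE0m,
      setLIntegral_const, setLIntegral_const, one_mul]
    have hs := strip ε hε0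
    calc ENNReal.ofReal (R ^ 2) * ν E0 * ν E0
        ≤ ENNReal.ofReal (R ^ 2) * ENNReal.ofReal (4 * ε) * ENNReal.ofReal (4 * ε) := by
          gcongr
      _ = ENNReal.ofReal 16 := by
          rw [← ENNReal.ofReal_mul (by positivity), ← ENNReal.ofReal_mul (by positivity)]
          congr 1
          rw [hε]; field_simp; norm_num
  have hI2 : ∫⁻ p, ∫⁻ q, (Td (max |q.1 - q.2| ε)).indicator (fun p => gg A B (psi p - psi q)) p ∂ν ∂ν ≤
      ENNReal.ofReal (Real.pi ^ 3 * (8 * (1 + Real.log R))) := by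
    rw [lintegral_lintegral_swap hm2.aemeasurable]
    exact far hA0 hB0 R hR1
  have hI3 : ∫⁻ p, ∫⁻ q, (Td (max |p.1 - p.2| ε)).indicator (fun q => gg A B (psi q - psi p)) q ∂ν ∂ν ≤
      ENNReal.ofReal (Real.pi ^ 3 * (8 * (1 + Real.log R))) :=
    far hA0 hB0 R hR1
  have hm1' : Measurable (fun p => ∫⁻ q, E0.indicator (fun _ => ENNReal.ofReal (R ^ 2)) p *
      E0.indicator (fun _ => (1 : ℝ≥0∞)) q ∂ν) := Measurable.lintegral_prod_right' hm1
  have hm2' : Measurable (fun p => ∫⁻ q, (Td (max |q.1 - q.2| ε)).indicator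
      (fun p => gg A B (psi p - psi q)) p ∂ν) := Measurable.lintegral_prod_right' hm2
  calc ∫⁻ p, ∫⁻ q, gg A B (psi p - psi q) ∂ν ∂ν
      ≤ ∫⁻ p, ∫⁻ q, (E0.indicator (fun _ => ENNReal.ofReal (R ^ 2)) p *
          E0.indicator (fun _ => (1 : ℝ≥0∞)) q +
        ((Td (max |q.1 - q.2| ε)).indicator (fun p => gg A B (psi p - psi q)) p +
        (Td (max |p.1 - p.2| ε)).indicator (fun q => gg A B (psi q - psi p)) q)) ∂ν ∂ν :=
        lintegral_mono (fun p => lintegral_mono (fun q => hpt p q))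
    _ = ∫⁻ p, ((∫⁻ q, E0.indicator (fun _ => ENNReal.ofReal (R ^ 2)) p *
          E0.indicator (fun _ => (1 : ℝ≥0∞)) q ∂ν) +
        ((∫⁻ q, (Td (max |q.1 - q.2| ε)).indicator (fun p => gg A B (psi p - psi q)) p ∂ν) +
        (∫⁻ q, (Td (max |p.1 - p.2| ε)).indicator (fun q => gg A B (psi q - psi p)) q ∂ν))) ∂ν := by
        refine lintegral_congr (fun p => ?_)
        have b1 : Measurable (fun q => E0.indicator (fun _ => ENNReal.ofReal (R ^ 2)) p *
          E0.indicator (fun _ => (1 : ℝ≥0∞)) q) := hm1.comp measurable_prodMk_left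
        have b2 : Measurable (fun q : ℝ × ℝ => (Td (max |q.1 - q.2| ε)).indicator
          (fun p => gg A B (psi p - psi q)) p) := hm2.comp measurable_prodMk_left
        rw [lintegral_add_left b1, lintegral_add_left b2]
    _ = (∫⁻ p, ∫⁻ q, E0.indicator (fun _ => ENNReal.ofReal (R ^ 2)) p *
          E0.indicator (fun _ => (1 : ℝ≥0∞)) q ∂ν ∂ν) +
        ((∫⁻ p, ∫⁻ q, (Td (max |q.1 - q.2| ε)).indicator (fun p => gg A B (psi p - psi q)) p ∂ν ∂ν) +
        (∫⁻ p, ∫⁻ q, (Td (max |p.1 - p.2| ε)).indicator (fun q => gg A B (psi q - psi p)) q ∂ν ∂ν)) := by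
        rw [lintegral_add_left hm1', lintegral_add_left hm2']
    _ ≤ ENNReal.ofReal 16 + (ENNReal.ofReal (Real.pi ^ 3 * (8 * (1 + Real.log R))) +
        ENNReal.ofReal (Real.pi ^ 3 * (8 * (1 + Real.log R)))) :=
        add_le_add hI1 (add_le_add hI2 hI3)
    _ ≤ _ := by
        rw [← ENNReal.ofReal_add (by positivity) (by positivity), ← ENNReal.ofReal_add (by positivity) (by positivity)]
        apply ENNReal.ofReal_le_ofReal
        have h3 : 0 < Real.pi ^ 3 := by positivity
        nlinarith [mul_le_mul_of_nonneg_left hlR h3.le]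

end T5

theorem T5.test1 (A B : ℝ) (x y : ℝ) : ∫⁻ q, T5.gg A B (T5.psi (x, y) - T5.psi q)
      ∂((volume.restrict Q).prod (volume.restrict Q)) = ∫⁻ z in Q, ∫⁻ v in Q, T5.gg A B (T5.psi (x, y) - T5.psi (z,v)) := by
  have hF2 : Measurable (fun q => T5.gg A B (T5.psi (x, y) - T5.psi q)) :=
      (T5.gg_meas A B).comp (T5.psi_meas.const_sub _)
  rw [lintegral_prod _ hF2.aemeasurable]

theorem T5.test2 (A B : ℝ) (x y : ℝ) : ∫⁻ z in Q, ∫⁻ v in Q, T5.gg A B (T5.psi (x, y) - T5.psi (z,v)) 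
   = ∫⁻ z in Q, ∫⁻ v in Q,
      ENNReal.ofReal (K A (Real.cos x + Real.cos y - Real.cos z - Real.cos v) *
      K B (Real.sin x + Real.sin y - Real.sin z - Real.sin v)) := by
  have : ∀ z v, T5.gg A B (T5.psi (x, y) - T5.psi (z,v)) = ENNReal.ofReal (K A (Real.cos x + Real.cos y - Real.cos z - Real.cos v) *
      K B (Real.sin x + Real.sin y - Real.sin z - Real.sin v)) := by
    intro z v
    have e1 : Real.cos x + Real.cos y - Real.cos z - Real.cos v =
      (T5.psi (x, y) - T5.psi (z, v)).1 := by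
      simp only [T5.psi, Prod.fst_sub]; ring
    have e2 : Real.sin x + Real.sin y - Real.sin z - Real.sin v =
      (T5.psi (x, y) - T5.psi (z, v)).2 := by
      simp only [T5.psi, Prod.snd_sub]; ring
    rw [e1, e2, T5.gg]
  simp only [this]

theorem T5.test3 (A B : ℝ) : ∫⁻ p, ∫⁻ q, T5.gg A B (T5.psi p - T5.psi q)
      ∂((volume.restrict Q).prod (volume.restrict Q))
      ∂((volume.restrict Q).prod (volume.restrict Q)) = ∫⁻ x in Q, ∫⁻ y in Q, ∫⁻ q, T5.gg A B (T5.psi (x,y) - T5.psi q)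
      ∂((volume.restrict Q).prod (volume.restrict Q)) := by
  have hF : Measurable (fun z : (ℝ × ℝ) × (ℝ × ℝ) => T5.gg A B (T5.psi z.1 - T5.psi z.2)) :=
    (T5.gg_meas A B).comp ((T5.psi_meas.comp measurable_fst).sub (T5.psi_meas.comp measurable_snd))
  have hF' : Measurable (fun p => ∫⁻ q, T5.gg A B (T5.psi p - T5.psi q)
      ∂((volume.restrict Q).prod (volume.restrict Q))) := Measurable.lintegral_prod_right' hF
  rw [lintegral_prod _ hF'.aemeasurable]

theorem T5.toProd (A B : ℝ) :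
    ∫⁻ x in Q, ∫⁻ y in Q, ∫⁻ z in Q, ∫⁻ v in Q,
      ENNReal.ofReal (K A (Real.cos x + Real.cos y - Real.cos z - Real.cos v) *
      K B (Real.sin x + Real.sin y - Real.sin z - Real.sin v)) =
    ∫⁻ p, ∫⁻ q, T5.gg A B (T5.psi p - T5.psi q)
      ∂((volume.restrict Q).prod (volume.restrict Q))
      ∂((volume.restrict Q).prod (volume.restrict Q)) := by
  rw [T5.test3]
  simp only [T5.test1, T5.test2]

theorem Q4_bound : ∃ C : ℝ, 0 < C ∧ ∀ A B : ℝ, 1 ≤ A → 1 ≤ B →
    ∫⁻ x in Q, ∫⁻ y in Q, ∫⁻ z in Q, ∫⁻ v in Q,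
      ENNReal.ofReal (K A (Real.cos x + Real.cos y - Real.cos z - Real.cos v) *
      K B (Real.sin x + Real.sin y - Real.sin z - Real.sin v)) ≤
      ENNReal.ofReal (C * (1 + Real.log (A * B))) := by
  have hpi := Real.pi_pos
  refine ⟨16 * Real.pi ^ 3 + 16, by positivity, fun A B hA hB => ?_⟩
  rw [T5.toProd]
  exact T5.main4 hA hB

end Pool.Agent.H438R2.BR
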