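import Mathlib
import Pool.Agent.H438R2.BR.Defs
import Pool.Agent.H438R2.BR.T1
import Pool.Agent.H438R2.BR.T6a
set_option autoImplicit false

/-! The pointwise bound of `F` by the oscillatory pieces. -/

namespace Pool.Agent.H438R2.BR

open MeasureTheory Set Complex
open scoped ENNReal

noncomputable def sS (e : Bool) (k : ℕ) (y : ℝ) : ℂ :=
  if e then sy k y else (starRingEnd ℂ) (sy k y)

noncomputable def sg' (e : Bool) : ℝ := if e then 1 else -1

noncomputable def kap (e : Bool) : ℂ := if e then -I else I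

noncomputable def P (e : Bool) (k : ℕ) (u : ℝ) : ℂ :=
  ∫ y in Ioi (0 : ℝ), Complex.exp (-((u : ℂ) * ((y : ℂ) - sg' e * I))) * sS e k y

theorem sg_sq (e : Bool) : sg' e ^ 2 = 1 := by
  cases e <;> simp [sg']

theorem kap_norm (e : Bool) : ‖kap e‖ₑ = 1 := by
  rw [← ofReal_norm]
  cases e <;> simp [kap]

theorem sS_norm (e : Bool) (k : ℕ) (y : ℝ) : ‖sS e k y‖ = ‖sy k y‖ := by
  cases e <;> simp [sS]

theorem sy_meas (k : ℕ) : Measurable (sy k) := by
  unfold sy
  fun_prop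

theorem sS_meas (e : Bool) (k : ℕ) : Measurable (sS e k) := by
  cases e
  · exact Complex.continuous_conj.measurable.comp (sy_meas k)
  · exact sy_meas k

theorem phi_split (k : ℕ) (hk : 2 ≤ k) (u : ℝ) (hu : 0 < u) :
    Phi k u = ∑ e : Bool, kap e * P e k u := by
  rw [phi_laplace k hk u hu]
  have h1 : P true k u = Complex.exp ((u : ℂ) * I) * L k u := by
    unfold P L
    rw [← integral_const_mul]
    congr 1
    ext y
    simp only [sS, sg', if_true]
    rw [← mul_assoc, Complex.ofReal_exp, ← Complex.exp_add]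
    congr 2
    push_cast
    ring
  have h2 : P false k u = Complex.exp (-((u : ℂ) * I)) * (starRingEnd ℂ) (L k u) := by
    unfold P L
    rw [← integral_conj, ← integral_const_mul]
    congr 1
    ext y
    simp only [sS, sg', Bool.false_eq_true, if_false]
    rw [map_mul, Complex.conj_ofReal, ← mul_assoc, Complex.ofReal_exp, ← Complex.exp_add]
    congr 2
    push_cast
    ring
  rw [Fintype.sum_bool, h1, h2]
  simp only [kap, if_true, Bool.false_eq_true, if_false]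
  ring

theorem w_meas (k : ℕ) (A : ℝ) : Measurable (w k A) := by
  unfold w
  fun_prop

theorem w_pos (k : ℕ) {A y : ℝ} (hA : 0 < A) (hy : 0 < y) : 0 < w k A y := by
  unfold w
  have : 0 < 1 / (A * y) := by positivity
  exact pow_pos (lt_min one_pos this) _

theorem wi_int (k : ℕ) (hk : 2 ≤ k) (r : ℝ) (hr : 1 ≤ r) :
    Integrable (fun y => ‖sy k y‖ * w k r y) (volume.restrict (Ioi (0 : ℝ))) := by
  obtain ⟨C, hC, h⟩ := sy_int k hk
  have h1 := h r hr
  rw [← lintegral_ofReal_ne_top_iff_integrable]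
  · exact ne_top_of_le_ne_top ENNReal.ofReal_ne_top h1
  · exact ((sy_meas k).norm.mul (w_meas k r)).aestronglyMeasurable
  · filter_upwards [ae_restrict_mem measurableSet_Ioi] with y hy
    exact mul_nonneg (norm_nonneg _) (w_pos k (by linarith) hy).le

theorem lb (k : ℕ) {c r y : ℝ} (hc : 0 ≤ c) (hc1 : c ≤ 1) (hr : 0 < r) (hy : 0 < y) :
    c ^ (k - 1) * Real.exp (-(r * c * y)) ≤ ((k - 1).factorial * Real.exp 1) * w k r y := by
  have h1 := wl k (k - 1) le_rfl hr hy hc hc1 (le_refl (1 + r * y * c))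
  have h2 : 0 ≤ 1 + r * y * c := by positivity
  have h3 := Real.pow_div_factorial_le_exp (1 + r * y * c) h2 (k - 1)
  rw [div_le_iff₀ (by positivity)] at h3
  have hw := w_pos k hr hy
  calc _ ≤ (w k r y * (1 + r * y * c) ^ (k - 1)) * Real.exp (-(r * c * y)) := by gcongr
    _ ≤ (w k r y * (Real.exp (1 + r * y * c) * (k - 1).factorial)) * Real.exp (-(r * c * y)) := by
        gcongr
    _ = ((k - 1).factorial * (Real.exp (1 + r * y * c) * Real.exp (-(r * c * y)))) * w k r y := by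
        ring
    _ = _ := by
        rw [← Real.exp_add]
        congr 4
        ring

theorem nexp (u y e : ℝ) : ‖Complex.exp (-((u : ℂ) * ((y : ℂ) - e * I)))‖ =
    Real.exp (-(u * y)) := by
  rw [Complex.norm_exp]
  simp

/-- the integrand -/
noncomputable def Hf (k m : ℕ) (G : ℝ → ℂ) (e1 e2 : Bool) (r t : ℝ) (p : ℝ × (ℝ × ℝ)) : ℂ :=
  (G p.1 * (((Real.cos p.1) ^ (k - 1) * (Real.sin p.1) ^ (m - 1) : ℝ) : ℂ)) *
    ((Complex.exp (-(((r * Real.cos p.1 : ℝ) : ℂ) * ((p.2.1 : ℂ) - sg' e1 * I))) * sS e1 k p.2.1) *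
    (Complex.exp (-(((t * Real.sin p.1 : ℝ) : ℂ) * ((p.2.2 : ℂ) - sg' e2 * I))) * sS e2 m p.2.2))

/-- the measure on the quadrant -/
noncomputable def qd : Measure (ℝ × ℝ) :=
  ((volume : Measure ℝ).restrict (Ioi 0)).prod ((volume : Measure ℝ).restrict (Ioi 0))

theorem Hf_int (k m : ℕ) (hk : 2 ≤ k) (hm : 2 ≤ m) (G : ℝ → ℂ) (hG : Measurable G) (M : ℝ)
    (hM : ∀ θ, ‖G θ‖ ≤ M) (e1 e2 : Bool) (r t : ℝ) (hr : 1 ≤ r) (ht : 1 ≤ t) :
    Integrable (Hf k m G e1 e2 r t) ((volume.restrict Q).prod qd) := by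
  have hM0 : 0 ≤ M := (norm_nonneg _).trans (hM 0)
  have hr0 : 0 < r := by linarith
  have ht0 : 0 < t := by linarith
  have hb : Integrable (fun p : ℝ × (ℝ × ℝ) => (M * (((k - 1).factorial * Real.exp 1) *
      ((m - 1).factorial * Real.exp 1))) * ((‖sy k p.2.1‖ * w k r p.2.1) *
      (‖sy m p.2.2‖ * w m t p.2.2))) ((volume.restrict Q).prod qd) :=
    (integrable_const _).mul_prod ((wi_int k hk r hr).mul_prod (wi_int m hm t ht))
  refine hb.mono' ?_ ?_
  · apply Measurable.aestronglyMeasurable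
    unfold Hf
    have m1 : Measurable fun p : ℝ × (ℝ × ℝ) => sS e1 k p.2.1 :=
      (sS_meas e1 k).comp (by fun_prop)
    have m2 : Measurable fun p : ℝ × (ℝ × ℝ) => sS e2 m p.2.2 :=
      (sS_meas e2 m).comp (by fun_prop)
    have m3 : Measurable fun p : ℝ × (ℝ × ℝ) => G p.1 := hG.comp (by fun_prop)
    have m4 : Measurable fun p : ℝ × (ℝ × ℝ) =>
      (((Real.cos p.1) ^ (k - 1) * (Real.sin p.1) ^ (m - 1) : ℝ) : ℂ) := by fun_prop
    have m5 : Measurable fun p : ℝ × (ℝ × ℝ) =>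
      Complex.exp (-(((r * Real.cos p.1 : ℝ) : ℂ) * ((p.2.1 : ℂ) - sg' e1 * I))) := by fun_prop
    have m6 : Measurable fun p : ℝ × (ℝ × ℝ) =>
      Complex.exp (-(((t * Real.sin p.1 : ℝ) : ℂ) * ((p.2.2 : ℂ) - sg' e2 * I))) := by fun_prop
    exact (m3.mul m4).mul ((m5.mul m1).mul (m6.mul m2))
  · unfold qd
    rw [Measure.prod_restrict, Measure.prod_restrict]
    filter_upwards [ae_restrict_mem (measurableSet_Ioo.prod
      (measurableSet_Ioi.prod measurableSet_Ioi))] with p hp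
    obtain ⟨hp1, hp2, hp3⟩ := hp
    have hc := Q_cos hp1
    have hs := Q_sin hp1
    have hy : 0 < p.2.1 := hp2
    have hz : 0 < p.2.2 := hp3
    unfold Hf
    have n1 := nexp (r * Real.cos p.1) p.2.1 (sg' e1)
    have n2 := nexp (t * Real.sin p.1) p.2.2 (sg' e2)
    rw [norm_mul, norm_mul, norm_mul, norm_mul, norm_mul, n1, n2, sS_norm, sS_norm,
      Complex.norm_real, Real.norm_eq_abs, abs_of_nonneg (by positivity)]
    have l1 := lb k hc.le (Real.cos_le_one p.1) hr0 hy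
    have l2 := lb m hs.le (Real.sin_le_one p.1) ht0 hz
    have w1 := w_pos k hr0 hy
    have w2 := w_pos m ht0 hz
    calc _ = ‖G p.1‖ * ((Real.cos p.1 ^ (k - 1) * Real.exp (-(r * Real.cos p.1 * p.2.1))) *
          (Real.sin p.1 ^ (m - 1) * Real.exp (-(t * Real.sin p.1 * p.2.2)))) *
          (‖sy k p.2.1‖ * ‖sy m p.2.2‖) := by ring
      _ ≤ M * ((((k - 1).factorial * Real.exp 1) * w k r p.2.1) *
          (((m - 1).factorial * Real.exp 1) * w m t p.2.2)) *
          (‖sy k p.2.1‖ * ‖sy m p.2.2‖) := by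
          have := hM p.1
          gcongr
      _ = _ := by ring

theorem F_pieces (k m : ℕ) (hk : 2 ≤ k) (hm : 2 ≤ m) (G : ℝ → ℂ) (hG : Measurable G) (M : ℝ)
    (hM : ∀ θ, ‖G θ‖ ≤ M) (r t : ℝ) (hr : 1 ≤ r) (ht : 1 ≤ t) :
    ‖F k m G r t‖ₑ ≤ ∑ e : Bool × Bool, ∫⁻ p : ℝ × ℝ, ‖sy k p.1‖ₑ * ‖sy m p.2‖ₑ *
      ‖ff k m G (sg' e.1) (sg' e.2) p.1 p.2 r t‖ₑ ∂qd := by
  have hr0 : 0 < r := by linarith
  have ht0 : 0 < t := by linarith
  have : SigmaFinite qd := by unfold qd; infer_instance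
  have hin : ∀ e : Bool × Bool, ∀ θ, ∫ p, Hf k m G e.1 e.2 r t (θ, p) ∂qd =
      (G θ * (((Real.cos θ) ^ (k - 1) * (Real.sin θ) ^ (m - 1) : ℝ) : ℂ)) *
        (P e.1 k (r * Real.cos θ) * P e.2 m (t * Real.sin θ)) := by
    intro e θ
    unfold Hf P qd
    simp only
    rw [integral_const_mul, ← integral_prod_mul]
  have h1 : F k m G r t = ∑ e : Bool × Bool, (kap e.1 * kap e.2) *
      ∫ θ in Q, ∫ p, Hf k m G e.1 e.2 r t (θ, p) ∂qd := by
    simp_rw [← integral_const_mul]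
    rw [← integral_finsetSum]
    · unfold F
      apply setIntegral_congr_fun measurableSet_Ioo
      intro θ hθ
      have hc := Q_cos hθ
      have hs := Q_sin hθ
      simp only
      rw [phi_split k hk _ (mul_pos hr0 hc), phi_split m hm _ (mul_pos ht0 hs)]
      simp_rw [integral_const_mul, hin]
      rw [Fintype.sum_prod_type, Fintype.sum_bool, Fintype.sum_bool, Fintype.sum_bool,
        Fintype.sum_bool, Fintype.sum_bool]
      ring
    · intro e _
      simp_rw [integral_const_mul]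
      exact ((Hf_int k m hk hm G hG M hM e.1 e.2 r t hr ht).integral_prod_left).const_mul _
  rw [h1]
  refine (enorm_sum_le _ _).trans ?_
  apply Finset.sum_le_sum
  intro e _
  rw [enorm_mul, enorm_mul, kap_norm, kap_norm, one_mul, one_mul]
  have h2 : ∫ θ in Q, ∫ p, Hf k m G e.1 e.2 r t (θ, p) ∂qd =
      ∫ p, (∫ θ in Q, Hf k m G e.1 e.2 r t (θ, p)) ∂qd :=
    integral_integral_swap (f := fun θ p => Hf k m G e.1 e.2 r t (θ, p))
      (Hf_int k m hk hm G hG M hM e.1 e.2 r t hr ht)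
  rw [h2]
  refine (enorm_integral_le_lintegral_enorm _).trans ?_
  apply lintegral_mono
  intro p
  have h3 : ∫ θ in Q, Hf k m G e.1 e.2 r t (θ, p) =
      (sS e.1 k p.1 * sS e.2 m p.2) * ff k m G (sg' e.1) (sg' e.2) p.1 p.2 r t := by
    unfold ff Hf
    rw [← integral_const_mul]
    congr 1
    ext θ
    simp only
    have : Complex.exp (-((r : ℂ) * (((Real.cos θ : ℝ) : ℂ) * ((p.1 : ℂ) - sg' e.1 * I))) -
      (t : ℂ) * (((Real.sin θ : ℝ) : ℂ) * ((p.2 : ℂ) - sg' e.2 * I))) =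
      Complex.exp (-(((r * Real.cos θ : ℝ) : ℂ) * ((p.1 : ℂ) - sg' e.1 * I))) *
      Complex.exp (-(((t * Real.sin θ : ℝ) : ℂ) * ((p.2 : ℂ) - sg' e.2 * I))) := by
      rw [← Complex.exp_add]
      congr 1
      push_cast
      ring
    rw [this]
    ring
  simp only [h3]
  rw [enorm_mul, enorm_mul]
  have n1 : ‖sS e.1 k p.1‖ₑ = ‖sy k p.1‖ₑ := by
    rw [← ofReal_norm, ← ofReal_norm, sS_norm]
  have n2 : ‖sS e.2 m p.2‖ₑ = ‖sy m p.2‖ₑ := by
    rw [← ofReal_norm, ← ofReal_norm, sS_norm]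
  rw [n1, n2]

end Pool.Agent.H438R2.BR
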