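import Mathlib
import Pool.Agent.H438R2.BR.Defs
import Pool.Agent.H438R2.BR.Meas
import Pool.Agent.H438R2.BR.T4
import Pool.Agent.H438R2.BR.T5
import Pool.Agent.H438R2.BR.T6b
set_option autoImplicit false

/-! The `L^2` and `L^4` bounds on dyadic boxes. -/

namespace Pool.Agent.H438R2.BR

open MeasureTheory Set Complex
open scoped ENNReal

theorem jensen2 {α : Type*} [MeasurableSpace α] (ν : Measure α) (g : α → ℝ≥0∞)
    (hg : AEMeasurable g ν) : (∫⁻ x, g x ∂ν) ^ 2 ≤ ν univ * ∫⁻ x, g x ^ 2 ∂ν := by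
  have h := ENNReal.lintegral_mul_le_Lp_mul_Lq ν (p := 2) (q := 2)
    (by rw [Real.holderConjugate_iff]; norm_num) (f := fun _ => 1) (g := g)
    aemeasurable_const hg
  simp only [Pi.mul_apply, one_mul, ENNReal.one_rpow, lintegral_const] at h
  calc (∫⁻ x, g x ∂ν) ^ 2 ≤ ((ν univ) ^ (1 / 2 : ℝ) *
        (∫⁻ x, g x ^ (2 : ℝ) ∂ν) ^ (1 / 2 : ℝ)) ^ 2 := by gcongr
    _ = ν univ * ∫⁻ x, g x ^ 2 ∂ν := by
        rw [mul_pow, ← ENNReal.rpow_natCast, ← ENNReal.rpow_natCast, ← ENNReal.rpow_mul,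
          ← ENNReal.rpow_mul]
        norm_num

theorem jensen4 {α : Type*} [MeasurableSpace α] (ν : Measure α) (g : α → ℝ≥0∞)
    (hg : AEMeasurable g ν) : (∫⁻ x, g x ∂ν) ^ 4 ≤ (ν univ) ^ 3 * ∫⁻ x, g x ^ 4 ∂ν := by
  have h1 := jensen2 ν g hg
  have h2 := jensen2 ν (fun x => g x ^ 2) (hg.pow_const 2)
  calc (∫⁻ x, g x ∂ν) ^ 4 = ((∫⁻ x, g x ∂ν) ^ 2) ^ 2 := by rw [← pow_mul]
    _ ≤ (ν univ * ∫⁻ x, g x ^ 2 ∂ν) ^ 2 := by gcongr
    _ = (ν univ) ^ 2 * (∫⁻ x, g x ^ 2 ∂ν) ^ 2 := by rw [mul_pow]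
    _ ≤ (ν univ) ^ 2 * (ν univ * ∫⁻ x, (g x ^ 2) ^ 2 ∂ν) := by gcongr
    _ = _ := by
        simp_rw [← pow_mul]
        ring

theorem jensen {α : Type*} [MeasurableSpace α] (ν : Measure α) (g : α → ℝ≥0∞)
    (hg : AEMeasurable g ν) (e : ℕ) (he : e = 2 ∨ e = 4) :
    (∫⁻ x, g x ∂ν) ^ e ≤ (ν univ) ^ (e - 1) * ∫⁻ x, g x ^ e ∂ν := by
  rcases he with rfl | rfl
  · simpa using jensen2 ν g hg
  · simpa using jensen4 ν g hg

theorem sum_pow_le (X : Bool × Bool → ℝ≥0∞) (e : ℕ) :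
    (∑ i, X i) ^ e ≤ 4 ^ e * ∑ i, X i ^ e := by
  obtain ⟨j, -, hj⟩ := Finset.exists_max_image (Finset.univ : Finset (Bool × Bool)) X
    ⟨(true, true), Finset.mem_univ _⟩
  have h1 : ∑ i, X i ≤ 4 * X j := by
    calc ∑ i, X i ≤ ∑ _i : Bool × Bool, X j := Finset.sum_le_sum hj
      _ = 4 * X j := by simp
  calc (∑ i, X i) ^ e ≤ (4 * X j) ^ e := by gcongr
    _ = 4 ^ e * X j ^ e := by rw [mul_pow]
    _ ≤ _ := by
        gcongr
        exact Finset.single_le_sum (f := fun i => X i ^ e) (fun _ _ => zero_le) (Finset.mem_univ j)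

theorem ff_meas (k m : ℕ) (G : ℝ → ℂ) (hG : Measurable G) (a b : ℝ) :
    Measurable fun v : (ℝ × ℝ) × (ℝ × ℝ) => ff k m G a b v.2.1 v.2.2 v.1.1 v.1.2 := by
  unfold ff
  apply StronglyMeasurable.measurable
  apply StronglyMeasurable.integral_prod_right (f := fun (v : (ℝ × ℝ) × (ℝ × ℝ)) (θ : ℝ) =>
    (G θ * (((Real.cos θ) ^ (k - 1) * (Real.sin θ) ^ (m - 1) : ℝ) : ℂ)) *
    Complex.exp (-((v.1.1 : ℂ) * (((Real.cos θ : ℝ) : ℂ) * ((v.2.1 : ℂ) - a * I))) -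
      (v.1.2 : ℂ) * (((Real.sin θ : ℝ) : ℂ) * ((v.2.2 : ℂ) - b * I))))
  apply Measurable.stronglyMeasurable
  change Measurable fun p : ((ℝ × ℝ) × (ℝ × ℝ)) × ℝ =>
    (G p.2 * (((Real.cos p.2) ^ (k - 1) * (Real.sin p.2) ^ (m - 1) : ℝ) : ℂ)) *
    Complex.exp (-((p.1.1.1 : ℂ) * (((Real.cos p.2 : ℝ) : ℂ) * ((p.1.2.1 : ℂ) - a * I))) -
      (p.1.1.2 : ℂ) * (((Real.sin p.2 : ℝ) : ℂ) * ((p.1.2.2 : ℂ) - b * I)))
  have h1 : Measurable fun p : ((ℝ × ℝ) × (ℝ × ℝ)) × ℝ => G p.2 := hG.comp measurable_snd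
  fun_prop

/-- the bump is bounded below on the dyadic interval -/
theorem ka_low (q : ℕ) {A r : ℝ} (hA : 0 < A) (h1 : A < r) (h2 : r < 2 * A) :
    Real.exp (-2) ≤ ka q A r := by
  unfold ka
  have h3 : 1 ≤ r / A := by rw [le_div_iff₀ hA]; linarith
  have h4 : r / A ≤ 2 := by rw [div_le_iff₀ hA]; linarith
  have h5 : 1 ≤ (r / A) ^ q := one_le_pow₀ h3
  have h6 : Real.exp (-2) ≤ Real.exp (-(r / A)) := Real.exp_le_exp.2 (by linarith)
  calc Real.exp (-2) = 1 * Real.exp (-2) := by ring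
    _ ≤ _ := by
        apply mul_le_mul h5 h6 (Real.exp_pos _).le (by positivity)

/-- the weight on the quadrant -/
noncomputable def WW (k m : ℕ) (A B : ℝ) (p : ℝ × ℝ) : ℝ≥0∞ :=
  ENNReal.ofReal (‖sy k p.1‖ * w k A p.1) * ENNReal.ofReal (‖sy m p.2‖ * w m B p.2)

theorem WW_meas (k m : ℕ) (A B : ℝ) : Measurable (WW k m A B) := by
  unfold WW
  have h1 : Measurable fun p : ℝ × ℝ => ‖sy k p.1‖ * w k A p.1 :=
    ((sy_meas k).norm.mul (w_meas k A)).comp measurable_fst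
  have h2 : Measurable fun p : ℝ × ℝ => ‖sy m p.2‖ * w m B p.2 :=
    ((sy_meas m).norm.mul (w_meas m B)).comp measurable_snd
  exact h1.ennreal_ofReal.mul h2.ennreal_ofReal

theorem WW_mass (k m : ℕ) (hk : 2 ≤ k) (hm : 2 ≤ m) : ∃ C : ℝ, 0 < C ∧ ∀ A B : ℝ, 1 ≤ A →
    1 ≤ B → ∫⁻ p, WW k m A B p ∂qd ≤
      ENNReal.ofReal (C * (A ^ (-(((k : ℝ) - 1) / 2)) * B ^ (-(((m : ℝ) - 1) / 2)))) := by
  obtain ⟨C1, hC1, h1⟩ := sy_int k hk
  obtain ⟨C2, hC2, h2⟩ := sy_int m hm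
  refine ⟨C1 * C2, by positivity, ?_⟩
  intro A B hA hB
  unfold WW qd
  rw [lintegral_prod_mul (f := fun y => ENNReal.ofReal (‖sy k y‖ * w k A y))
    (g := fun z => ENNReal.ofReal (‖sy m z‖ * w m B z))]
  · calc _ ≤ ENNReal.ofReal (C1 * A ^ (-(((k : ℝ) - 1) / 2))) *
          ENNReal.ofReal (C2 * B ^ (-(((m : ℝ) - 1) / 2))) := by
          gcongr
          · exact h1 A hA
          · exact h2 B hB
      _ = _ := by
          rw [← ENNReal.ofReal_mul (by positivity)]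
          congr 1
          ring
  · exact ((sy_meas k).norm.mul (w_meas k A)).ennreal_ofReal.aemeasurable
  · exact ((sy_meas m).norm.mul (w_meas m B)).ennreal_ofReal.aemeasurable

/-- the normalized oscillatory piece -/
noncomputable def gg (k m : ℕ) (G : ℝ → ℂ) (a b A B : ℝ) (q p : ℝ × ℝ) : ℝ≥0∞ :=
  ENNReal.ofReal (‖ff k m G a b p.1 p.2 q.1 q.2‖ * (w k A p.1 * w m B p.2)⁻¹)

theorem gg_meas (k m : ℕ) (G : ℝ → ℂ) (hG : Measurable G) (a b A B : ℝ) :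
    Measurable fun v : (ℝ × ℝ) × (ℝ × ℝ) => gg k m G a b A B v.1 v.2 := by
  unfold gg
  have h1 := (ff_meas k m G hG a b).norm
  have h2 : Measurable fun v : (ℝ × ℝ) × (ℝ × ℝ) => w k A v.2.1 :=
    (w_meas k A).comp (by fun_prop)
  have h3 : Measurable fun v : (ℝ × ℝ) × (ℝ × ℝ) => w m B v.2.2 :=
    (w_meas m B).comp (by fun_prop)
  exact (h1.mul (h2.mul h3).inv).ennreal_ofReal

theorem gg_meas2 (k m : ℕ) (G : ℝ → ℂ) (hG : Measurable G) (a b A B : ℝ) (v : ℝ × ℝ) :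
    Measurable fun p : ℝ × ℝ => gg k m G a b A B v p := by
  have h1 : Measurable fun p : ℝ × ℝ => (v, p) := measurable_prodMk_left
  have h2 := Measurable.comp (gg_meas k m G hG a b A B) h1
  exact h2

theorem gg_int (k m : ℕ) (G : ℝ → ℂ) (hG : Measurable G) (a b A B : ℝ) (hA : 1 ≤ A) (hB : 1 ≤ B)
    (e : ℕ) (D : ℝ≥0∞) (q : ℕ) (p : ℝ × ℝ) (hy : 0 < p.1) (hz : 0 < p.2)
    (hker : ∫⁻ r in Ioi (0 : ℝ), ∫⁻ t in Ioi (0 : ℝ), ENNReal.ofReal (ka q A r *
        ka q B t * ‖ff k m G a b p.1 p.2 r t‖ ^ e) ≤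
        ENNReal.ofReal ((w k A p.1 * w m B p.2) ^ e) * D) :
    ∫⁻ v, gg k m G a b A B v p ^ e ∂((volume.restrict (Ioo A (2 * A))).prod
      (volume.restrict (Ioo B (2 * B)))) ≤ ENNReal.ofReal (Real.exp 4) * D := by
  have hA0 : 0 < A := by linarith
  have hB0 : 0 < B := by linarith
  have w1 := w_pos k hA0 hy
  have w2 := w_pos m hB0 hz
  have hW : 0 < w k A p.1 * w m B p.2 := mul_pos w1 w2
  have hm1 : Measurable fun v : ℝ × ℝ => ENNReal.ofReal (ka q A v.1 *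
        ka q B v.2 * ‖ff k m G a b p.1 p.2 v.1 v.2‖ ^ e) := by
    have h1 : Measurable fun v : ℝ × ℝ => ‖ff k m G a b p.1 p.2 v.1 v.2‖ :=
      ((ff_meas k m G hG a b).comp (measurable_id.prodMk measurable_const)).norm
    have h2 : Measurable fun v : ℝ × ℝ => ka q A v.1 := (ka_cont q A).measurable.comp measurable_fst
    have h3 : Measurable fun v : ℝ × ℝ => ka q B v.2 := (ka_cont q B).measurable.comp measurable_snd
    exact ((h2.mul h3).mul (h1.pow_const e)).ennreal_ofReal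
  calc ∫⁻ v, gg k m G a b A B v p ^ e ∂((volume.restrict (Ioo A (2 * A))).prod
      (volume.restrict (Ioo B (2 * B))))
      ≤ ∫⁻ v, ENNReal.ofReal (Real.exp 4 * ((w k A p.1 * w m B p.2)⁻¹) ^ e) *
        ENNReal.ofReal (ka q A v.1 * ka q B v.2 * ‖ff k m G a b p.1 p.2 v.1 v.2‖ ^ e)
        ∂((volume.restrict (Ioo A (2 * A))).prod (volume.restrict (Ioo B (2 * B)))) := by
        apply lintegral_mono_ae
        rw [Measure.prod_restrict]
        filter_upwards [ae_restrict_mem (measurableSet_Ioo.prod measurableSet_Ioo)] with v hv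
        have k1 := ka_low q hA0 hv.1.1 hv.1.2
        have k2 := ka_low q hB0 hv.2.1 hv.2.2
        unfold gg
        rw [← ENNReal.ofReal_pow (by positivity), ← ENNReal.ofReal_mul (by positivity)]
        apply ENNReal.ofReal_le_ofReal
        have k1' : 0 ≤ ka q A v.1 := (Real.exp_pos _).le.trans k1
        have k3 : 1 ≤ Real.exp 4 * (ka q A v.1 * ka q B v.2) := by
          calc (1 : ℝ) = Real.exp 4 * (Real.exp (-2) * Real.exp (-2)) := by
                rw [← Real.exp_add, ← Real.exp_add]; norm_num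
            _ ≤ _ := by gcongr
        rw [mul_pow]
        calc ‖ff k m G a b p.1 p.2 v.1 v.2‖ ^ e * (w k A p.1 * w m B p.2)⁻¹ ^ e
            = 1 * (‖ff k m G a b p.1 p.2 v.1 v.2‖ ^ e * (w k A p.1 * w m B p.2)⁻¹ ^ e) := by ring
          _ ≤ (Real.exp 4 * (ka q A v.1 * ka q B v.2)) *
              (‖ff k m G a b p.1 p.2 v.1 v.2‖ ^ e * (w k A p.1 * w m B p.2)⁻¹ ^ e) := by gcongr
          _ = _ := by ring
    _ = ENNReal.ofReal (Real.exp 4 * ((w k A p.1 * w m B p.2)⁻¹) ^ e) *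
        ∫⁻ r in Ioo A (2 * A), ∫⁻ t in Ioo B (2 * B), ENNReal.ofReal (ka q A r *
        ka q B t * ‖ff k m G a b p.1 p.2 r t‖ ^ e) := by
        rw [lintegral_const_mul' _ _ ENNReal.ofReal_ne_top, lintegral_prod _ hm1.aemeasurable]
    _ ≤ ENNReal.ofReal (Real.exp 4 * ((w k A p.1 * w m B p.2)⁻¹) ^ e) *
        ∫⁻ r in Ioi (0 : ℝ), ∫⁻ t in Ioi (0 : ℝ), ENNReal.ofReal (ka q A r *
        ka q B t * ‖ff k m G a b p.1 p.2 r t‖ ^ e) := by
        apply mul_le_mul_right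
        refine (lintegral_mono fun r => lintegral_mono_set ?_).trans (lintegral_mono_set ?_)
        · intro x hx; exact lt_trans hB0 hx.1
        · intro x hx; exact lt_trans hA0 hx.1
    _ ≤ ENNReal.ofReal (Real.exp 4 * ((w k A p.1 * w m B p.2)⁻¹) ^ e) *
        (ENNReal.ofReal ((w k A p.1 * w m B p.2) ^ e) * D) := by
        apply mul_le_mul_right
        exact hker
    _ = _ := by
        rw [← mul_assoc, ← ENNReal.ofReal_mul (by positivity)]
        congr 2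
        rw [mul_assoc, ← mul_pow, inv_mul_cancel₀ hW.ne', one_pow, mul_one]

theorem box_gen (k m : ℕ) (hk : 2 ≤ k) (hm : 2 ≤ m) (e : ℕ) (he : e = 2 ∨ e = 4)
    (G : ℝ → ℂ) (hG : Measurable G) (M : ℝ) (hM : ∀ θ, ‖G θ‖ ≤ M) (A B : ℝ) (hA : 1 ≤ A)
    (hB : 1 ≤ B) (D : ℝ≥0∞) (q : ℕ)
    (hker : ∀ y z : ℝ, 0 < y → 0 < z → ∀ e1 e2 : Bool,
      ∫⁻ r in Ioi (0 : ℝ), ∫⁻ t in Ioi (0 : ℝ), ENNReal.ofReal (ka q A r *
        ka q B t * ‖ff k m G (sg' e1) (sg' e2) y z r t‖ ^ e) ≤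
        ENNReal.ofReal ((w k A y * w m B z) ^ e) * D) :
    ∫⁻ r in Ioo A (2 * A), ∫⁻ t in Ioo B (2 * B), ENNReal.ofReal (‖F k m G r t‖ ^ e) ≤
      (4 ^ e * 4 * ENNReal.ofReal (Real.exp 4)) * (∫⁻ p, WW k m A B p ∂qd) ^ e * D := by
  have hA0 : 0 < A := by linarith
  have hB0 : 0 < B := by linarith
  set ρ : Measure (ℝ × ℝ) := (volume.restrict (Ioo A (2 * A))).prod
      (volume.restrict (Ioo B (2 * B))) with hρ
  set ν : Measure (ℝ × ℝ) := qd.withDensity (WW k m A B) with hν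
  have hνu : ν univ = ∫⁻ p, WW k m A B p ∂qd := by
    rw [hν, withDensity_apply _ MeasurableSet.univ, Measure.restrict_univ]
  have hsq : SigmaFinite qd := by unfold qd; infer_instance
  have hWfin : ∀ p, WW k m A B p ≠ ⊤ := fun p => by
    unfold WW; exact ENNReal.mul_ne_top ENNReal.ofReal_ne_top ENNReal.ofReal_ne_top
  have hsn : SFinite ν := by
    rw [hν]
    infer_instance
  -- quadrant
  have hquad : ∀ᵐ p ∂qd, 0 < p.1 ∧ 0 < p.2 := by
    unfold qd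
    rw [Measure.prod_restrict]
    filter_upwards [ae_restrict_mem (measurableSet_Ioi.prod measurableSet_Ioi)] with p hp
    exact hp
  have hquadν : ∀ᵐ p ∂ν, 0 < p.1 ∧ 0 < p.2 :=
    (withDensity_absolutelyContinuous qd (WW k m A B)).ae_le hquad
  have hbox : ∀ᵐ v ∂ρ, (A < v.1 ∧ v.1 < 2 * A) ∧ (B < v.2 ∧ v.2 < 2 * B) := by
    rw [hρ, Measure.prod_restrict]
    filter_upwards [ae_restrict_mem (measurableSet_Ioo.prod measurableSet_Ioo)] with v hv
    exact hv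
  -- pieces
  have hX : ∀ ε : Bool × Bool, ∀ v : ℝ × ℝ, ∫⁻ p : ℝ × ℝ, ‖sy k p.1‖ₑ * ‖sy m p.2‖ₑ *
      ‖ff k m G (sg' ε.1) (sg' ε.2) p.1 p.2 v.1 v.2‖ₑ ∂qd =
      ∫⁻ p, gg k m G (sg' ε.1) (sg' ε.2) A B v p ∂ν := by
    intro ε v
    rw [hν, lintegral_withDensity_eq_lintegral_mul _ (WW_meas k m A B)
      (gg_meas2 k m G hG (sg' ε.1) (sg' ε.2) A B v)]
    apply lintegral_congr_ae
    filter_upwards [hquad] with p hp
    have w1 := w_pos k hA0 hp.1
    have w2 := w_pos m hB0 hp.2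
    simp only [Pi.mul_apply]
    unfold WW gg
    rw [← ofReal_norm, ← ofReal_norm, ← ofReal_norm, ← ENNReal.ofReal_mul (by positivity),
      ← ENNReal.ofReal_mul (by positivity), ← ENNReal.ofReal_mul (by positivity),
      ← ENNReal.ofReal_mul (by positivity)]
    congr 1
    field_simp
  have hmF : Measurable fun v : ℝ × ℝ => ENNReal.ofReal (‖F k m G v.1 v.2‖ ^ e) :=
    ((F_meas k m G hG).norm.pow_const e).ennreal_ofReal
  calc ∫⁻ r in Ioo A (2 * A), ∫⁻ t in Ioo B (2 * B), ENNReal.ofReal (‖F k m G r t‖ ^ e)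
      = ∫⁻ v, ENNReal.ofReal (‖F k m G v.1 v.2‖ ^ e) ∂ρ := by
        rw [hρ, lintegral_prod _ hmF.aemeasurable]
    _ ≤ ∫⁻ v, (∑ ε : Bool × Bool, ∫⁻ p, gg k m G (sg' ε.1) (sg' ε.2) A B v p ∂ν) ^ e ∂ρ := by
        apply lintegral_mono_ae
        filter_upwards [hbox] with v hv
        have h1 := F_pieces k m hk hm G hG M hM v.1 v.2 (by linarith [hv.1.1])
          (by linarith [hv.2.1])
        rw [ENNReal.ofReal_pow (norm_nonneg _), ofReal_norm]
        gcongr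
        refine h1.trans (le_of_eq ?_)
        apply Finset.sum_congr rfl
        intro ε _
        exact hX ε v
    _ ≤ ∫⁻ v, 4 ^ e * ∑ ε : Bool × Bool,
        (∫⁻ p, gg k m G (sg' ε.1) (sg' ε.2) A B v p ∂ν) ^ e ∂ρ := by
        apply lintegral_mono
        intro v
        exact sum_pow_le _ e
    _ ≤ ∫⁻ v, 4 ^ e * ∑ ε : Bool × Bool,
        ((ν univ) ^ (e - 1) * ∫⁻ p, gg k m G (sg' ε.1) (sg' ε.2) A B v p ^ e ∂ν) ∂ρ := by
        apply lintegral_mono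
        intro v
        apply mul_le_mul_right
        apply Finset.sum_le_sum
        intro ε _
        exact jensen ν _ (gg_meas2 k m G hG (sg' ε.1) (sg' ε.2) A B v).aemeasurable e he
    _ = 4 ^ e * ∑ ε : Bool × Bool, ((ν univ) ^ (e - 1) *
        ∫⁻ v, ∫⁻ p, gg k m G (sg' ε.1) (sg' ε.2) A B v p ^ e ∂ν ∂ρ) := by
        have hmm : ∀ ε : Bool × Bool, Measurable fun v : ℝ × ℝ =>
            ∫⁻ p, gg k m G (sg' ε.1) (sg' ε.2) A B v p ^ e ∂ν := fun ε =>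
          Measurable.lintegral_prod_right' (f := fun v : (ℝ × ℝ) × (ℝ × ℝ) =>
            gg k m G (sg' ε.1) (sg' ε.2) A B v.1 v.2 ^ e)
            ((gg_meas k m G hG (sg' ε.1) (sg' ε.2) A B).pow_const e)
        rw [lintegral_const_mul' _ _ (by simp), lintegral_finsetSum]
        · congr 1
          apply Finset.sum_congr rfl
          intro ε _
          rw [lintegral_const_mul _ (hmm ε)]
        · intro ε _
          exact (hmm ε).const_mul _
    _ ≤ 4 ^ e * ∑ _ε : Bool × Bool, ((ν univ) ^ (e - 1) *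
        (ENNReal.ofReal (Real.exp 4) * D * ν univ)) := by
        apply mul_le_mul_right
        apply Finset.sum_le_sum
        intro ε _
        apply mul_le_mul_right
        rw [lintegral_lintegral_swap]
        · calc ∫⁻ p, ∫⁻ v, gg k m G (sg' ε.1) (sg' ε.2) A B v p ^ e ∂ρ ∂ν
              ≤ ∫⁻ _p, ENNReal.ofReal (Real.exp 4) * D ∂ν := by
                apply lintegral_mono_ae
                filter_upwards [hquadν] with p hp
                exact gg_int k m G hG (sg' ε.1) (sg' ε.2) A B hA hB e D q p hp.1 hp.2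
                  (hker p.1 p.2 hp.1 hp.2 ε.1 ε.2)
            _ = _ := by rw [lintegral_const]
        · exact ((gg_meas k m G hG (sg' ε.1) (sg' ε.2) A B).pow_const e).aemeasurable
    _ = _ := by
        rw [hνu, Finset.sum_const, Finset.card_univ]
        have he1 : e = (e - 1) + 1 := by rcases he with rfl | rfl <;> rfl
        have : (∫⁻ p, WW k m A B p ∂qd) ^ e = (∫⁻ p, WW k m A B p ∂qd) ^ (e - 1) *
          (∫⁻ p, WW k m A B p ∂qd) := by
          conv_lhs => rw [he1]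
          rw [pow_succ]
        rw [this]
        simp only [Fintype.card_prod, Fintype.card_bool, nsmul_eq_mul]
        push_cast
        ring

theorem four_pow_ofReal (e : ℕ) : ((4 : ℝ≥0∞) ^ e * 4 * ENNReal.ofReal (Real.exp 4)) =
    ENNReal.ofReal (4 ^ e * 4 * Real.exp 4) := by
  rw [ENNReal.ofReal_mul (by positivity), ENNReal.ofReal_mul (by positivity),
    ENNReal.ofReal_pow (by norm_num)]
  norm_num

theorem box2 (k m : ℕ) (hk : 2 ≤ k) (hm : 2 ≤ m) : ∃ C : ℝ, 0 < C ∧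
    ∀ (G : ℝ → ℂ) (M : ℝ), Measurable G → (∀ θ, ‖G θ‖ ≤ M) → ∀ A B : ℝ, 1 ≤ A → 1 ≤ B →
    ∫⁻ r in Ioo A (2 * A), ∫⁻ t in Ioo B (2 * B), ENNReal.ofReal (‖F k m G r t‖ ^ 2) ≤
      ENNReal.ofReal (C * M ^ 2 * (A ^ (-((k : ℝ) - 1)) * B ^ (-((m : ℝ) - 1)) *
        (min A B * (1 + Real.log (A * B))))) := by
  obtain ⟨C1, hC1, h1⟩ := WW_mass k m hk hm
  obtain ⟨C2, hC2, h2⟩ := Q2_bound
  refine ⟨(4 ^ 2 * 4 * Real.exp 4) * C1 ^ 2 * (((4 * (k + m) + 1).factorial : ℝ) ^ 2) * C2,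
    by positivity, ?_⟩
  intro G M hG hM A B hA hB
  have hA0 : 0 < A := by linarith
  have hB0 : 0 < B := by linarith
  have hM0 : 0 ≤ M := (norm_nonneg _).trans (hM 0)
  have h3 := box_gen k m hk hm 2 (Or.inl rfl) G hG M hM A B hA hB
    (ENNReal.ofReal (((4 * (k + m) + 1).factorial : ℝ) ^ 2 * M ^ 2) * ∫⁻ x in Q, ∫⁻ x' in Q,
        ENNReal.ofReal (K A (Real.cos x - Real.cos x') * K B (Real.sin x - Real.sin x')))
    (4 * (k + m) + 1) (by
      intro y z hy hz e1 e2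
      refine (ker1 k m G hG M hM A B hA0 hB0 y z _ _ hy hz (sg_sq e1) (sg_sq e2)).trans
        (le_of_eq ?_)
      conv_rhs => rw [← mul_assoc, ← ENNReal.ofReal_mul (by positivity)]
      congr 2
      ring)
  refine h3.trans ?_
  have hl : 0 ≤ Real.log (A * B) := Real.log_nonneg (by nlinarith)
  have hmin : 0 ≤ min A B := le_min hA0.le hB0.le
  have ea : (A ^ (-(((k : ℝ) - 1) / 2))) ^ 2 = A ^ (-((k : ℝ) - 1)) := by
    rw [← Real.rpow_natCast, ← Real.rpow_mul hA0.le]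
    congr 1
    push_cast
    ring
  have eb : (B ^ (-(((m : ℝ) - 1) / 2))) ^ 2 = B ^ (-((m : ℝ) - 1)) := by
    rw [← Real.rpow_natCast, ← Real.rpow_mul hB0.le]
    congr 1
    push_cast
    ring
  rw [four_pow_ofReal]
  calc _ ≤ ENNReal.ofReal (4 ^ 2 * 4 * Real.exp 4) *
        (ENNReal.ofReal (C1 * (A ^ (-(((k : ℝ) - 1) / 2)) * B ^ (-(((m : ℝ) - 1) / 2))))) ^ 2 *
        (ENNReal.ofReal (((4 * (k + m) + 1).factorial : ℝ) ^ 2 * M ^ 2) *
          ENNReal.ofReal (C2 * (min A B * (1 + Real.log (A * B))))) := by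
        gcongr
        · exact h1 A B hA hB
        · exact h2 A B hA hB
    _ = _ := by
        rw [← ENNReal.ofReal_pow (by positivity), ← ENNReal.ofReal_mul (by positivity),
          ← ENNReal.ofReal_mul (by positivity), ← ENNReal.ofReal_mul (by positivity)]
        congr 1
        rw [← ea, ← eb]
        ring

theorem box4 (k m : ℕ) (hk : 2 ≤ k) (hm : 2 ≤ m) : ∃ C : ℝ, 0 < C ∧
    ∀ (G : ℝ → ℂ) (M : ℝ), Measurable G → (∀ θ, ‖G θ‖ ≤ M) → ∀ A B : ℝ, 1 ≤ A → 1 ≤ B →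
    ∫⁻ r in Ioo A (2 * A), ∫⁻ t in Ioo B (2 * B), ENNReal.ofReal (‖F k m G r t‖ ^ 4) ≤
      ENNReal.ofReal (C * M ^ 4 * (A ^ (-(2 * ((k : ℝ) - 1))) * B ^ (-(2 * ((m : ℝ) - 1))) *
        (1 + Real.log (A * B)))) := by
  obtain ⟨C1, hC1, h1⟩ := WW_mass k m hk hm
  obtain ⟨C2, hC2, h2⟩ := Q4_bound
  refine ⟨(4 ^ 4 * 4 * Real.exp 4) * C1 ^ 4 * (((4 * (k + m) + 1).factorial : ℝ) ^ 2) * C2,
    by positivity, ?_⟩
  intro G M hG hM A B hA hB
  have hA0 : 0 < A := by linarith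
  have hB0 : 0 < B := by linarith
  have hM0 : 0 ≤ M := (norm_nonneg _).trans (hM 0)
  have h3 := box_gen k m hk hm 4 (Or.inr rfl) G hG M hM A B hA hB
    (ENNReal.ofReal (((4 * (k + m) + 1).factorial : ℝ) ^ 2 * M ^ 4) * ∫⁻ x in Q, ∫⁻ x' in Q,
        ∫⁻ v in Q, ∫⁻ v' in Q,
        ENNReal.ofReal (K A (Real.cos x + Real.cos x' - Real.cos v - Real.cos v') *
          K B (Real.sin x + Real.sin x' - Real.sin v - Real.sin v')))
    (4 * (k + m) + 1) (by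
      intro y z hy hz e1 e2
      refine (ker2 k m G hG M hM A B hA0 hB0 y z _ _ hy hz (sg_sq e1) (sg_sq e2)).trans
        (le_of_eq ?_)
      conv_rhs => rw [← mul_assoc, ← ENNReal.ofReal_mul (by positivity)]
      congr 2
      ring)
  refine h3.trans ?_
  have hl : 0 ≤ Real.log (A * B) := Real.log_nonneg (by nlinarith)
  have ea : (A ^ (-(((k : ℝ) - 1) / 2))) ^ 4 = A ^ (-(2 * ((k : ℝ) - 1))) := by
    rw [← Real.rpow_natCast, ← Real.rpow_mul hA0.le]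
    congr 1
    push_cast
    ring
  have eb : (B ^ (-(((m : ℝ) - 1) / 2))) ^ 4 = B ^ (-(2 * ((m : ℝ) - 1))) := by
    rw [← Real.rpow_natCast, ← Real.rpow_mul hB0.le]
    congr 1
    push_cast
    ring
  rw [four_pow_ofReal]
  calc _ ≤ ENNReal.ofReal (4 ^ 4 * 4 * Real.exp 4) *
        (ENNReal.ofReal (C1 * (A ^ (-(((k : ℝ) - 1) / 2)) * B ^ (-(((m : ℝ) - 1) / 2))))) ^ 4 *
        (ENNReal.ofReal (((4 * (k + m) + 1).factorial : ℝ) ^ 2 * M ^ 4) *
          ENNReal.ofReal (C2 * (1 + Real.log (A * B)))) := by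
        gcongr
        · exact h1 A B hA hB
        · exact h2 A B hA hB
    _ = _ := by
        rw [← ENNReal.ofReal_pow (by positivity), ← ENNReal.ofReal_mul (by positivity),
          ← ENNReal.ofReal_mul (by positivity), ← ENNReal.ofReal_mul (by positivity)]
        congr 1
        rw [← ea, ← eb]
        ring

end Pool.Agent.H438R2.BR
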