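import Mathlib
import Pool.Agent.H438R2.BR.Defs
import Pool.Agent.H438R2.BR.Meas
import Pool.Agent.H789R2.FR.Interp
set_option autoImplicit false

/-! T8: summation over the dyadic boxes. The box bounds are hypotheses here. -/

namespace Pool.Agent.H438R2.BR

open MeasureTheory Set Complex
open scoped ENNReal

/-- exchange of the two blocks -/
theorem F_swap (k m : ℕ) (G : ℝ → ℂ) (r t : ℝ) :
    F k m G r t = F m k (fun θ => G (Real.pi / 2 - θ)) t r := by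
  have hpi := Real.pi_pos
  unfold F Q
  rw [← integral_Ioc_eq_integral_Ioo, ← integral_Ioc_eq_integral_Ioo,
    ← intervalIntegral.integral_of_le (by linarith), ← intervalIntegral.integral_of_le (by linarith)]
  have h := intervalIntegral.integral_comp_sub_left (a := 0) (b := Real.pi / 2)
    (fun θ => G θ * (((Real.cos θ) ^ (k - 1) * (Real.sin θ) ^ (m - 1) : ℝ) : ℂ) *
    (Phi k (r * Real.cos θ) * Phi m (t * Real.sin θ))) (Real.pi / 2)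
  rw [sub_self, sub_zero] at h
  rw [← h]
  apply intervalIntegral.integral_congr
  intro θ _
  simp only [Real.cos_pi_div_two_sub, Real.sin_pi_div_two_sub]
  push_cast
  ring

/-- the real exponent inequality behind the summation -/
theorem expo (k m τ A B : ℝ) (hk : 2 ≤ k) (hm : 2 ≤ m) (h0 : 0 < τ)
    (h1 : 1 < (k + m - 1) * τ) (hA : 1 ≤ A) (hAB : A ≤ B) :
    A ^ (-((k - 1) * τ)) * B ^ (-((m - 1) * τ)) * A ^ (1 - τ) ≤
      B ^ (-(min ((k + m - 1) * τ - 1) τ)) := by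
  have hB : 1 ≤ B := hA.trans hAB
  have hA0 : 0 < A := by linarith
  have hB0 : 0 < B := by linarith
  have e1 : A ^ (-((k - 1) * τ)) * B ^ (-((m - 1) * τ)) * A ^ (1 - τ) =
      A ^ (1 - k * τ) * B ^ (-((m - 1) * τ)) := by
    have : A ^ (1 - k * τ) = A ^ (-((k - 1) * τ)) * A ^ (1 - τ) := by
      rw [← Real.rpow_add hA0]; congr 1; ring
    rw [this]; ring
  rw [e1]
  rcases le_total 0 (1 - k * τ) with h | h
  · calc A ^ (1 - k * τ) * B ^ (-((m - 1) * τ)) ≤ B ^ (1 - k * τ) * B ^ (-((m - 1) * τ)) :=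
        mul_le_mul_of_nonneg_right (Real.rpow_le_rpow hA0.le hAB h) (Real.rpow_nonneg hB0.le _)
      _ = B ^ (-((k + m - 1) * τ - 1)) := by
        rw [← Real.rpow_add hB0]; congr 1; ring
      _ ≤ _ := Real.rpow_le_rpow_of_exponent_le hB (neg_le_neg (min_le_left _ _))
  · calc A ^ (1 - k * τ) * B ^ (-((m - 1) * τ)) ≤ 1 * B ^ (-((m - 1) * τ)) :=
        mul_le_mul_of_nonneg_right (Real.rpow_le_one_of_one_le_of_nonpos hA h)
          (Real.rpow_nonneg hB0.le _)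
      _ = B ^ (-((m - 1) * τ)) := one_mul _
      _ ≤ B ^ (-τ) := by
        apply Real.rpow_le_rpow_of_exponent_le hB
        nlinarith
      _ ≤ _ := Real.rpow_le_rpow_of_exponent_le hB (neg_le_neg (min_le_right _ _))

/-- the same, symmetric, with the logarithm absorbed -/
theorem expo2 (k m τ : ℝ) (hk : 2 ≤ k) (hm : 2 ≤ m) (h0 : 0 < τ)
    (h1 : 1 < (k + m - 1) * τ) : ∃ δ C : ℝ, 0 < δ ∧ 0 < C ∧ ∀ A B : ℝ, 1 ≤ A → 1 ≤ B →
    A ^ (-((k - 1) * τ)) * B ^ (-((m - 1) * τ)) * (min A B) ^ (1 - τ) * (1 + Real.log (A * B)) ≤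
      C * (A ^ (-δ) * B ^ (-δ)) := by
  set η : ℝ := min ((k + m - 1) * τ - 1) τ with hη
  have hη0 : 0 < η := lt_min (by linarith) h0
  refine ⟨η / 4, 1 + 4 / η, by positivity, by positivity, ?_⟩
  intro A B hA hB
  have hA0 : 0 < A := by linarith
  have hB0 : 0 < B := by linarith
  have hmain : A ^ (-((k - 1) * τ)) * B ^ (-((m - 1) * τ)) * (min A B) ^ (1 - τ) ≤
      (A * B) ^ (-(η / 2)) := by
    have haux : ∀ x y : ℝ, 1 ≤ x → x ≤ y → y ^ (-η) ≤ (x * y) ^ (-(η / 2)) := by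
      intro x y hx hxy
      have hy0 : 0 < y := by linarith
      have hx0 : 0 < x := by linarith
      have : y ^ (-η) = (y * y) ^ (-(η / 2)) := by
        rw [Real.mul_rpow hy0.le hy0.le, ← Real.rpow_add hy0]; congr 1; ring
      rw [this]
      apply Real.rpow_le_rpow_of_nonpos (by positivity)
      · exact mul_le_mul_of_nonneg_right hxy hy0.le
      · linarith
    rcases le_total A B with h | h
    · rw [min_eq_left h]
      exact (expo k m τ A B hk hm h0 h1 hA h).trans (haux A B hA h)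
    · rw [min_eq_right h]
      have h2 := expo m k τ B A hm hk h0 (by rw [add_comm m k]; exact h1) hB h
      rw [add_comm m k] at h2
      calc A ^ (-((k - 1) * τ)) * B ^ (-((m - 1) * τ)) * B ^ (1 - τ)
          = B ^ (-((m - 1) * τ)) * A ^ (-((k - 1) * τ)) * B ^ (1 - τ) := by ring
        _ ≤ _ := h2
        _ ≤ _ := by rw [mul_comm A B]; exact haux B A hB h
  have hAB1 : 1 ≤ A * B := by nlinarith
  have hlog : 1 + Real.log (A * B) ≤ (1 + 4 / η) * (A * B) ^ (η / 4) := by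
    have h2 := Real.log_le_rpow_div (x := A * B) (by positivity) (ε := η / 4) (by positivity)
    have h3 : (1 : ℝ) ≤ (A * B) ^ (η / 4) := Real.one_le_rpow hAB1 (by positivity)
    have h4 : (A * B) ^ (η / 4) / (η / 4) = 4 / η * (A * B) ^ (η / 4) := by
      field_simp
    rw [h4] at h2
    linarith
  have hl0 : 0 ≤ 1 + Real.log (A * B) := by
    have := Real.log_nonneg hAB1; linarith
  calc A ^ (-((k - 1) * τ)) * B ^ (-((m - 1) * τ)) * (min A B) ^ (1 - τ) *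
        (1 + Real.log (A * B))
      ≤ (A * B) ^ (-(η / 2)) * ((1 + 4 / η) * (A * B) ^ (η / 4)) :=
        mul_le_mul hmain hlog hl0 (by positivity)
    _ = (1 + 4 / η) * ((A * B) ^ (-(η / 2)) * (A * B) ^ (η / 4)) := by ring
    _ = (1 + 4 / η) * (A ^ (-(η / 4)) * B ^ (-(η / 4))) := by
        rw [← Real.rpow_add (by positivity), ← Real.mul_rpow hA0.le hB0.le]
        congr 2; ring

/-- bookkeeping of exponents in the interpolation -/
theorem xy_ident (κ1 κ2 τ A B mn Lg C2 C4 M : ℝ) (hA : 0 < A) (hB : 0 < B) (hmn : 0 < mn)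
    (hLg : 0 < Lg) (hC2 : 0 < C2) (hC4 : 0 < C4) (hM : 0 ≤ M) (h0 : 0 < τ) (h1 : τ < 1) :
    A ^ κ1 * B ^ κ2 * ((C2 * M ^ 2 * (A ^ (-κ1) * B ^ (-κ2) * (mn * Lg))) ^ (1 - τ) *
      (C4 * M ^ 4 * (A ^ (-(2 * κ1)) * B ^ (-(2 * κ2)) * Lg)) ^ τ) =
    C2 ^ (1 - τ) * C4 ^ τ * M ^ (2 + 2 * τ) *
      (A ^ (-(κ1 * τ)) * B ^ (-(κ2 * τ)) * mn ^ (1 - τ) * Lg) := by
  have hA' : ∀ x : ℝ, 0 < A ^ x := fun x => Real.rpow_pos_of_pos hA x
  have hB' : ∀ x : ℝ, 0 < B ^ x := fun x => Real.rpow_pos_of_pos hB x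
  have e1 : (C2 * M ^ 2 * (A ^ (-κ1) * B ^ (-κ2) * (mn * Lg))) ^ (1 - τ) =
      C2 ^ (1 - τ) * M ^ (2 * (1 - τ)) * (A ^ (-κ1 * (1 - τ)) * B ^ (-κ2 * (1 - τ)) *
        (mn ^ (1 - τ) * Lg ^ (1 - τ))) := by
    rw [Real.mul_rpow (by positivity) (by positivity), Real.mul_rpow hC2.le (by positivity),
      Real.mul_rpow (by positivity) (by positivity), Real.mul_rpow (hA' _).le (hB' _).le,
      Real.mul_rpow hmn.le hLg.le, ← Real.rpow_mul hA.le, ← Real.rpow_mul hB.le,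
      ← Real.rpow_natCast M 2, ← Real.rpow_mul hM]
    norm_num
  have e2 : (C4 * M ^ 4 * (A ^ (-(2 * κ1)) * B ^ (-(2 * κ2)) * Lg)) ^ τ =
      C4 ^ τ * M ^ (4 * τ) * (A ^ (-(2 * κ1) * τ) * B ^ (-(2 * κ2) * τ) * Lg ^ τ) := by
    rw [Real.mul_rpow (by positivity) (by positivity), Real.mul_rpow hC4.le (by positivity),
      Real.mul_rpow (by positivity) hLg.le, Real.mul_rpow (hA' _).le (hB' _).le,
      ← Real.rpow_mul hA.le, ← Real.rpow_mul hB.le,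
      ← Real.rpow_natCast M 4, ← Real.rpow_mul hM]
    norm_num
  rw [e1, e2]
  have a1 : A ^ (-(κ1 * τ)) = A ^ κ1 * A ^ (-κ1 * (1 - τ)) * A ^ (-(2 * κ1) * τ) := by
    rw [← Real.rpow_add hA, ← Real.rpow_add hA]; congr 1; ring
  have a2 : B ^ (-(κ2 * τ)) = B ^ κ2 * B ^ (-κ2 * (1 - τ)) * B ^ (-(2 * κ2) * τ) := by
    rw [← Real.rpow_add hB, ← Real.rpow_add hB]; congr 1; ring
  have a3 : M ^ (2 + 2 * τ) = M ^ (2 * (1 - τ)) * M ^ (4 * τ) := by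
    rw [← Real.rpow_add_of_nonneg hM (by linarith) (by linarith)]; congr 1; ring
  have a4 : Lg = Lg ^ (1 - τ) * Lg ^ τ := by
    rw [← Real.rpow_add hLg]
    simp
  have a5 : ∀ Z : ℝ, Z * Lg = Z * (Lg ^ (1 - τ) * Lg ^ τ) := fun Z => by rw [← a4]
  rw [a1, a2, a3, mul_assoc _ _ Lg, a5]
  ring

/-- the L2 box bound -/
def Box2 (k m : ℕ) : Prop := ∃ C : ℝ, 0 < C ∧
    ∀ (G : ℝ → ℂ) (M : ℝ), Measurable G → (∀ θ, ‖G θ‖ ≤ M) → ∀ A B : ℝ, 1 ≤ A → 1 ≤ B →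
    ∫⁻ r in Ioo A (2 * A), ∫⁻ t in Ioo B (2 * B), ENNReal.ofReal (‖F k m G r t‖ ^ 2) ≤
      ENNReal.ofReal (C * M ^ 2 * (A ^ (-((k : ℝ) - 1)) * B ^ (-((m : ℝ) - 1)) *
        (min A B * (1 + Real.log (A * B)))))

/-- the L4 box bound -/
def Box4 (k m : ℕ) : Prop := ∃ C : ℝ, 0 < C ∧
    ∀ (G : ℝ → ℂ) (M : ℝ), Measurable G → (∀ θ, ‖G θ‖ ≤ M) → ∀ A B : ℝ, 1 ≤ A → 1 ≤ B →
    ∫⁻ r in Ioo A (2 * A), ∫⁻ t in Ioo B (2 * B), ENNReal.ofReal (‖F k m G r t‖ ^ 4) ≤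
      ENNReal.ofReal (C * M ^ 4 * (A ^ (-(2 * ((k : ℝ) - 1))) * B ^ (-(2 * ((m : ℝ) - 1))) *
        (1 + Real.log (A * B))))

/-- the small region bound -/
def Small (k m : ℕ) (p : ℝ) : Prop := ∃ C : ℝ, 0 < C ∧ ∀ (G : ℝ → ℂ) (M : ℝ), Measurable G →
    (∀ θ, ‖G θ‖ ≤ M) →
    ∫⁻ r in Ioo (0 : ℝ) 1, ∫⁻ t in Ioi (0 : ℝ), ENNReal.ofReal (‖F k m G r t‖ ^ p *
      (r ^ (k - 1) * t ^ (m - 1))) ≤ ENNReal.ofReal (C * M ^ p)

theorem boxp (k m : ℕ) (hk : 2 ≤ k) (hm : 2 ≤ m) (p : ℝ)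
    (hp : 2 * ((k : ℝ) + m) / ((k : ℝ) + m - 1) < p) (hp4 : p < 4)
    (h2 : Box2 k m) (h4 : Box4 k m) :
    ∃ δ C : ℝ, 0 < δ ∧ 0 < C ∧ ∀ (G : ℝ → ℂ) (M : ℝ), Measurable G → (∀ θ, ‖G θ‖ ≤ M) →
    ∀ A B : ℝ, 1 ≤ A → 1 ≤ B →
    ∫⁻ r in Ioo A (2 * A), ∫⁻ t in Ioo B (2 * B), ENNReal.ofReal (‖F k m G r t‖ ^ p *
      (r ^ (k - 1) * t ^ (m - 1))) ≤ ENNReal.ofReal (C * M ^ p * (A ^ (-δ) * B ^ (-δ))) := by
  have hkr : (2 : ℝ) ≤ k := by exact_mod_cast hk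
  have hmr : (2 : ℝ) ≤ m := by exact_mod_cast hm
  have hN : (0 : ℝ) < (k : ℝ) + m - 1 := by linarith
  rw [div_lt_iff₀ hN] at hp
  have hp2 : 2 < p := by nlinarith
  set τ : ℝ := (p - 2) / 2 with hτ
  have h0 : 0 < τ := by rw [hτ]; linarith
  have hτ1 : τ < 1 := by rw [hτ]; linarith
  have h1 : 1 < ((k : ℝ) + m - 1) * τ := by rw [hτ]; nlinarith
  obtain ⟨δ, C0, hδ, hC0, hexp⟩ := expo2 k m τ hkr hmr h0 h1
  obtain ⟨C2, hC2, h2⟩ := h2
  obtain ⟨C4, hC4, h4⟩ := h4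
  refine ⟨δ, 2 ^ (k - 1) * 2 ^ (m - 1) * (C2 ^ (1 - τ) * C4 ^ τ * C0), hδ, by positivity, ?_⟩
  intro G M hG hM A B hA hB
  have hM0 : 0 ≤ M := (norm_nonneg _).trans (hM 0)
  have hA0 : 0 < A := by linarith
  have hB0 : 0 < B := by linarith
  have hFm := F_meas k m G hG
  set μ : Measure (ℝ × ℝ) := (volume.restrict (Ioo A (2 * A))).prod
    (volume.restrict (Ioo B (2 * B))) with hμ
  set f : ℝ × ℝ → ℝ := fun x => ‖F k m G x.1 x.2‖ with hf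
  have hfm : Measurable f := hFm.norm
  have hf0 : ∀ x, 0 ≤ f x := fun x => norm_nonneg _
  have hAB1 : 1 ≤ A * B := by nlinarith
  have hLg : 0 < 1 + Real.log (A * B) := by have := Real.log_nonneg hAB1; linarith
  have hmn : 0 < min A B := lt_min hA0 hB0
  set X : ℝ := C2 * M ^ 2 * (A ^ (-((k : ℝ) - 1)) * B ^ (-((m : ℝ) - 1)) *
        (min A B * (1 + Real.log (A * B)))) with hX
  set Y : ℝ := C4 * M ^ 4 * (A ^ (-(2 * ((k : ℝ) - 1))) * B ^ (-(2 * ((m : ℝ) - 1))) *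
        (1 + Real.log (A * B))) with hY
  have hX0 : 0 ≤ X := by positivity
  have hY0 : 0 ≤ Y := by positivity
  have g2 : ∫⁻ x, ENNReal.ofReal (f x ^ 2) ∂μ ≤ ENNReal.ofReal X := by
    rw [hμ, lintegral_prod _ (hfm.pow_const 2).ennreal_ofReal.aemeasurable]
    exact h2 G M hG hM A B hA hB
  have g4 : ∫⁻ x, ENNReal.ofReal (f x ^ 4) ∂μ ≤ ENNReal.ofReal Y := by
    rw [hμ, lintegral_prod _ (hfm.pow_const 4).ennreal_ofReal.aemeasurable]
    exact h4 G M hG hM A B hA hB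
  have g := Pool.Agent.H789R2.FR.InterpAux.gen_24 μ p hp2 hp4 f hfm hf0 X Y hX0 hY0 g2 g4
  rw [hμ, lintegral_prod _ (hfm.pow_const p).ennreal_ofReal.aemeasurable] at g
  have e14 : (4 - p) / 2 = 1 - τ := by rw [hτ]; ring
  rw [e14] at g
  change _ ≤ ENNReal.ofReal (X ^ (1 - τ) * Y ^ τ) at g
  -- the weights
  set W : ℝ := (2 * A) ^ (k - 1) * (2 * B) ^ (m - 1) with hW
  have hW0 : 0 ≤ W := by positivity
  have step : ∫⁻ r in Ioo A (2 * A), ∫⁻ t in Ioo B (2 * B), ENNReal.ofReal (‖F k m G r t‖ ^ p *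
      (r ^ (k - 1) * t ^ (m - 1))) ≤ ENNReal.ofReal W *
      ∫⁻ r in Ioo A (2 * A), ∫⁻ t in Ioo B (2 * B), ENNReal.ofReal (f (r, t) ^ p) := by
    have hm1 : Measurable fun r : ℝ => ∫⁻ t in Ioo B (2 * B), ENNReal.ofReal (f (r, t) ^ p) :=
      Measurable.lintegral_prod_right (hfm.pow_const p).ennreal_ofReal
    rw [← lintegral_const_mul _ hm1]
    apply setLIntegral_mono' measurableSet_Ioo
    intro r hr
    have hm2 : Measurable fun t : ℝ => ENNReal.ofReal (f (r, t) ^ p) :=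
      ((hfm.comp (measurable_const.prodMk measurable_id)).pow_const p).ennreal_ofReal
    rw [← lintegral_const_mul _ hm2]
    apply setLIntegral_mono' measurableSet_Ioo
    intro t ht
    rw [← ENNReal.ofReal_mul hW0]
    apply ENNReal.ofReal_le_ofReal
    have hr0 : 0 ≤ r := by linarith [hr.1]
    have ht0 : 0 ≤ t := by linarith [ht.1]
    have hw : r ^ (k - 1) * t ^ (m - 1) ≤ W :=
      mul_le_mul (pow_le_pow_left₀ hr0 hr.2.le _) (pow_le_pow_left₀ ht0 ht.2.le _)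
      (by positivity) (by positivity)
    have hfe : ‖F k m G r t‖ = f (r, t) := rfl
    rw [hfe, mul_comm W]
    exact mul_le_mul_of_nonneg_left hw (Real.rpow_nonneg (hf0 (r, t)) p)
  refine step.trans ((mul_le_mul' le_rfl g).trans ?_)
  rw [← ENNReal.ofReal_mul hW0]
  apply ENNReal.ofReal_le_ofReal
  have hA1 : A ^ (k - 1) = A ^ ((k : ℝ) - 1) := by
    rw [← Real.rpow_natCast]; congr 1; push_cast [Nat.cast_sub (by omega : 1 ≤ k)]; ring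
  have hB1 : B ^ (m - 1) = B ^ ((m : ℝ) - 1) := by
    rw [← Real.rpow_natCast]; congr 1; push_cast [Nat.cast_sub (by omega : 1 ≤ m)]; ring
  have hid := xy_ident ((k : ℝ) - 1) ((m : ℝ) - 1) τ A B (min A B) (1 + Real.log (A * B)) C2 C4 M
    hA0 hB0 hmn hLg hC2 hC4 hM0 h0 hτ1
  rw [← hX, ← hY] at hid
  have hpM : M ^ (2 + 2 * τ) = M ^ p := by congr 1; rw [hτ]; ring
  rw [hpM] at hid
  calc W * (X ^ (1 - τ) * Y ^ τ)
      = 2 ^ (k - 1) * 2 ^ (m - 1) * (A ^ ((k : ℝ) - 1) * B ^ ((m : ℝ) - 1) *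
          (X ^ (1 - τ) * Y ^ τ)) := by
        rw [hW, mul_pow, mul_pow, hA1, hB1]; ring
    _ = 2 ^ (k - 1) * 2 ^ (m - 1) * (C2 ^ (1 - τ) * C4 ^ τ * M ^ p *
          (A ^ (-(((k : ℝ) - 1) * τ)) * B ^ (-(((m : ℝ) - 1) * τ)) * (min A B) ^ (1 - τ) *
            (1 + Real.log (A * B)))) := by rw [hid]
    _ ≤ 2 ^ (k - 1) * 2 ^ (m - 1) * (C2 ^ (1 - τ) * C4 ^ τ * M ^ p *
          (C0 * (A ^ (-δ) * B ^ (-δ)))) := by
        apply mul_le_mul_of_nonneg_left _ (by positivity)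
        exact mul_le_mul_of_nonneg_left (hexp A B hA hB) (by positivity)
    _ = _ := by ring

/-- dyadic covering of `(1,∞)` -/
theorem cover_one (g : ℝ → ℝ≥0∞) :
    ∫⁻ r in Ioi (1 : ℝ), g r ≤ ∑' i : ℕ, ∫⁻ r in Ioo ((2 : ℝ) ^ i) (2 * 2 ^ i), g r := by
  have h1 : Ioi (1 : ℝ) ⊆ ⋃ i : ℕ, Ioc ((2 : ℝ) ^ i) (2 * 2 ^ i) := by
    intro r hr
    have hr1 : (1 : ℝ) < r := hr
    -- least n with r ≤ 2^n
    obtain ⟨n, hn⟩ := pow_unbounded_of_one_lt r (by norm_num : (1 : ℝ) < 2)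
    have hex : ∃ n : ℕ, r ≤ 2 ^ n := ⟨n, hn.le⟩
    classical
    set N := Nat.find hex with hN
    have hN1 : r ≤ 2 ^ N := Nat.find_spec hex
    have hN0 : N ≠ 0 := by
      intro h0
      rw [h0] at hN1
      simp at hN1
      linarith
    obtain ⟨j, hj⟩ := Nat.exists_eq_succ_of_ne_zero hN0
    have hj1 : ¬ r ≤ 2 ^ j := Nat.find_min hex (by rw [← hN, hj]; exact Nat.lt_succ_self j)
    rw [mem_iUnion]
    refine ⟨j, not_le.1 hj1, ?_⟩
    rw [hj, pow_succ] at hN1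
    linarith
  calc ∫⁻ r in Ioi (1 : ℝ), g r ≤ ∫⁻ r in ⋃ i : ℕ, Ioc ((2 : ℝ) ^ i) (2 * 2 ^ i), g r :=
        lintegral_mono_set h1
    _ ≤ ∑' i : ℕ, ∫⁻ r in Ioc ((2 : ℝ) ^ i) (2 * 2 ^ i), g r := lintegral_iUnion_le _ _
    _ = _ := by
        congr 1
        ext i
        exact setLIntegral_congr Ioo_ae_eq_Ioc.symm

/-- summation over dyadic boxes -/
theorem sum_boxes (δ : ℝ) (hδ : 0 < δ) : ∃ S : ℝ, 0 < S ∧ ∀ (H : ℝ × ℝ → ℝ≥0∞), Measurable H →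
    ∀ C : ℝ, 0 ≤ C → (∀ A B : ℝ, 1 ≤ A → 1 ≤ B →
      ∫⁻ r in Ioo A (2 * A), ∫⁻ t in Ioo B (2 * B), H (r, t) ≤
        ENNReal.ofReal (C * (A ^ (-δ) * B ^ (-δ)))) →
    ∫⁻ r in Ioi (1 : ℝ), ∫⁻ t in Ioi (1 : ℝ), H (r, t) ≤ ENNReal.ofReal (C * S) := by
  set q : ℝ := (2 : ℝ) ^ (-δ) with hq
  have hq0 : 0 < q := Real.rpow_pos_of_pos (by norm_num) _
  have hq1 : q < 1 := Real.rpow_lt_one_of_one_lt_of_neg (by norm_num) (by linarith)
  have h1q : 0 < 1 - q := by linarith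
  refine ⟨(1 - q)⁻¹ * (1 - q)⁻¹, by positivity, ?_⟩
  intro H hH C hC hbox
  have hpow : ∀ i : ℕ, ((2 : ℝ) ^ i) ^ (-δ) = q ^ i := by
    intro i
    rw [hq, ← Real.rpow_natCast, ← Real.rpow_natCast, ← Real.rpow_mul (by norm_num),
      ← Real.rpow_mul (by norm_num)]
    congr 1; ring
  have hone : ∀ i : ℕ, (1 : ℝ) ≤ 2 ^ i := fun i => one_le_pow₀ (by norm_num)
  have hgeo : ∑' i : ℕ, ENNReal.ofReal (q ^ i) = ENNReal.ofReal ((1 - q)⁻¹) := by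
    rw [← ENNReal.ofReal_tsum_of_nonneg (fun i => by positivity)
      (summable_geometric_of_lt_one hq0.le hq1), tsum_geometric_of_lt_one hq0.le hq1]
  calc ∫⁻ r in Ioi (1 : ℝ), ∫⁻ t in Ioi (1 : ℝ), H (r, t)
      ≤ ∑' i : ℕ, ∫⁻ r in Ioo ((2 : ℝ) ^ i) (2 * 2 ^ i), ∫⁻ t in Ioi (1 : ℝ), H (r, t) :=
        cover_one _
    _ ≤ ∑' i : ℕ, ∫⁻ r in Ioo ((2 : ℝ) ^ i) (2 * 2 ^ i),
          ∑' j : ℕ, ∫⁻ t in Ioo ((2 : ℝ) ^ j) (2 * 2 ^ j), H (r, t) := by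
        apply ENNReal.tsum_le_tsum
        intro i
        apply lintegral_mono
        intro r
        exact cover_one _
    _ = ∑' i : ℕ, ∑' j : ℕ, ∫⁻ r in Ioo ((2 : ℝ) ^ i) (2 * 2 ^ i),
          ∫⁻ t in Ioo ((2 : ℝ) ^ j) (2 * 2 ^ j), H (r, t) := by
        congr 1
        ext i
        rw [lintegral_tsum]
        intro j
        exact (Measurable.lintegral_prod_right (f := fun r t => H (r, t)) hH).aemeasurable
    _ ≤ ∑' i : ℕ, ∑' j : ℕ, ENNReal.ofReal C * (ENNReal.ofReal (q ^ i) *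
          ENNReal.ofReal (q ^ j)) := by
        apply ENNReal.tsum_le_tsum
        intro i
        apply ENNReal.tsum_le_tsum
        intro j
        refine (hbox _ _ (hone i) (hone j)).trans (le_of_eq ?_)
        rw [hpow, hpow, ENNReal.ofReal_mul hC, ENNReal.ofReal_mul (by positivity)]
    _ = ENNReal.ofReal C * (ENNReal.ofReal ((1 - q)⁻¹) * ENNReal.ofReal ((1 - q)⁻¹)) := by
        simp_rw [ENNReal.tsum_mul_left, hgeo, ENNReal.tsum_mul_right, hgeo]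
    _ = _ := by
        rw [ENNReal.ofReal_mul hC, ENNReal.ofReal_mul (by positivity)]

theorem planar_of (k m : ℕ) (hk : 2 ≤ k) (hm : 2 ≤ m) (p : ℝ)
    (hp : 2 * ((k : ℝ) + m) / ((k : ℝ) + m - 1) < p) (hp4 : p < 4)
    (h2 : Box2 k m) (h4 : Box4 k m) (hs : Small k m p) (hs' : Small m k p) :
    ∃ C : ℝ, 0 < C ∧ ∀ (G : ℝ → ℂ) (M : ℝ), Measurable G → (∀ θ, ‖G θ‖ ≤ M) →
    ∫⁻ r in Ioi (0 : ℝ), ∫⁻ t in Ioi (0 : ℝ), ENNReal.ofReal (‖F k m G r t‖ ^ p *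
      (r ^ (k - 1) * t ^ (m - 1))) ≤ ENNReal.ofReal (C * M ^ p) := by
  obtain ⟨δ, C0, hδ, hC0, hbox⟩ := boxp k m hk hm p hp hp4 h2 h4
  obtain ⟨S, hS, hsum⟩ := sum_boxes δ hδ
  obtain ⟨C1, hC1, hs⟩ := hs
  obtain ⟨C2, hC2, hs'⟩ := hs'
  refine ⟨C1 + C2 + C0 * S, by positivity, ?_⟩
  intro G M hG hM
  have hM0 : 0 ≤ M := (norm_nonneg _).trans (hM 0)
  have hMp : 0 ≤ M ^ p := Real.rpow_nonneg hM0 _
  set H : ℝ × ℝ → ℝ≥0∞ := fun x => ENNReal.ofReal (‖F k m G x.1 x.2‖ ^ p *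
      (x.1 ^ (k - 1) * x.2 ^ (m - 1))) with hH
  have hHm : Measurable H := by
    apply Measurable.ennreal_ofReal
    exact ((F_meas k m G hG).norm.pow_const p).mul (by fun_prop)
  change ∫⁻ r in Ioi (0 : ℝ), ∫⁻ t in Ioi (0 : ℝ), H (r, t) ≤ _
  -- region 3
  have r3 : ∫⁻ r in Ioi (1 : ℝ), ∫⁻ t in Ioi (1 : ℝ), H (r, t) ≤
      ENNReal.ofReal (C0 * M ^ p * S) := by
    apply hsum H hHm (C0 * M ^ p) (by positivity)
    intro A B hA hB
    exact hbox G M hG hM A B hA hB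
  have r1 : ∫⁻ r in Ioo (0 : ℝ) 1, ∫⁻ t in Ioi (0 : ℝ), H (r, t) ≤ ENNReal.ofReal (C1 * M ^ p) :=
    hs G M hG hM
  have r2 : ∫⁻ r in Ioi (0 : ℝ), ∫⁻ t in Ioo (0 : ℝ) 1, H (r, t) ≤
      ENNReal.ofReal (C2 * M ^ p) := by
    have e := lintegral_lintegral_swap (μ := volume.restrict (Ioi (0 : ℝ)))
      (ν := volume.restrict (Ioo (0 : ℝ) 1)) (f := fun r t => H (r, t)) hHm.aemeasurable
    rw [e]
    have h3 := hs' (fun θ => G (Real.pi / 2 - θ)) M (hG.comp (measurable_const.sub measurable_id))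
      (fun θ => hM _)
    refine le_trans (le_of_eq ?_) h3
    apply lintegral_congr
    intro t
    apply lintegral_congr
    intro r
    simp only [hH]
    rw [F_swap k m G r t, mul_comm (r ^ (k - 1))]
  -- splitting
  have hsplit : ∀ g : ℝ → ℝ≥0∞, ∫⁻ r in Ioi (0 : ℝ), g r ≤
      (∫⁻ r in Ioo (0 : ℝ) 1, g r) + ∫⁻ r in Ioi (1 : ℝ), g r := by
    intro g
    have h5 : Ioi (0 : ℝ) = Ioc 0 1 ∪ Ioi 1 := (Ioc_union_Ioi_eq_Ioi zero_le_one).symm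
    rw [h5]
    refine (lintegral_union_le _ _ _).trans (le_of_eq ?_)
    rw [setLIntegral_congr Ioo_ae_eq_Ioc]
  calc ∫⁻ r in Ioi (0 : ℝ), ∫⁻ t in Ioi (0 : ℝ), H (r, t)
      ≤ (∫⁻ r in Ioo (0 : ℝ) 1, ∫⁻ t in Ioi (0 : ℝ), H (r, t)) +
          ∫⁻ r in Ioi (1 : ℝ), ∫⁻ t in Ioi (0 : ℝ), H (r, t) := hsplit _
    _ ≤ ENNReal.ofReal (C1 * M ^ p) + (ENNReal.ofReal (C2 * M ^ p) +
          ENNReal.ofReal (C0 * M ^ p * S)) := by
        refine add_le_add r1 ?_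
        have h6 : ∫⁻ r in Ioi (1 : ℝ), ∫⁻ t in Ioi (0 : ℝ), H (r, t) ≤
            ∫⁻ r in Ioi (1 : ℝ), ((∫⁻ t in Ioo (0 : ℝ) 1, H (r, t)) +
              ∫⁻ t in Ioi (1 : ℝ), H (r, t)) := lintegral_mono fun r => hsplit _
        refine h6.trans ?_
        rw [lintegral_add_left (Measurable.lintegral_prod_right (f := fun r t => H (r, t)) hHm)]
        refine add_le_add (le_trans ?_ r2) r3
        exact lintegral_mono_set (Ioi_subset_Ioi zero_le_one)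
    _ = _ := by
        rw [← ENNReal.ofReal_add (by positivity) (by positivity),
          ← ENNReal.ofReal_add (by positivity) (by positivity)]
        congr 1; ring

end Pool.Agent.H438R2.BR
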