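import Mathlib
import Pool.Agent.H438R2.BR.T6
import Pool.Agent.H438R2.BR.T7
import Pool.Agent.H438R2.BR.T8
import Pool.Agent.H438R2.BR.T11
import Pool.Agent.H438R2.BR.T12
set_option autoImplicit false

/-! Block radial densities: the `L^p` bound in the coordinates of the two blocks. -/

namespace Pool.Agent.H438R2.BR

open MeasureTheory Set Complex
open scoped ENNReal RealInnerProductSpace
open Pool.Agent.H789R2.FR (E sg sg_ae sg_inv)

theorem planar (k m : ℕ) (hk : 2 ≤ k) (hm : 2 ≤ m) (p : ℝ)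
    (hp : 2 * ((k : ℝ) + m) / ((k : ℝ) + m - 1) < p) (hp4 : p < 4) :
    ∃ C : ℝ, 0 < C ∧ ∀ (G : ℝ → ℂ) (M : ℝ), Measurable G → (∀ θ, ‖G θ‖ ≤ M) →
    ∫⁻ r in Ioi (0 : ℝ), ∫⁻ t in Ioi (0 : ℝ), ENNReal.ofReal (‖F k m G r t‖ ^ p *
      (r ^ (k - 1) * t ^ (m - 1))) ≤ ENNReal.ofReal (C * M ^ p) := by
  have hkr : (2 : ℝ) ≤ k := by exact_mod_cast hk
  have hmr : (2 : ℝ) ≤ m := by exact_mod_cast hm
  have hN : (0 : ℝ) < (k : ℝ) + m - 1 := by linarith
  have hp2 : 2 < p := by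
    rw [div_lt_iff₀ hN] at hp
    nlinarith
  exact planar_of k m hk hm p hp hp4 (box2 k m hk hm) (box4 k m hk hm)
    (small_region k m hk hm p hp2) (small_region m k hm hk p hp2)

/-- the extension operator of a density depending on the length of the first block -/
noncomputable def TT (k m : ℕ) (γ : ℝ → ℂ) (x : E (k + m)) : ℂ :=
  ∫ z, Complex.exp (-((⟪x, z⟫ : ℝ) : ℂ) * I) * γ (bn k m z) ∂(sg (k + m))

theorem bn_meas (k m : ℕ) : Measurable (bn k m) := by
  unfold bn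
  fun_prop

theorem TT_meas (k m : ℕ) (γ : ℝ → ℂ) (hγ : Measurable γ) : Measurable (TT k m γ) := by
  unfold TT
  have : IsFiniteMeasure (sg (k + m)) := Pool.Agent.H789R2.FR.sg_finite _
  apply StronglyMeasurable.measurable
  apply StronglyMeasurable.integral_prod_right (f := fun (x z : E (k + m)) =>
    Complex.exp (-((⟪x, z⟫ : ℝ) : ℂ) * I) * γ (bn k m z))
  apply Measurable.stronglyMeasurable
  change Measurable fun p : E (k + m) × E (k + m) =>
    Complex.exp (-((⟪p.1, p.2⟫ : ℝ) : ℂ) * I) * γ (bn k m p.2)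
  have h1 : Measurable fun p : E (k + m) × E (k + m) => γ (bn k m p.2) :=
    hγ.comp ((bn_meas k m).comp measurable_snd)
  have h2 : Measurable fun p : E (k + m) × E (k + m) => (⟪p.1, p.2⟫ : ℝ) :=
    (continuous_inner (𝕜 := ℝ)).measurable
  have h3 : Measurable fun p : E (k + m) × E (k + m) =>
      Complex.exp (-((⟪p.1, p.2⟫ : ℝ) : ℂ) * I) := by
    apply Complex.measurable_exp.comp
    exact (Complex.measurable_ofReal.comp h2).neg.mul_const I
  exact h3.mul h1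

theorem TT_le (k m : ℕ) (γ : ℝ → ℂ) (M : ℝ) (hM : ∀ s, ‖γ s‖ ≤ M) (x : E (k + m)) :
    ‖TT k m γ x‖ ≤ M * (sg (k + m)).real univ := by
  have : IsFiniteMeasure (sg (k + m)) := Pool.Agent.H789R2.FR.sg_finite _
  unfold TT
  apply norm_integral_le_of_norm_le_const
  refine Filter.Eventually.of_forall fun z => ?_
  rw [norm_mul]
  have : ‖Complex.exp (-((⟪x, z⟫ : ℝ) : ℂ) * I)‖ = 1 := by
    have h : -((⟪x, z⟫ : ℝ) : ℂ) * I = ((-(⟪x, z⟫ : ℝ) : ℝ) : ℂ) * I := by push_cast; ring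
    rw [h, Complex.norm_exp_ofReal_mul_I]
  rw [this, one_mul]
  exact hM _

theorem core_lt (k m : ℕ) (hk : 2 ≤ k) (hm : 2 ≤ m) (p : ℝ)
    (hp : 2 * ((k : ℝ) + m) / ((k : ℝ) + m - 1) < p) (hp4 : p < 4) :
    ∃ C : ℝ, 0 < C ∧ ∀ (γ : ℝ → ℂ) (M : ℝ), Measurable γ → (∀ s, ‖γ s‖ ≤ M) →
    ∫⁻ x : E (k + m), ENNReal.ofReal (‖TT k m γ x‖ ^ p) ≤ ENNReal.ofReal (C * M ^ p) := by
  obtain ⟨C, hC, hpl⟩ := planar k m hk hm p hp hp4
  have f1 : IsFiniteMeasure (sg k) := Pool.Agent.H789R2.FR.sg_finite _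
  have f2 : IsFiniteMeasure (sg m) := Pool.Agent.H789R2.FR.sg_finite _
  have hkr : (2 : ℝ) ≤ k := by exact_mod_cast hk
  have hmr : (2 : ℝ) ≤ m := by exact_mod_cast hm
  have hN : (0 : ℝ) < (k : ℝ) + m - 1 := by linarith
  have hp0 : 0 < p := by
    rw [div_lt_iff₀ hN] at hp
    nlinarith
  set c : ℝ := ‖((sg (k - 1)).real univ : ℂ) * ((sg (m - 1)).real univ : ℂ)‖ with hc
  have hc0 : 0 ≤ c := norm_nonneg _
  refine ⟨c ^ p * ((sg k).real univ * (sg m).real univ * C) + 1, by positivity, ?_⟩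
  intro γ M hγ hM
  have hM0 : 0 ≤ M := (norm_nonneg _).trans (hM 0)
  have hG : Measurable fun θ : ℝ => γ (Real.cos θ) := hγ.comp Real.measurable_cos
  have hGM : ∀ θ : ℝ, ‖γ (Real.cos θ)‖ ≤ M := fun θ => hM _
  have hmeas : Measurable fun x : E (k + m) => ENNReal.ofReal (‖TT k m γ x‖ ^ p) :=
    ((TT_meas k m γ hγ).norm.pow_const p).ennreal_ofReal
  rw [← (J_mp k m).lintegral_comp hmeas]
  have hred : ∀ q : E k × E m, ENNReal.ofReal (‖TT k m γ (J q.1 q.2)‖ ^ p) =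
      ENNReal.ofReal (c ^ p) *
        ENNReal.ofReal (‖F k m (fun θ => γ (Real.cos θ)) ‖q.1‖ ‖q.2‖‖ ^ p) := by
    intro q
    unfold TT
    rw [reduction k m hk hm γ hγ M hM q.1 q.2, norm_mul, ← hc, Real.mul_rpow hc0 (norm_nonneg _),
      ENNReal.ofReal_mul (by positivity)]
  simp_rw [hred]
  rw [lintegral_const_mul' _ _ ENNReal.ofReal_ne_top,
    space_int k m hk hm p hp0 (fun θ => γ (Real.cos θ)) hG M hGM]
  calc _ ≤ ENNReal.ofReal (c ^ p) * (sg k univ * sg m univ * ENNReal.ofReal (C * M ^ p)) := by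
        gcongr
        exact hpl _ M hG hGM
    _ = ENNReal.ofReal (c ^ p) * (ENNReal.ofReal ((sg k).real univ) *
          ENNReal.ofReal ((sg m).real univ) * ENNReal.ofReal (C * M ^ p)) := by
        rw [ofReal_measureReal, ofReal_measureReal]
    _ = ENNReal.ofReal (c ^ p * ((sg k).real univ * (sg m).real univ * C) * M ^ p) := by
        rw [← ENNReal.ofReal_mul (by positivity), ← ENNReal.ofReal_mul (by positivity),
          ← ENNReal.ofReal_mul (by positivity)]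
        congr 1
        ring
    _ ≤ _ := by
        apply ENNReal.ofReal_le_ofReal
        have : 0 ≤ M ^ p := Real.rpow_nonneg hM0 p
        nlinarith

theorem core (k m : ℕ) (hk : 2 ≤ k) (hm : 2 ≤ m) (p : ℝ)
    (hp : 2 * ((k : ℝ) + m) / ((k : ℝ) + m - 1) < p) :
    ∃ C : ℝ, 0 < C ∧ ∀ (γ : ℝ → ℂ) (M : ℝ), Measurable γ → (∀ s, ‖γ s‖ ≤ M) →
    ∫⁻ x : E (k + m), ENNReal.ofReal (‖TT k m γ x‖ ^ p) ≤ ENNReal.ofReal (C * M ^ p) := by
  rcases lt_or_ge p 4 with hp4 | hp4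
  · exact core_lt k m hk hm p hp hp4
  · have hkr : (2 : ℝ) ≤ k := by exact_mod_cast hk
    have hmr : (2 : ℝ) ≤ m := by exact_mod_cast hm
    have hN : (0 : ℝ) < (k : ℝ) + m - 1 := by linarith
    have f1 : IsFiniteMeasure (sg (k + m)) := Pool.Agent.H789R2.FR.sg_finite _
    have h3 : 2 * ((k : ℝ) + m) / ((k : ℝ) + m - 1) < 3 := by
      rw [div_lt_iff₀ hN]; linarith
    obtain ⟨C, hC, h⟩ := core_lt k m hk hm 3 h3 (by norm_num)
    set S : ℝ := (sg (k + m)).real univ with hS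
    have hS0 : 0 ≤ S := measureReal_nonneg
    refine ⟨S ^ (p - 3) * C + 1, by positivity, ?_⟩
    intro γ M hγ hM
    have hM0 : 0 ≤ M := (norm_nonneg _).trans (hM 0)
    calc ∫⁻ x : E (k + m), ENNReal.ofReal (‖TT k m γ x‖ ^ p)
        ≤ ∫⁻ x : E (k + m), ENNReal.ofReal ((M * S) ^ (p - 3)) *
          ENNReal.ofReal (‖TT k m γ x‖ ^ (3 : ℝ)) := by
          apply lintegral_mono
          intro x
          simp only
          rw [← ENNReal.ofReal_mul (by positivity)]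
          apply ENNReal.ofReal_le_ofReal
          have e1 : p = (p - 3) + 3 := by ring
          conv_lhs => rw [e1]
          rw [Real.rpow_add_of_nonneg (norm_nonneg _) (by linarith) (by norm_num)]
          gcongr
          · linarith
          · exact TT_le k m γ M hM x
      _ = ENNReal.ofReal ((M * S) ^ (p - 3)) *
          ∫⁻ x : E (k + m), ENNReal.ofReal (‖TT k m γ x‖ ^ (3 : ℝ)) := by
          rw [lintegral_const_mul' _ _ ENNReal.ofReal_ne_top]
      _ ≤ ENNReal.ofReal ((M * S) ^ (p - 3)) * ENNReal.ofReal (C * M ^ (3 : ℝ)) := by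
          gcongr
          exact h γ M hγ hM
      _ = ENNReal.ofReal (S ^ (p - 3) * C * (M ^ (p - 3) * M ^ (3 : ℝ))) := by
          rw [← ENNReal.ofReal_mul (by positivity), Real.mul_rpow hM0 hS0]
          congr 1
          ring
      _ ≤ _ := by
          apply ENNReal.ofReal_le_ofReal
          rw [← Real.rpow_add_of_nonneg hM0 (by linarith) (by norm_num), sub_add_cancel]
          have : 0 ≤ M ^ p := Real.rpow_nonneg hM0 p
          nlinarith

end Pool.Agent.H438R2.BR
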