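import Mathlib
import Pool.Agent.H789R2.FR.Sph
set_option autoImplicit false

/-! From densities depending on one rough variable to densities which are smooth in `x` and rough in
one variable: Fourier expansion and translation. -/

namespace Pool.Agent.H438R2.BR.Fam

open MeasureTheory Set Complex Module
open scoped ENNReal RealInnerProductSpace FourierTransform
open Pool.Agent.H789R2.FR (E sg sg_ae sg_inv)

/-- decay of the Fourier transform of a smooth function supported in a ball -/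
theorem decay (n : ℕ) : ∃ C : ℝ, 0 < C ∧ ∀ (f : E n → ℂ) (M : ℝ), ContDiff ℝ (n + 1 : ℕ) f →
    tsupport f ⊆ Metric.closedBall 0 2 →
    (∀ j ≤ n + 1, ∀ x, ‖iteratedFDeriv ℝ j f x‖ ≤ M) → ∀ η : E n,
    ‖𝓕 f η‖ ≤ C * M * ((1 + ‖η‖) ^ (n + 1))⁻¹ := by
  set V : ℝ := (volume : Measure (E n)).real (Metric.closedBall 0 2) with hV
  have hV0 : 0 ≤ V := measureReal_nonneg
  refine ⟨2 ^ (n + 1) * (V + 2 ^ (n + 1) * ((n + 2) * V)) + 1, by positivity, ?_⟩
  intro f M hf hs hb η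
  have hM0 : 0 ≤ M := (norm_nonneg _).trans (hb 0 (Nat.zero_le _) 0)
  have hcs : HasCompactSupport f := HasCompactSupport.of_support_subset_isCompact
    (isCompact_closedBall 0 2) ((subset_tsupport f).trans hs)
  have hzero : ∀ j : ℕ, ∀ x ∉ Metric.closedBall (0 : E n) 2, iteratedFDeriv ℝ j f x = 0 := by
    intro j x hx
    by_contra h
    exact hx (hs (support_iteratedFDeriv_subset j h))
  have hint : ∀ j : ℕ, j ≤ n + 1 → Integrable (fun v => ‖iteratedFDeriv ℝ j f v‖) := by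
    intro j hj
    have h1 : Continuous (iteratedFDeriv ℝ j f) :=
      hf.continuous_iteratedFDeriv (by exact_mod_cast hj)
    exact (h1.integrable_of_hasCompactSupport (hcs.iteratedFDeriv j)).norm
  have hle : ∀ j : ℕ, j ≤ n + 1 → ∫ v, ‖iteratedFDeriv ℝ j f v‖ ≤ M * V := by
    intro j hj
    have h1 : ∫ v, ‖iteratedFDeriv ℝ j f v‖ ≤
        ∫ v, (Metric.closedBall (0 : E n) 2).indicator (fun _ => M) v := by
      apply integral_mono (hint j hj)
      · rw [integrable_indicator_iff Metric.isClosed_closedBall.measurableSet]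
        exact integrableOn_const (isCompact_closedBall _ _).measure_lt_top.ne (by simp)
      · intro x
        by_cases hx : x ∈ Metric.closedBall (0 : E n) 2
        · simp only [indicator_of_mem hx]
          exact hb j hj x
        · simp only [indicator_of_notMem hx, hzero j x hx, norm_zero, le_refl]
    refine h1.trans (le_of_eq ?_)
    rw [integral_indicator Metric.isClosed_closedBall.measurableSet, setIntegral_const,
      smul_eq_mul, mul_comm]
  have h0 : ‖𝓕 f η‖ ≤ M * V := by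
    have h1 : ‖𝓕 f η‖ ≤ ∫ v, ‖f v‖ := by
      rw [Real.fourier_eq]
      refine (norm_integral_le_integral_norm _).trans (le_of_eq ?_)
      congr 1
      ext v
      simp
    have h2 := hle 0 (Nat.zero_le _)
    simp only [norm_iteratedFDeriv_zero] at h2
    exact h1.trans h2
  have h1 : ‖η‖ ^ (n + 1) * ‖𝓕 f η‖ ≤ 2 ^ (n + 1) * ((n + 2) * (M * V)) := by
    have h := Real.pow_mul_norm_iteratedFDeriv_fourier_le (K := 0) (N := ((n + 1 : ℕ) : ℕ∞))
      (f := f) (by exact_mod_cast hf) (by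
        intro k j hk hj
        have hk0 : k = 0 := by simpa using hk
        subst hk0
        simp only [pow_zero, one_mul]
        exact hint j (by exact_mod_cast hj)) (k := 0) (n := n + 1) le_rfl le_rfl η
    simp only [norm_iteratedFDeriv_zero, pow_zero, one_mul, zero_add, Finset.range_one,
      Finset.singleton_product, Finset.sum_map, Function.Embedding.coeFn_mk, Nat.cast_zero,
      mul_zero] at h
    refine h.trans ?_
    gcongr
    calc _ ≤ ∑ j ∈ Finset.range (n + 1 + 1), M * V := by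
          apply Finset.sum_le_sum
          intro j hj
          exact hle j (by have := Finset.mem_range.1 hj; omega)
      _ = _ := by
          rw [Finset.sum_const, Finset.card_range, nsmul_eq_mul]
          push_cast
          ring
  have h2 : (1 + ‖η‖) ^ (n + 1) ≤ 2 ^ (n + 1) * (1 + ‖η‖ ^ (n + 1)) := by
    have hη : 0 ≤ ‖η‖ := norm_nonneg _
    have h3 : 1 + ‖η‖ ≤ 2 * max 1 ‖η‖ := by
      have := le_max_left 1 ‖η‖
      have := le_max_right 1 ‖η‖
      linarith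
    calc (1 + ‖η‖) ^ (n + 1) ≤ (2 * max 1 ‖η‖) ^ (n + 1) := by gcongr
      _ = 2 ^ (n + 1) * (max 1 ‖η‖) ^ (n + 1) := by rw [mul_pow]
      _ ≤ _ := by
          gcongr
          rcases le_total 1 ‖η‖ with h | h
          · rw [max_eq_right h]; linarith
          · rw [max_eq_left h]
            have : 0 ≤ ‖η‖ ^ (n + 1) := by positivity
            simp [this]
  have hpos : 0 < (1 + ‖η‖) ^ (n + 1) := by positivity
  rw [← div_eq_mul_inv, le_div_iff₀ hpos]
  calc ‖𝓕 f η‖ * (1 + ‖η‖) ^ (n + 1) ≤ ‖𝓕 f η‖ * (2 ^ (n + 1) * (1 + ‖η‖ ^ (n + 1))) := by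
        gcongr
    _ = 2 ^ (n + 1) * (‖𝓕 f η‖ + ‖η‖ ^ (n + 1) * ‖𝓕 f η‖) := by ring
    _ ≤ 2 ^ (n + 1) * (M * V + 2 ^ (n + 1) * ((n + 2) * (M * V))) := by gcongr
    _ = (2 ^ (n + 1) * (V + 2 ^ (n + 1) * ((n + 2) * V))) * M := by ring
    _ ≤ _ := by
        gcongr
        linarith

/-- Jensen's inequality -/
theorem jensenp {α : Type*} [MeasurableSpace α] (ν : Measure α) (g : α → ℝ≥0∞)
    (hg : AEMeasurable g ν) (p : ℝ) (hp : 1 < p) :
    (∫⁻ x, g x ∂ν) ^ p ≤ (ν univ) ^ (p - 1) * ∫⁻ x, g x ^ p ∂ν := by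
  have hp0 : 0 < p := by linarith
  have hp1 : 0 < p - 1 := by linarith
  have h := ENNReal.lintegral_mul_le_Lp_mul_Lq ν (p := p / (p - 1)) (q := p)
    (by
      rw [Real.holderConjugate_iff]
      refine ⟨?_, ?_⟩
      · rw [lt_div_iff₀ hp1]; linarith
      · field_simp
        ring) (f := fun _ => 1) (g := g) aemeasurable_const hg
  simp only [Pi.mul_apply, one_mul, ENNReal.one_rpow, lintegral_const] at h
  calc (∫⁻ x, g x ∂ν) ^ p ≤ ((ν univ) ^ (1 / (p / (p - 1))) *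
        (∫⁻ x, g x ^ p ∂ν) ^ (1 / p)) ^ p := by gcongr
    _ = _ := by
        rw [ENNReal.mul_rpow_of_nonneg _ _ hp0.le, ← ENNReal.rpow_mul, ← ENNReal.rpow_mul]
        congr 1
        · congr 1
          field_simp
        · rw [one_div_mul_cancel hp0.ne', ENNReal.rpow_one]

/-- the extension operator with the other normalization -/
noncomputable def U {n : ℕ} (τ : E n → ℝ) (γ : ℝ → ℂ) (ξ : E n) : ℂ :=
  ∫ w, Complex.exp (-((2 * Real.pi * ⟪w, ξ⟫ : ℝ) : ℂ) * I) * γ (τ w) ∂(sg n)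

/-- the hypothesis on the rough variable -/
def Good {n : ℕ} (τ : E n → ℝ) (p C : ℝ) : Prop :=
  ∀ (γ : ℝ → ℂ) (M : ℝ), Measurable γ → (∀ s, ‖γ s‖ ≤ M) →
    ∫⁻ ξ, ENNReal.ofReal (‖U τ γ ξ‖ ^ p) ≤ ENNReal.ofReal (C * M ^ p)

/-- the cutoff -/
noncomputable def chi (n : ℕ) : ContDiffBump (0 : E n) := ⟨1, 2, one_pos, one_lt_two⟩

/-- the localized family -/
noncomputable def loc {n : ℕ} (Φ : ℝ → E n → ℂ) (s : ℝ) (x : E n) : ℂ :=
  ((chi n x : ℝ) : ℂ) * Φ s x

theorem chi_cd (n N : ℕ) : ContDiff ℝ N (fun x : E n => ((chi n x : ℝ) : ℂ)) :=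
  Complex.ofRealCLM.contDiff.comp (chi n).contDiff

theorem chi_ts (n : ℕ) : tsupport (fun x : E n => ((chi n x : ℝ) : ℂ)) ⊆
    Metric.closedBall 0 2 := by
  have h1 : tsupport (fun x : E n => ((chi n x : ℝ) : ℂ)) = tsupport (chi n) := by
    unfold tsupport
    congr 1
    ext x
    simp
  rw [h1, (chi n).tsupport_eq]
  exact le_rfl

theorem chi_bound (n : ℕ) : ∃ B : ℝ, 0 < B ∧ ∀ j ≤ n + 1, ∀ x : E n,
    ‖iteratedFDeriv ℝ j (fun x : E n => ((chi n x : ℝ) : ℂ)) x‖ ≤ B := by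
  have hcs : HasCompactSupport (fun x : E n => ((chi n x : ℝ) : ℂ)) :=
    HasCompactSupport.of_support_subset_isCompact
      (isCompact_closedBall 0 2) ((subset_tsupport _).trans (chi_ts n))
  have h : ∀ j : ℕ, ∃ B : ℝ, ∀ x : E n,
      ‖iteratedFDeriv ℝ j (fun x : E n => ((chi n x : ℝ) : ℂ)) x‖ ≤ B := by
    intro j
    exact ((chi_cd n j).continuous_iteratedFDeriv le_rfl).bounded_above_of_compact_support
      (hcs.iteratedFDeriv j)
  choose B hB using h
  refine ⟨1 + ∑ j ∈ Finset.range (n + 2), |B j|, by positivity, ?_⟩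
  intro j hj x
  have h1 : |B j| ≤ ∑ j ∈ Finset.range (n + 2), |B j| :=
    Finset.single_le_sum (f := fun j => |B j|) (fun _ _ => abs_nonneg _)
      (Finset.mem_range.2 (by omega))
  have h2 := hB j x
  have h3 := le_abs_self (B j)
  linarith

theorem loc_ts {n : ℕ} (Φ : ℝ → E n → ℂ) (s : ℝ) : tsupport (loc Φ s) ⊆ Metric.closedBall 0 2 :=
  (tsupport_mul_subset_left (f := fun x : E n => ((chi n x : ℝ) : ℂ)) (g := Φ s)).trans (chi_ts n)

theorem loc_bound (n : ℕ) : ∃ B : ℝ, 0 < B ∧ ∀ (Φ : ℝ → E n → ℂ) (M : ℝ),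
    (∀ s, ContDiff ℝ (n + 1 : ℕ) (Φ s)) →
    (∀ s, ∀ j ≤ n + 1, ∀ x, ‖x‖ ≤ 2 → ‖iteratedFDeriv ℝ j (Φ s) x‖ ≤ M) →
    ∀ s, ∀ j ≤ n + 1, ∀ x, ‖iteratedFDeriv ℝ j (loc Φ s) x‖ ≤ B * M := by
  obtain ⟨B, hB, hb⟩ := chi_bound n
  refine ⟨2 ^ (n + 1) * B, by positivity, ?_⟩
  intro Φ M hc hM s j hj x
  have hM0 : 0 ≤ M := (norm_nonneg _).trans (hM 0 0 (Nat.zero_le _) 0 (by simp))
  by_cases hx : ‖x‖ ≤ 2
  · refine (norm_iteratedFDeriv_mul_le (chi_cd n (n + 1)) (hc s) x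
      (by exact_mod_cast hj)).trans ?_
    calc _ ≤ ∑ i ∈ Finset.range (j + 1), (j.choose i : ℝ) * B * M := by
          apply Finset.sum_le_sum
          intro i hi
          have := Finset.mem_range.1 hi
          gcongr
          · exact hb i (by omega) x
          · exact hM s (j - i) (by omega) x hx
      _ = 2 ^ j * B * M := by
          rw [← Finset.sum_mul, ← Finset.sum_mul]
          congr 2
          exact_mod_cast Nat.sum_range_choose j
      _ ≤ _ := by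
          gcongr
          · norm_num
  · have h0 : iteratedFDeriv ℝ j (loc Φ s) x = 0 := by
      by_contra h
      have := loc_ts Φ s (support_iteratedFDeriv_subset j h)
      rw [mem_closedBall_zero_iff] at this
      exact hx this
    rw [h0, norm_zero]
    positivity

/-- the Fourier coefficients -/
noncomputable def ga {n : ℕ} (Φ : ℝ → E n → ℂ) (η : E n) (s : ℝ) : ℂ := 𝓕 (loc Φ s) η

theorem ga_meas {n : ℕ} (Φ : ℝ → E n → ℂ) (hΦ : Measurable fun q : ℝ × E n => Φ q.1 q.2) :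
    Measurable fun q : E n × ℝ => ga Φ q.1 q.2 := by
  unfold ga loc
  simp_rw [Real.fourier_eq']
  apply StronglyMeasurable.measurable
  apply StronglyMeasurable.integral_prod_right (f := fun (q : E n × ℝ) (v : E n) =>
    Complex.exp (((-2 * Real.pi * ⟪v, q.1⟫ : ℝ) : ℂ) * I) • (((chi n v : ℝ) : ℂ) * Φ q.2 v))
  apply Measurable.stronglyMeasurable
  change Measurable fun p : (E n × ℝ) × E n =>
    Complex.exp (((-2 * Real.pi * ⟪p.2, p.1.1⟫ : ℝ) : ℂ) * I) •
      (((chi n p.2 : ℝ) : ℂ) * Φ p.1.2 p.2)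
  have h1 : Measurable fun p : (E n × ℝ) × E n => Φ p.1.2 p.2 :=
    hΦ.comp ((measurable_snd.comp measurable_fst).prodMk measurable_snd)
  have h2 : Measurable fun p : (E n × ℝ) × E n => (⟪p.2, p.1.1⟫ : ℝ) :=
    (continuous_snd.inner (continuous_fst.comp continuous_fst)).measurable
  have h3 : Measurable fun p : (E n × ℝ) × E n =>
      Complex.exp (((-2 * Real.pi * ⟪p.2, p.1.1⟫ : ℝ) : ℂ) * I) :=
    Complex.measurable_exp.comp ((Complex.measurable_ofReal.comp (h2.const_mul _)).mul_const I)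
  have h4 : Measurable fun p : (E n × ℝ) × E n => ((chi n p.2 : ℝ) : ℂ) :=
    Complex.measurable_ofReal.comp ((chi n).continuous.measurable.comp measurable_snd)
  exact h3.smul (h4.mul h1)

theorem W_int (n : ℕ) : Integrable (fun η : E n => ((1 + ‖η‖) ^ (n + 1))⁻¹) := by
  have h := integrable_one_add_norm (E := E n) (μ := volume) (r := (n : ℝ) + 1)
    (by rw [finrank_euclideanSpace_fin]; linarith)
  refine h.congr (Filter.Eventually.of_forall fun η => ?_)
  have h1 : 0 ≤ 1 + ‖η‖ := by positivity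
  simp only
  rw [Real.rpow_neg h1]
  congr 1
  exact_mod_cast Real.rpow_natCast (1 + ‖η‖) (n + 1)

theorem nexp' (x : ℝ) : ‖Complex.exp ((x : ℂ) * I)‖ = 1 := Complex.norm_exp_ofReal_mul_I x

theorem U_meas {n : ℕ} (τ : E n → ℝ) (hτ : Measurable τ) (γ : E n → ℝ → ℂ)
    (hγ : Measurable fun q : E n × ℝ => γ q.1 q.2) :
    Measurable fun q : E n × E n => U τ (γ q.2) (q.1 - q.2) := by
  unfold U
  have : IsFiniteMeasure (sg n) := Pool.Agent.H789R2.FR.sg_finite _
  apply StronglyMeasurable.measurable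
  apply StronglyMeasurable.integral_prod_right (f := fun (q : E n × E n) (w : E n) =>
    Complex.exp (-((2 * Real.pi * ⟪w, q.1 - q.2⟫ : ℝ) : ℂ) * I) * γ q.2 (τ w))
  apply Measurable.stronglyMeasurable
  change Measurable fun p : (E n × E n) × E n =>
    Complex.exp (-((2 * Real.pi * ⟪p.2, p.1.1 - p.1.2⟫ : ℝ) : ℂ) * I) * γ p.1.2 (τ p.2)
  have h1 : Measurable fun p : (E n × E n) × E n => γ p.1.2 (τ p.2) :=
    hγ.comp ((measurable_snd.comp measurable_fst).prodMk (hτ.comp measurable_snd))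
  have h2 : Measurable fun p : (E n × E n) × E n => (⟪p.2, p.1.1 - p.1.2⟫ : ℝ) :=
    (continuous_snd.inner ((continuous_fst.comp continuous_fst).sub
      (continuous_snd.comp continuous_fst))).measurable
  have h3 : Measurable fun p : (E n × E n) × E n =>
      Complex.exp (-((2 * Real.pi * ⟪p.2, p.1.1 - p.1.2⟫ : ℝ) : ℂ) * I) :=
    Complex.measurable_exp.comp ((Complex.measurable_ofReal.comp (h2.const_mul _)).neg.mul_const I)
  exact h3.mul h1

theorem ga_meas1 {n : ℕ} (Φ : ℝ → E n → ℂ) (hΦ : Measurable fun q : ℝ × E n => Φ q.1 q.2)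
    (s : ℝ) : Measurable fun η : E n => ga Φ η s := by
  have h1 : Measurable fun η : E n => (η, s) := measurable_prodMk_right
  have h2 := Measurable.comp (ga_meas Φ hΦ) h1
  exact h2

theorem ga_meas2 {n : ℕ} (Φ : ℝ → E n → ℂ) (hΦ : Measurable fun q : ℝ × E n => Φ q.1 q.2)
    (η : E n) : Measurable (ga Φ η) := by
  have h1 : Measurable fun s : ℝ => (η, s) := measurable_prodMk_left
  have h2 := Measurable.comp (ga_meas Φ hΦ) h1
  exact h2

/-- the hypotheses on the family -/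
structure Nice {n : ℕ} (Φ : ℝ → E n → ℂ) (M : ℝ) : Prop where
  meas : Measurable (fun q : ℝ × E n => Φ q.1 q.2)
  smooth : ∀ s, ContDiff ℝ (n + 1 : ℕ) (Φ s)
  bound : ∀ s, ∀ j ≤ n + 1, ∀ x, ‖x‖ ≤ 2 → ‖iteratedFDeriv ℝ j (Φ s) x‖ ≤ M

theorem loc_smooth {n : ℕ} (Φ : ℝ → E n → ℂ) (M : ℝ) (h : Nice Φ M) (s : ℝ) :
    ContDiff ℝ (n + 1 : ℕ) (loc Φ s) := (chi_cd n (n + 1)).mul (h.smooth s)

theorem ga_bound (n : ℕ) : ∃ K : ℝ, 0 < K ∧ ∀ (Φ : ℝ → E n → ℂ) (M : ℝ), Nice Φ M →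
    ∀ η s, ‖ga Φ η s‖ ≤ K * M * ((1 + ‖η‖) ^ (n + 1))⁻¹ := by
  obtain ⟨C1, hC1, hdec⟩ := decay n
  obtain ⟨B, hB, hloc⟩ := loc_bound n
  refine ⟨C1 * B, by positivity, ?_⟩
  intro Φ M h η s
  have := hdec (loc Φ s) (B * M) (loc_smooth Φ M h s) (loc_ts Φ s)
    (hloc Φ M h.smooth h.bound s) η
  unfold ga
  refine this.trans (le_of_eq ?_)
  ring

theorem inversion {n : ℕ} (Φ : ℝ → E n → ℂ) (M : ℝ) (h : Nice Φ M) (s : ℝ) (w : E n)
    (hw : ‖w‖ = 1) : Φ s w =
      ∫ η, Complex.exp (((2 * Real.pi * ⟪w, η⟫ : ℝ) : ℂ) * I) * ga Φ η s := by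
  obtain ⟨K, hK, hgb⟩ := ga_bound n
  have hcs : HasCompactSupport (loc Φ s) := HasCompactSupport.of_support_subset_isCompact
    (isCompact_closedBall 0 2) ((subset_tsupport _).trans (loc_ts Φ s))
  have hi1 : Integrable (loc Φ s) :=
    (loc_smooth Φ M h s).continuous.integrable_of_hasCompactSupport hcs
  have hi2 : Integrable (𝓕 (loc Φ s)) := by
    refine ((W_int n).const_mul (K * M)).mono' ?_ ?_
    · exact (ga_meas1 Φ h.meas s).aestronglyMeasurable
    · exact Filter.Eventually.of_forall fun η => hgb Φ M h η s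
  have h1 := congrFun ((loc_smooth Φ M h s).continuous.fourierInv_fourier_eq hi1 hi2) w
  have h2 : loc Φ s w = Φ s w := by
    unfold loc
    rw [(chi n).one_of_mem_closedBall (by
      rw [mem_closedBall_zero_iff, hw]
      exact le_rfl)]
    simp
  rw [← h2, ← h1, Real.fourierInv_eq']
  congr 1
  ext η
  rw [smul_eq_mul, real_inner_comm]
  rfl

theorem rep {n : ℕ} (τ : E n → ℝ) (hτ : Measurable τ) (Φ : ℝ → E n → ℂ) (M : ℝ)
    (h : Nice Φ M) (ξ : E n) :
    ∫ w, Complex.exp (-((2 * Real.pi * ⟪w, ξ⟫ : ℝ) : ℂ) * I) *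
        Φ (τ w) w ∂(sg n) = ∫ η, U τ (ga Φ η) (ξ - η) := by
  obtain ⟨K, hK, hgb⟩ := ga_bound n
  have hfin : IsFiniteMeasure (sg n) := Pool.Agent.H789R2.FR.sg_finite _
  have h1 : ∫ w, Complex.exp (-((2 * Real.pi * ⟪w, ξ⟫ : ℝ) : ℂ) * I) *
      Φ (τ w) w ∂(sg n) = ∫ w, (∫ η, Complex.exp (-((2 * Real.pi * ⟪w, ξ - η⟫ : ℝ) : ℂ) * I) *
      ga Φ η (τ w)) ∂(sg n) := by
    apply integral_congr_ae
    filter_upwards [sg_ae n] with w hw
    rw [inversion Φ M h (τ w) w hw, ← integral_const_mul]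
    congr 1
    ext η
    rw [← mul_assoc, ← Complex.exp_add, inner_sub_right]
    congr 2
    push_cast
    ring
  rw [h1]
  unfold U
  have hb : Integrable (fun q : E n × E n => (1 : ℝ) * (K * M * ((1 + ‖q.2‖) ^ (n + 1))⁻¹))
      ((sg n).prod volume) :=
    (integrable_const (1 : ℝ)).mul_prod ((W_int n).const_mul (K * M))
  apply integral_integral_swap (f := fun w η =>
    Complex.exp (-((2 * Real.pi * ⟪w, ξ - η⟫ : ℝ) : ℂ) * I) * ga Φ η (τ w))
  refine hb.mono' ?_ ?_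
  · apply Measurable.aestronglyMeasurable
    have m0 : Measurable fun q : E n × E n => (q.2, τ q.1) :=
      measurable_snd.prodMk (hτ.comp measurable_fst)
    have m1' := Measurable.comp (ga_meas Φ h.meas) m0
    have m1 : Measurable fun q : E n × E n => ga Φ q.2 (τ q.1) := m1'
    have m2 : Measurable fun q : E n × E n => (⟪q.1, ξ - q.2⟫ : ℝ) :=
      (continuous_fst.inner (continuous_const.sub continuous_snd)).measurable
    have m3 : Measurable fun q : E n × E n =>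
        Complex.exp (-((2 * Real.pi * ⟪q.1, ξ - q.2⟫ : ℝ) : ℂ) * I) :=
      Complex.measurable_exp.comp
        ((Complex.measurable_ofReal.comp (m2.const_mul _)).neg.mul_const I)
    exact m3.mul m1
  · refine Filter.Eventually.of_forall fun q => ?_
    simp only [Function.uncurry]
    rw [norm_mul]
    have : ‖Complex.exp (-((2 * Real.pi * ⟪q.1, ξ - q.2⟫ : ℝ) : ℂ) * I)‖ = 1 := by
      have h := nexp' (-(2 * Real.pi * ⟪q.1, ξ - q.2⟫))
      push_cast at h ⊢
      exact h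
    rw [this, one_mul, one_mul]
    exact hgb Φ M h q.2 (τ q.1)

/-- the weight -/
noncomputable def W {n : ℕ} (η : E n) : ℝ := ((1 + ‖η‖) ^ (n + 1))⁻¹

theorem W_pos {n : ℕ} (η : E n) : 0 < W η := by unfold W; positivity

theorem W_meas (n : ℕ) : Measurable (W : E n → ℝ) := by
  unfold W
  fun_prop

theorem W_mul {n : ℕ} (η : E n) : (1 + ‖η‖) ^ (n + 1) * W η = 1 := by
  unfold W
  exact mul_inv_cancel₀ (by positivity)

theorem fam_fibre {n : ℕ} (τ : E n → ℝ) (p : ℝ) (hp : 1 < p) (C : ℝ)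
    (hC : 0 < C) (hG : Good τ p C) (γ : ℝ → ℂ) (hγ : Measurable γ) (L : ℝ) (hL : 0 ≤ L)
    (η : E n) (hb : ∀ s, ‖γ s‖ ≤ L * W η) :
    ∫⁻ ξ, (‖U τ γ (ξ - η)‖ₑ * ENNReal.ofReal ((1 + ‖η‖) ^ (n + 1))) ^ p ≤
      ENNReal.ofReal (C * L ^ p) := by
  have hp0 : 0 < p := by linarith
  have h1 : ∀ ξ, (‖U τ γ (ξ - η)‖ₑ * ENNReal.ofReal ((1 + ‖η‖) ^ (n + 1))) ^ p =
      (fun ζ => ENNReal.ofReal (‖U τ γ ζ‖ ^ p)) (ξ - η) *
        ENNReal.ofReal (((1 + ‖η‖) ^ (n + 1)) ^ p) := by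
    intro ξ
    simp only
    rw [ENNReal.mul_rpow_of_nonneg _ _ hp0.le,
      ENNReal.ofReal_rpow_of_nonneg (by positivity) hp0.le, ← ofReal_norm,
      ENNReal.ofReal_rpow_of_nonneg (norm_nonneg _) hp0.le]
  simp_rw [h1]
  rw [lintegral_mul_const' _ _ ENNReal.ofReal_ne_top,
    lintegral_sub_right_eq_self (fun ζ => ENNReal.ofReal (‖U τ γ ζ‖ ^ p)) η]
  have h2 := hG γ (L * W η) hγ hb
  have hWη := (W_pos η).le
  calc _ ≤ ENNReal.ofReal (C * (L * W η) ^ p) *
        ENNReal.ofReal (((1 + ‖η‖) ^ (n + 1)) ^ p) := by gcongr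
    _ = _ := by
        rw [← ENNReal.ofReal_mul (by positivity), mul_assoc,
          ← Real.mul_rpow (by positivity) (by positivity)]
        congr 3
        rw [mul_assoc, mul_comm (W η), W_mul, mul_one]

theorem fam_unif {n : ℕ} (p : ℝ) (hp : 1 < p) (C : ℝ) (hC : 0 < C) :
    ∃ C' : ℝ, 0 < C' ∧ ∀ (τ : E n → ℝ), Measurable τ → Good τ p C →
      ∀ (Φ : ℝ → E n → ℂ) (M : ℝ), Nice Φ M →
      ∫⁻ ξ, ENNReal.ofReal (‖∫ w, Complex.exp (-((2 * Real.pi * ⟪w, ξ⟫ : ℝ) : ℂ) * I) *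
        Φ (τ w) w ∂(sg n)‖ ^ p) ≤ ENNReal.ofReal (C' * M ^ p) := by
  have hp0 : 0 < p := by linarith
  obtain ⟨K, hK0, hgb⟩ := ga_bound n
  set ν : Measure (E n) := volume.withDensity (fun η => ENNReal.ofReal (W η)) with hν
  have hνu : ν univ = ∫⁻ η : E n, ENNReal.ofReal (W η) := by
    rw [hν, withDensity_apply _ MeasurableSet.univ, Measure.restrict_univ]
  have hνfin : ν univ ≠ ⊤ := by
    rw [hνu]
    exact (W_int n).lintegral_lt_top.ne
  have hνs : SFinite ν := by rw [hν]; infer_instance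
  refine ⟨(ν univ).toReal ^ p * C * K ^ p + 1, by positivity, ?_⟩
  intro τ hτ hG Φ M h
  have hM0 : 0 ≤ M := (norm_nonneg _).trans (h.bound 0 0 (Nat.zero_le _) 0 (by simp))
  have hUm : Measurable fun q : E n × E n => U τ (ga Φ q.2) (q.1 - q.2) :=
    U_meas τ hτ (ga Φ) (ga_meas Φ h.meas)
  set g : E n → E n → ℝ≥0∞ := fun ξ η => ‖U τ (ga Φ η) (ξ - η)‖ₑ *
    ENNReal.ofReal ((1 + ‖η‖) ^ (n + 1)) with hg
  have hgmeas : Measurable fun q : E n × E n => g q.1 q.2 := by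
    simp only [hg]
    apply hUm.enorm.mul
    apply Measurable.ennreal_ofReal
    fun_prop
  have hgmeas2 : ∀ ξ, Measurable (g ξ) := fun ξ => by
    have h1 : Measurable fun η : E n => (ξ, η) := measurable_prodMk_left
    have h2 := Measurable.comp hgmeas h1
    exact h2
  have s1 : ∀ ξ : E n, ENNReal.ofReal (‖∫ w, Complex.exp (-((2 * Real.pi * ⟪w, ξ⟫ : ℝ) : ℂ) * I) *
        Φ (τ w) w ∂(sg n)‖ ^ p) ≤ (∫⁻ η, g ξ η ∂ν) ^ p := by
    intro ξ
    rw [rep τ hτ Φ M h, ← ENNReal.ofReal_rpow_of_nonneg (norm_nonneg _) hp0.le, ofReal_norm]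
    gcongr
    refine (enorm_integral_le_lintegral_enorm _).trans (le_of_eq ?_)
    rw [hν, lintegral_withDensity_eq_lintegral_mul _ (W_meas n).ennreal_ofReal (hgmeas2 ξ)]
    congr 1
    ext η
    simp only [Pi.mul_apply, hg]
    rw [mul_comm, mul_assoc, ← ENNReal.ofReal_mul (by positivity), W_mul, ENNReal.ofReal_one,
      mul_one]
  have s2 : ∀ ξ : E n, (∫⁻ η, g ξ η ∂ν) ^ p ≤ (ν univ) ^ (p - 1) * ∫⁻ η, g ξ η ^ p ∂ν :=
    fun ξ => jensenp ν (g ξ) (hgmeas2 ξ).aemeasurable p hp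
  have s3 : ∀ η : E n, ∫⁻ ξ, g ξ η ^ p ≤ ENNReal.ofReal (C * (K * M) ^ p) := fun η =>
    fam_fibre τ p hp C hC hG (ga Φ η) (ga_meas2 Φ h.meas η) (K * M) (by positivity) η
      (fun s => hgb Φ M h η s)
  calc ∫⁻ ξ, ENNReal.ofReal (‖∫ w, Complex.exp (-((2 * Real.pi * ⟪w, ξ⟫ : ℝ) : ℂ) * I) *
        Φ (τ w) w ∂(sg n)‖ ^ p)
      ≤ ∫⁻ ξ, (ν univ) ^ (p - 1) * ∫⁻ η, g ξ η ^ p ∂ν :=
        lintegral_mono fun ξ => (s1 ξ).trans (s2 ξ)
    _ = (ν univ) ^ (p - 1) * ∫⁻ ξ, ∫⁻ η, g ξ η ^ p ∂ν := by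
        rw [lintegral_const_mul']
        exact ENNReal.rpow_ne_top_of_nonneg (by linarith) hνfin
    _ = (ν univ) ^ (p - 1) * ∫⁻ η, (∫⁻ ξ, g ξ η ^ p) ∂ν := by
        rw [lintegral_lintegral_swap]
        exact (hgmeas.pow_const p).aemeasurable
    _ ≤ (ν univ) ^ (p - 1) * ∫⁻ _η, ENNReal.ofReal (C * (K * M) ^ p) ∂ν := by
        apply mul_le_mul_right
        exact lintegral_mono s3
    _ = (ν univ) ^ p * ENNReal.ofReal (C * (K * M) ^ p) := by
        rw [lintegral_const, mul_comm (ENNReal.ofReal _), ← mul_assoc]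
        congr 1
        have h1 : (ν univ) ^ (p - 1) * ν univ = (ν univ) ^ (p - 1) * (ν univ) ^ (1 : ℝ) := by
          rw [ENNReal.rpow_one]
        rw [h1, ← ENNReal.rpow_add_of_nonneg _ _ (by linarith) (by norm_num), sub_add_cancel]
    _ = ENNReal.ofReal ((ν univ).toReal ^ p * C * K ^ p * M ^ p) := by
        conv_lhs => rw [← ENNReal.ofReal_toReal hνfin]
        rw [ENNReal.ofReal_rpow_of_nonneg ENNReal.toReal_nonneg hp0.le,
          ← ENNReal.ofReal_mul (by positivity), Real.mul_rpow hK0.le hM0]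
        congr 1
        ring
    _ ≤ _ := by
        apply ENNReal.ofReal_le_ofReal
        have : 0 ≤ M ^ p := Real.rpow_nonneg hM0 p
        nlinarith

end Pool.Agent.H438R2.BR.Fam
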