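import Mathlib
import Pool.Agent.H438R2.BR.Defs
import Pool.Agent.H789R2.FR.Defs
set_option autoImplicit false

namespace Pool.Agent.H438R2.BR

open MeasureTheory Set Complex
open scoped ENNReal RealInnerProductSpace
open Pool.Agent.H789R2.FR (E sg)

/-! ## T1: Laplace representation (contour shift) -/
theorem phi_laplace (k : ℕ) (hk : 2 ≤ k) (u : ℝ) (hu : 0 < u) :
    Phi k u = -I * Complex.exp ((u : ℂ) * I) * L k u +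
      I * Complex.exp (-((u : ℂ) * I)) * (starRingEnd ℂ) (L k u) := sorry

/-! ## T2: the symbol -/
theorem sy_int (k : ℕ) (hk : 2 ≤ k) : ∃ C : ℝ, 0 < C ∧ ∀ A : ℝ, 1 ≤ A →
    ∫⁻ y in Ioi (0 : ℝ), ENNReal.ofReal (‖sy k y‖ * w k A y) ≤
      ENNReal.ofReal (C * A ^ (-(((k : ℝ) - 1) / 2))) := sorry

/-! ## T3: the kernel lemma -/
theorem kernel2 {X : Type*} [MeasurableSpace X] (μ : Measure X) [IsFiniteMeasure μ]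
    (h z1 z2 : X → ℂ) (hh : Measurable h) (hz1 : Measurable z1) (hz2 : Measurable z2)
    (M : ℝ) (hM : ∀ x, ‖h x‖ ≤ M) (h1 : ∀ x, 0 ≤ (z1 x).re) (h2 : ∀ x, 0 ≤ (z2 x).re)
    (q : ℕ) (A B : ℝ) (hA : 0 < A) (hB : 0 < B) :
    ∫⁻ r in Ioi (0 : ℝ), ∫⁻ t in Ioi (0 : ℝ), ENNReal.ofReal (ka q A r * ka q B t *
        ‖∫ x, h x * Complex.exp (-((r : ℂ) * z1 x) - (t : ℂ) * z2 x) ∂μ‖ ^ 2) ≤
      ENNReal.ofReal ((q.factorial : ℝ) ^ 2) * ∫⁻ x, ∫⁻ x', ENNReal.ofReal (‖h x‖ * ‖h x'‖ *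
        (A / ‖1 + (A : ℂ) * (z1 x + (starRingEnd ℂ) (z1 x'))‖ ^ (q + 1)) *
        (B / ‖1 + (B : ℂ) * (z2 x + (starRingEnd ℂ) (z2 x'))‖ ^ (q + 1))) ∂μ ∂μ := sorry

/-! ## T4: the quadratic form bounds -/
theorem Q2_bound : ∃ C : ℝ, 0 < C ∧ ∀ A B : ℝ, 1 ≤ A → 1 ≤ B →
    ∫⁻ x in Q, ∫⁻ y in Q, ENNReal.ofReal (K A (Real.cos x - Real.cos y) *
      K B (Real.sin x - Real.sin y)) ≤ ENNReal.ofReal (C * (min A B * (1 + Real.log (A * B)))) :=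
  sorry

theorem Q1_bound : ∃ C : ℝ, 0 < C ∧ ∀ B : ℝ, 1 ≤ B →
    ∫⁻ x in Q, ∫⁻ y in Q, ENNReal.ofReal (K B (Real.sin x - Real.sin y)) ≤
      ENNReal.ofReal (C * (1 + Real.log B)) := sorry

/-! ## T5: the quadrilinear bound -/
theorem Q4_bound : ∃ C : ℝ, 0 < C ∧ ∀ A B : ℝ, 1 ≤ A → 1 ≤ B →
    ∫⁻ x in Q, ∫⁻ y in Q, ∫⁻ z in Q, ∫⁻ v in Q,
      ENNReal.ofReal (K A (Real.cos x + Real.cos y - Real.cos z - Real.cos v) *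
      K B (Real.sin x + Real.sin y - Real.sin z - Real.sin v)) ≤
      ENNReal.ofReal (C * (1 + Real.log (A * B))) := sorry

/-! ## T6: L2 and L4 bounds on dyadic boxes -/
theorem box2 (k m : ℕ) (hk : 2 ≤ k) (hm : 2 ≤ m) : ∃ C : ℝ, 0 < C ∧
    ∀ (G : ℝ → ℂ) (M : ℝ), Measurable G → (∀ θ, ‖G θ‖ ≤ M) → ∀ A B : ℝ, 1 ≤ A → 1 ≤ B →
    ∫⁻ r in Ioo A (2 * A), ∫⁻ t in Ioo B (2 * B), ENNReal.ofReal (‖F k m G r t‖ ^ 2) ≤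
      ENNReal.ofReal (C * M ^ 2 * (A ^ (-((k : ℝ) - 1)) * B ^ (-((m : ℝ) - 1)) *
        (min A B * (1 + Real.log (A * B))))) := sorry

theorem box4 (k m : ℕ) (hk : 2 ≤ k) (hm : 2 ≤ m) : ∃ C : ℝ, 0 < C ∧
    ∀ (G : ℝ → ℂ) (M : ℝ), Measurable G → (∀ θ, ‖G θ‖ ≤ M) → ∀ A B : ℝ, 1 ≤ A → 1 ≤ B →
    ∫⁻ r in Ioo A (2 * A), ∫⁻ t in Ioo B (2 * B), ENNReal.ofReal (‖F k m G r t‖ ^ 4) ≤
      ENNReal.ofReal (C * M ^ 4 * (A ^ (-(2 * ((k : ℝ) - 1))) * B ^ (-(2 * ((m : ℝ) - 1))) *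
        (1 + Real.log (A * B)))) := sorry

/-! ## T7: the region where one of the variables is small -/
theorem small_region (k m : ℕ) (hk : 2 ≤ k) (hm : 2 ≤ m) (p : ℝ) (hp : 2 < p) :
    ∃ C : ℝ, 0 < C ∧ ∀ (G : ℝ → ℂ) (M : ℝ), Measurable G → (∀ θ, ‖G θ‖ ≤ M) →
    ∫⁻ r in Ioo (0 : ℝ) 1, ∫⁻ t in Ioi (0 : ℝ), ENNReal.ofReal (‖F k m G r t‖ ^ p *
      (r ^ (k - 1) * t ^ (m - 1))) ≤ ENNReal.ofReal (C * M ^ p) := sorry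

/-! ## T8: summation over the boxes -/
theorem planar (k m : ℕ) (hk : 2 ≤ k) (hm : 2 ≤ m) (p : ℝ)
    (hp : 2 * ((k : ℝ) + m) / ((k : ℝ) + m - 1) < p) (hp4 : p < 4) :
    ∃ C : ℝ, 0 < C ∧ ∀ (G : ℝ → ℂ) (M : ℝ), Measurable G → (∀ θ, ‖G θ‖ ≤ M) →
    ∫⁻ r in Ioi (0 : ℝ), ∫⁻ t in Ioi (0 : ℝ), ENNReal.ofReal (‖F k m G r t‖ ^ p *
      (r ^ (k - 1) * t ^ (m - 1))) ≤ ENNReal.ofReal (C * M ^ p) := sorry

/-! ## T9: bipolar coordinates on the sphere -/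
/-- concatenation of coordinates -/
noncomputable def J {k m : ℕ} (x : E k) (y : E m) : E (k + m) :=
  WithLp.toLp 2 (Fin.append (fun i => x i) (fun i => y i))

/-- length of the first block -/
noncomputable def bn (k m : ℕ) (z : E (k + m)) : ℝ :=
  Real.sqrt (∑ i : Fin k, (z (Fin.castAdd m i)) ^ 2)

theorem J_inner {k m : ℕ} (x x' : E k) (y y' : E m) :
    (⟪J x y, J x' y'⟫ : ℝ) = ⟪x, x'⟫ + ⟪y, y'⟫ := sorry

theorem bn_J {k m : ℕ} (x : E k) (y : E m) : bn k m (J x y) = ‖x‖ := sorry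

theorem J_mp (k m : ℕ) : MeasurePreserving (fun p : E k × E m => J p.1 p.2)
    ((volume : Measure (E k)).prod (volume : Measure (E m))) (volume : Measure (E (k + m))) := sorry

theorem bipolar (k m : ℕ) (hk : 1 ≤ k) (hm : 1 ≤ m) (f : E (k + m) → ℝ≥0∞) (hf : Measurable f) :
    ∫⁻ z, f z ∂(sg (k + m)) = ∫⁻ θ in Q, ENNReal.ofReal ((Real.cos θ) ^ (k - 1) *
      (Real.sin θ) ^ (m - 1)) * ∫⁻ u, ∫⁻ v, f (J (Real.cos θ • u) (Real.sin θ • v))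
        ∂(sg m) ∂(sg k) := sorry

/-! ## T10: Fourier transform of the sphere -/
theorem sphere_ft (k : ℕ) (hk : 2 ≤ k) (x : E k) :
    ∫ v, Complex.exp (-((⟪x, v⟫ : ℝ) : ℂ) * I) ∂(sg k) =
      ((sg (k - 1)).real univ : ℂ) * Phi k ‖x‖ := sorry

/-! ## T11: reduction to the planar profile -/
theorem reduction (k m : ℕ) (hk : 2 ≤ k) (hm : 2 ≤ m) (γ : ℝ → ℂ) (hγ : Measurable γ)
    (M : ℝ) (hM : ∀ s, ‖γ s‖ ≤ M) (x : E k) (y : E m) :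
    ∫ z, Complex.exp (-((⟪J x y, z⟫ : ℝ) : ℂ) * I) * γ (bn k m z) ∂(sg (k + m)) =
      ((sg (k - 1)).real univ : ℂ) * ((sg (m - 1)).real univ : ℂ) *
        F k m (fun θ => γ (Real.cos θ)) ‖x‖ ‖y‖ := sorry

/-! ## T12: the integral over the whole space -/
theorem space_int (k m : ℕ) (hk : 2 ≤ k) (hm : 2 ≤ m) (p : ℝ) (hp : 0 < p) (G : ℝ → ℂ)
    (hG : Measurable G) (M : ℝ) (hM : ∀ s, ‖G s‖ ≤ M) :
    ∫⁻ p' : E k × E m, ENNReal.ofReal (‖F k m G ‖p'.1‖ ‖p'.2‖‖ ^ p)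
      ∂((volume : Measure (E k)).prod (volume : Measure (E m))) =
    sg k univ * sg m univ * ∫⁻ r in Ioi (0 : ℝ), ∫⁻ t in Ioi (0 : ℝ),
      ENNReal.ofReal (‖F k m G r t‖ ^ p * (r ^ (k - 1) * t ^ (m - 1))) := sorry

end Pool.Agent.H438R2.BR
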